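import Pool.Agent.Work.MP_88b7aa_gt.Iv.Dat

/-! Every root box has a checked subdivision tree. -/

namespace Pool.Agent.Work.MP_88b7aa_gt.Iv

theorem dat3 (p q r : ℕ) (hp : 3 ≤ p) (hpq : p ≤ q) (hq : 4 ≤ q) (hqr : q ≤ r) (hr : r ≤ 9) :
    ∃ T, run 3 T (bx 3 p q r) = true := by
  have h1 : p ≤ 9 := by omega
  have h2 : q ≤ 9 := by omega
  have h3 : 4 ≤ r := by omega
  interval_cases p
  · interval_cases q
    · interval_cases r
      · exact c3_3_4_4
      · exact c3_3_4_5
      · exact c3_3_4_6
      · exact c3_3_4_7
      · exact c3_3_4_8
      · exact c3_3_4_9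
    · interval_cases r
      · exact c3_3_5_5
      · exact c3_3_5_6
      · exact c3_3_5_7
      · exact c3_3_5_8
      · exact c3_3_5_9
    · interval_cases r
      · exact c3_3_6_6
      · exact c3_3_6_7
      · exact c3_3_6_8
      · exact c3_3_6_9
    · interval_cases r
      · exact c3_3_7_7
      · exact c3_3_7_8
      · exact c3_3_7_9
    · interval_cases r
      · exact c3_3_8_8
      · exact c3_3_8_9
    · interval_cases r
      · exact c3_3_9_9
  · interval_cases q
    · interval_cases r
      · exact c3_4_4_4
      · exact c3_4_4_5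
      · exact c3_4_4_6
      · exact c3_4_4_7
      · exact c3_4_4_8
      · exact c3_4_4_9
    · interval_cases r
      · exact c3_4_5_5
      · exact c3_4_5_6
      · exact c3_4_5_7
      · exact c3_4_5_8
      · exact c3_4_5_9
    · interval_cases r
      · exact c3_4_6_6
      · exact c3_4_6_7
      · exact c3_4_6_8
      · exact c3_4_6_9
    · interval_cases r
      · exact c3_4_7_7
      · exact c3_4_7_8
      · exact c3_4_7_9
    · interval_cases r
      · exact c3_4_8_8
      · exact c3_4_8_9
    · interval_cases r
      · exact c3_4_9_9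
  · interval_cases q
    · interval_cases r
      · exact c3_5_5_5
      · exact c3_5_5_6
      · exact c3_5_5_7
      · exact c3_5_5_8
      · exact c3_5_5_9
    · interval_cases r
      · exact c3_5_6_6
      · exact c3_5_6_7
      · exact c3_5_6_8
      · exact c3_5_6_9
    · interval_cases r
      · exact c3_5_7_7
      · exact c3_5_7_8
      · exact c3_5_7_9
    · interval_cases r
      · exact c3_5_8_8
      · exact c3_5_8_9
    · interval_cases r
      · exact c3_5_9_9
  · interval_cases q
    · interval_cases r
      · exact c3_6_6_6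
      · exact c3_6_6_7
      · exact c3_6_6_8
      · exact c3_6_6_9
    · interval_cases r
      · exact c3_6_7_7
      · exact c3_6_7_8
      · exact c3_6_7_9
    · interval_cases r
      · exact c3_6_8_8
      · exact c3_6_8_9
    · interval_cases r
      · exact c3_6_9_9
  · interval_cases q
    · interval_cases r
      · exact c3_7_7_7
      · exact c3_7_7_8
      · exact c3_7_7_9
    · interval_cases r
      · exact c3_7_8_8
      · exact c3_7_8_9
    · interval_cases r
      · exact c3_7_9_9
  · interval_cases q
    · interval_cases r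
      · exact c3_8_8_8
      · exact c3_8_8_9
    · interval_cases r
      · exact c3_8_9_9
  · interval_cases q
    · interval_cases r
      · exact c3_9_9_9

theorem dat4 (r : ℕ) (h : 4 ≤ r) (hr : r ≤ 9) : ∃ T, run 4 T (bx 4 3 3 r) = true := by
  interval_cases r
  · exact c4_3_3_4
  · exact c4_3_3_5
  · exact c4_3_3_6
  · exact c4_3_3_7
  · exact c4_3_3_8
  · exact c4_3_3_9

end Pool.Agent.Work.MP_88b7aa_gt.Iv
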