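import Mathlib

/-!
# Taylor bounds.  Size: S-M.

PROOF.  Lemma: if `f 0 = 0`, `f` is differentiable and `f' ≥ 0` on `[0, ∞)` then `f ≥ 0` on `[0,∞)` (`monotoneOn_of_deriv_nonneg`).  Apply it
successively, starting from `cos x ≤ 1`: `sin x ≤ x`, `cos x ≥ 1 - x²/2`, `sin x ≥ x - x³/6`, `cos x ≤ 1 - x²/2 + x⁴/24`, ...,
each step being the antiderivative of the previous one, up to `cos x ≤ ... + x¹²/12!`.
(A uniform formulation: for all `n`, with `C n x = ∑_{j<n} (-1)^j x^(2j)/(2j)!` and `S n x` similarly, the sign of `(-1)^n (cos x - C n x)`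
is `≥ 0`; induction on `n`.)
`arctan`: for `0 ≤ x` the derivative of `arctan x - (x - x³/3 + x⁵/5 - x⁷/7)` is `1/(1+x²) - (1 - x² + x⁴ - x⁶) = x⁸/(1+x²) ≥ 0`, and the
derivative of `(x - x³/3 + x⁵/5) - arctan x` is `x⁶/(1+x²) ≥ 0`.
-/

namespace Pool.Agent.Work.MP_88b7aa_gt.Iv

private theorem nnd {f f' : ℝ → ℝ} (hf : ∀ x, HasDerivAt f (f' x) x) (h0 : f 0 = 0)
    (h : ∀ x, 0 ≤ x → 0 ≤ f' x) : ∀ x, 0 ≤ x → 0 ≤ f x := by
  intro x hx
  have hm : MonotoneOn f (Set.Ici 0) := by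
    apply monotoneOn_of_deriv_nonneg (convex_Ici 0)
    · exact fun y _ => (hf y).continuousAt.continuousWithinAt
    · exact fun y _ => (hf y).differentiableAt.differentiableWithinAt
    · intro y hy
      rw [interior_Ici] at hy
      rw [(hf y).deriv]
      exact h y (le_of_lt hy)
  have h1 := hm (Set.mem_Ici.2 le_rfl) (Set.mem_Ici.2 hx) hx
  rw [h0] at h1
  exact h1

private theorem mon (n : ℕ) (c : ℝ) (x : ℝ) :
    HasDerivAt (fun y : ℝ => y ^ (n + 1) / c) (((n : ℝ) + 1) * x ^ n / c) x := by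
  have h := (hasDerivAt_pow (n + 1) x).div_const c
  simpa using h

private theorem c0 : ∀ y : ℝ, 0 ≤ y → 0 ≤ 1 - Real.cos y := by
  intro y _
  linarith [Real.cos_le_one y]

private theorem t1 : ∀ y : ℝ, 0 ≤ y → 0 ≤ y - Real.sin y := by
  refine nnd (f := fun y : ℝ => y - Real.sin y)
    (f' := fun y : ℝ => 1 - Real.cos y) (fun x => ?_) ?_ c0
  · have h := ((hasDerivAt_id x).sub (Real.hasDerivAt_sin x))
    refine HasDerivAt.congr_deriv h ?_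
    push_cast
    ring
  · simp

private theorem t2 : ∀ y : ℝ, 0 ≤ y → 0 ≤ Real.cos y - (1 - y ^ 2 / 2) := by
  refine nnd (f := fun y : ℝ => Real.cos y - (1 - y ^ 2 / 2))
    (f' := fun y : ℝ => y - Real.sin y) (fun x => ?_) ?_ t1
  · have h := ((Real.hasDerivAt_cos x).sub ((hasDerivAt_const x (1 : ℝ)).sub (mon 1 2 x)))
    refine HasDerivAt.congr_deriv h ?_
    push_cast
    ring
  · simp

private theorem t3 : ∀ y : ℝ, 0 ≤ y → 0 ≤ Real.sin y - (y - y ^ 3 / 6) := by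
  refine nnd (f := fun y : ℝ => Real.sin y - (y - y ^ 3 / 6))
    (f' := fun y : ℝ => Real.cos y - (1 - y ^ 2 / 2)) (fun x => ?_) ?_ t2
  · have h := ((Real.hasDerivAt_sin x).sub ((hasDerivAt_id x).sub (mon 2 6 x)))
    refine HasDerivAt.congr_deriv h ?_
    push_cast
    ring
  · simp

private theorem t4 : ∀ y : ℝ, 0 ≤ y → 0 ≤ (1 - y ^ 2 / 2 + y ^ 4 / 24) - Real.cos y := by
  refine nnd (f := fun y : ℝ => (1 - y ^ 2 / 2 + y ^ 4 / 24) - Real.cos y)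
    (f' := fun y : ℝ => Real.sin y - (y - y ^ 3 / 6)) (fun x => ?_) ?_ t3
  · have h := ((((hasDerivAt_const x (1 : ℝ)).sub (mon 1 2 x)).add (mon 3 24 x)).sub (Real.hasDerivAt_cos x))
    refine HasDerivAt.congr_deriv h ?_
    push_cast
    ring
  · simp

private theorem t5 : ∀ y : ℝ, 0 ≤ y → 0 ≤ (y - y ^ 3 / 6 + y ^ 5 / 120) - Real.sin y := by
  refine nnd (f := fun y : ℝ => (y - y ^ 3 / 6 + y ^ 5 / 120) - Real.sin y)
    (f' := fun y : ℝ => (1 - y ^ 2 / 2 + y ^ 4 / 24) - Real.cos y) (fun x => ?_) ?_ t4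
  · have h := ((((hasDerivAt_id x).sub (mon 2 6 x)).add (mon 4 120 x)).sub (Real.hasDerivAt_sin x))
    refine HasDerivAt.congr_deriv h ?_
    push_cast
    ring
  · simp

private theorem t6 : ∀ y : ℝ, 0 ≤ y → 0 ≤ Real.cos y - (1 - y ^ 2 / 2 + y ^ 4 / 24 - y ^ 6 / 720) := by
  refine nnd (f := fun y : ℝ => Real.cos y - (1 - y ^ 2 / 2 + y ^ 4 / 24 - y ^ 6 / 720))
    (f' := fun y : ℝ => (y - y ^ 3 / 6 + y ^ 5 / 120) - Real.sin y) (fun x => ?_) ?_ t5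
  · have h := ((Real.hasDerivAt_cos x).sub ((((hasDerivAt_const x (1 : ℝ)).sub (mon 1 2 x)).add (mon 3 24 x)).sub (mon 5 720 x)))
    refine HasDerivAt.congr_deriv h ?_
    push_cast
    ring
  · simp

private theorem t7 : ∀ y : ℝ, 0 ≤ y → 0 ≤ Real.sin y - (y - y ^ 3 / 6 + y ^ 5 / 120 - y ^ 7 / 5040) := by
  refine nnd (f := fun y : ℝ => Real.sin y - (y - y ^ 3 / 6 + y ^ 5 / 120 - y ^ 7 / 5040))
    (f' := fun y : ℝ => Real.cos y - (1 - y ^ 2 / 2 + y ^ 4 / 24 - y ^ 6 / 720)) (fun x => ?_) ?_ t6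
  · have h := ((Real.hasDerivAt_sin x).sub ((((hasDerivAt_id x).sub (mon 2 6 x)).add (mon 4 120 x)).sub (mon 6 5040 x)))
    refine HasDerivAt.congr_deriv h ?_
    push_cast
    ring
  · simp

private theorem t8 : ∀ y : ℝ, 0 ≤ y → 0 ≤ (1 - y ^ 2 / 2 + y ^ 4 / 24 - y ^ 6 / 720 + y ^ 8 / 40320) - Real.cos y := by
  refine nnd (f := fun y : ℝ => (1 - y ^ 2 / 2 + y ^ 4 / 24 - y ^ 6 / 720 + y ^ 8 / 40320) - Real.cos y)
    (f' := fun y : ℝ => Real.sin y - (y - y ^ 3 / 6 + y ^ 5 / 120 - y ^ 7 / 5040)) (fun x => ?_) ?_ t7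
  · have h := ((((((hasDerivAt_const x (1 : ℝ)).sub (mon 1 2 x)).add (mon 3 24 x)).sub (mon 5 720 x)).add (mon 7 40320 x)).sub (Real.hasDerivAt_cos x))
    refine HasDerivAt.congr_deriv h ?_
    push_cast
    ring
  · simp

private theorem t9 : ∀ y : ℝ, 0 ≤ y → 0 ≤ (y - y ^ 3 / 6 + y ^ 5 / 120 - y ^ 7 / 5040 + y ^ 9 / 362880) - Real.sin y := by
  refine nnd (f := fun y : ℝ => (y - y ^ 3 / 6 + y ^ 5 / 120 - y ^ 7 / 5040 + y ^ 9 / 362880) - Real.sin y)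
    (f' := fun y : ℝ => (1 - y ^ 2 / 2 + y ^ 4 / 24 - y ^ 6 / 720 + y ^ 8 / 40320) - Real.cos y) (fun x => ?_) ?_ t8
  · have h := ((((((hasDerivAt_id x).sub (mon 2 6 x)).add (mon 4 120 x)).sub (mon 6 5040 x)).add (mon 8 362880 x)).sub (Real.hasDerivAt_sin x))
    refine HasDerivAt.congr_deriv h ?_
    push_cast
    ring
  · simp

private theorem t10 : ∀ y : ℝ, 0 ≤ y → 0 ≤ Real.cos y - (1 - y ^ 2 / 2 + y ^ 4 / 24 - y ^ 6 / 720 + y ^ 8 / 40320 - y ^ 10 / 3628800) := by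
  refine nnd (f := fun y : ℝ => Real.cos y - (1 - y ^ 2 / 2 + y ^ 4 / 24 - y ^ 6 / 720 + y ^ 8 / 40320 - y ^ 10 / 3628800))
    (f' := fun y : ℝ => (y - y ^ 3 / 6 + y ^ 5 / 120 - y ^ 7 / 5040 + y ^ 9 / 362880) - Real.sin y) (fun x => ?_) ?_ t9
  · have h := ((Real.hasDerivAt_cos x).sub ((((((hasDerivAt_const x (1 : ℝ)).sub (mon 1 2 x)).add (mon 3 24 x)).sub (mon 5 720 x)).add (mon 7 40320 x)).sub (mon 9 3628800 x)))
    refine HasDerivAt.congr_deriv h ?_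
    push_cast
    ring
  · simp

private theorem t11 : ∀ y : ℝ, 0 ≤ y → 0 ≤ Real.sin y - (y - y ^ 3 / 6 + y ^ 5 / 120 - y ^ 7 / 5040 + y ^ 9 / 362880 - y ^ 11 / 39916800) := by
  refine nnd (f := fun y : ℝ => Real.sin y - (y - y ^ 3 / 6 + y ^ 5 / 120 - y ^ 7 / 5040 + y ^ 9 / 362880 - y ^ 11 / 39916800))
    (f' := fun y : ℝ => Real.cos y - (1 - y ^ 2 / 2 + y ^ 4 / 24 - y ^ 6 / 720 + y ^ 8 / 40320 - y ^ 10 / 3628800)) (fun x => ?_) ?_ t10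
  · have h := ((Real.hasDerivAt_sin x).sub ((((((hasDerivAt_id x).sub (mon 2 6 x)).add (mon 4 120 x)).sub (mon 6 5040 x)).add (mon 8 362880 x)).sub (mon 10 39916800 x)))
    refine HasDerivAt.congr_deriv h ?_
    push_cast
    ring
  · simp

private theorem t12 : ∀ y : ℝ, 0 ≤ y → 0 ≤ (1 - y ^ 2 / 2 + y ^ 4 / 24 - y ^ 6 / 720 + y ^ 8 / 40320 - y ^ 10 / 3628800 + y ^ 12 / 479001600) - Real.cos y := by
  refine nnd (f := fun y : ℝ => (1 - y ^ 2 / 2 + y ^ 4 / 24 - y ^ 6 / 720 + y ^ 8 / 40320 - y ^ 10 / 3628800 + y ^ 12 / 479001600) - Real.cos y)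
    (f' := fun y : ℝ => Real.sin y - (y - y ^ 3 / 6 + y ^ 5 / 120 - y ^ 7 / 5040 + y ^ 9 / 362880 - y ^ 11 / 39916800)) (fun x => ?_) ?_ t11
  · have h := ((((((((hasDerivAt_const x (1 : ℝ)).sub (mon 1 2 x)).add (mon 3 24 x)).sub (mon 5 720 x)).add (mon 7 40320 x)).sub (mon 9 3628800 x)).add (mon 11 479001600 x)).sub (Real.hasDerivAt_cos x))
    refine HasDerivAt.congr_deriv h ?_
    push_cast
    ring
  · simp

private theorem ev {P : ℝ → ℝ} (hP : ∀ y, P (-y) = P y) (h : ∀ y, 0 ≤ y → 0 ≤ P y) (x : ℝ) :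
    0 ≤ P x := by
  rcases le_total 0 x with hx | hx
  · exact h x hx
  · rw [← hP x]
    exact h (-x) (by linarith)

theorem cos_ge_T10 (x : ℝ) :
    1 - x ^ 2 / 2 + x ^ 4 / 24 - x ^ 6 / 720 + x ^ 8 / 40320 - x ^ 10 / 3628800 ≤ Real.cos x := by
  have h := ev (P := fun y : ℝ => Real.cos y - (1 - y ^ 2 / 2 + y ^ 4 / 24 - y ^ 6 / 720 + y ^ 8 / 40320 - y ^ 10 / 3628800))
    (fun y => by simp only [Real.cos_neg]; ring) t10 x
  linarith

theorem cos_le_T12 (x : ℝ) :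
    Real.cos x ≤ 1 - x ^ 2 / 2 + x ^ 4 / 24 - x ^ 6 / 720 + x ^ 8 / 40320 - x ^ 10 / 3628800 +
      x ^ 12 / 479001600 := by
  have h := ev (P := fun y : ℝ => (1 - y ^ 2 / 2 + y ^ 4 / 24 - y ^ 6 / 720 + y ^ 8 / 40320 - y ^ 10 / 3628800 + y ^ 12 / 479001600) - Real.cos y)
    (fun y => by simp only [Real.cos_neg]; ring) t12 x
  linarith

theorem sin_ge_T11 (x : ℝ) (hx : 0 ≤ x) :
    x - x ^ 3 / 6 + x ^ 5 / 120 - x ^ 7 / 5040 + x ^ 9 / 362880 - x ^ 11 / 39916800 ≤ Real.sin x := by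
  have h := t11 x hx
  linarith

theorem sin_le_T9 (x : ℝ) (hx : 0 ≤ x) :
    Real.sin x ≤ x - x ^ 3 / 6 + x ^ 5 / 120 - x ^ 7 / 5040 + x ^ 9 / 362880 := by
  have h := t9 x hx
  linarith

theorem sin_ge_T3 (x : ℝ) (hx : 0 ≤ x) : x - x ^ 3 / 6 ≤ Real.sin x := by
  have h := t3 x hx
  linarith

theorem sin_le_T5 (x : ℝ) (hx : 0 ≤ x) : Real.sin x ≤ x - x ^ 3 / 6 + x ^ 5 / 120 := by
  have h := t5 x hx
  linarith

theorem arctan_ge_T7 (x : ℝ) (hx : 0 ≤ x) : x - x ^ 3 / 3 + x ^ 5 / 5 - x ^ 7 / 7 ≤ Real.arctan x := by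
  have h := nnd (f := fun y : ℝ => Real.arctan y - (y - y ^ 3 / 3 + y ^ 5 / 5 - y ^ 7 / 7))
    (f' := fun y : ℝ => 1 / (1 + y ^ 2) - (1 - y ^ 2 + y ^ 4 - y ^ 6)) (fun x => ?_) (by simp)
    (fun y _ => ?_) x hx
  · linarith
  · have h := (Real.hasDerivAt_arctan x).sub ((((hasDerivAt_id x).sub (mon 2 3 x)).add
      (mon 4 5 x)).sub (mon 6 7 x))
    refine HasDerivAt.congr_deriv h ?_
    push_cast
    ring
  · have h1 : 1 / (1 + y ^ 2) - (1 - y ^ 2 + y ^ 4 - y ^ 6) = y ^ 8 / (1 + y ^ 2) := by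
      have h2 : (1 + y ^ 2 : ℝ) ≠ 0 := by positivity
      field_simp
      ring
    rw [h1]
    positivity

theorem arctan_le_T5 (x : ℝ) (hx : 0 ≤ x) : Real.arctan x ≤ x - x ^ 3 / 3 + x ^ 5 / 5 := by
  have h := nnd (f := fun y : ℝ => (y - y ^ 3 / 3 + y ^ 5 / 5) - Real.arctan y)
    (f' := fun y : ℝ => (1 - y ^ 2 + y ^ 4) - 1 / (1 + y ^ 2)) (fun x => ?_) (by simp)
    (fun y _ => ?_) x hx
  · linarith
  · have h := (((hasDerivAt_id x).sub (mon 2 3 x)).add (mon 4 5 x)).sub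
      (Real.hasDerivAt_arctan x)
    refine HasDerivAt.congr_deriv h ?_
    push_cast
    ring
  · have h1 : (1 - y ^ 2 + y ^ 4) - 1 / (1 + y ^ 2) = y ^ 6 / (1 + y ^ 2) := by
      have h2 : (1 + y ^ 2 : ℝ) ≠ 0 := by positivity
      field_simp
      ring
    rw [h1]
    positivity

end Pool.Agent.Work.MP_88b7aa_gt.Iv
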