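import Pool.Agent.Work.MP_88b7aa_gt.Iv.Bas
import Pool.Agent.Work.MP_88b7aa_gt.Iv.Tay

/-!
# Soundness of the cosine.  Size: M.

Let `D = 2^30`.  For naturals `y, v`, `d ≥ 1` with `y v ≤ d D²`-type bounds (see below) and real `v' `:
 * `hd y v d ≤ D (1 - (y/D)(v/D)/d)` rounded down: `(hd y v d : ℝ) ≤ D - y v/(d D)` if the right side is `≥ 0` (always true in ℝ when the
   natural subtraction does not truncate; when it truncates `hd = 0` and the right side may be negative, so one needs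
   `y v + d D ≤ d D²`; as `y ≤ 9.87 D`, `v ≤ D`, `d ≥ 12` this holds),
 * `hu y v d ≥ D - y v/(d D)` always (truncation only increases).
 * `hd`, `hu ≤ D`.
Monotonicity in `v`: a lower bound `v` for `D w` gives an upper bound `hu y v d` for `D (1 - (y/D) w / d)` and vice versa.
`cosLo u` (`u ≤ 3371549327 < 3.14 D`): `y = u²/D + 1`, so `y/D ≥ (u/D)²`, `y / D ≤ 9.87 =: bound`.  With `w = y/D`:
`h90 = 1 - w/90`, `h56 = 1 - w h90/56`, `h30 = 1 - w h56/30`, `h12 = 1 - w h30/12`, all in `[0,1]`, and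
`1 - w h12/2 = 1 - w/2 + w²/24 - w³/720 + w⁴/40320 - w⁵/3628800 ≤ cos √w` (`cos_ge_T10`) `≤ cos (u/D)` (`u/D ≤ √w ≤ π`, cosine decreasing).
The code computes `hd y D 90 ≤ D h90`, `hu .. 56 ≥ D h56`, `hd .. 30 ≤ D h30`, `hu .. 12 ≥ D h12` and subtracts
`y * (..)/(2D) + 1 ≥` the real value, in `ℤ` (`Int.subNatNat a b = a - b`).
`cosHi u`: `y = u²/D ≤ D (u/D)²`; same chain one step longer (132), upper bound by `cos_le_T12` at `√w ≤ u/D`... here the inequality needed is
`cos (u/D) ≤ cos √w ≤ T12(√w)`.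
Interval cases: for `v ∈ [a, b] ⊂ [0, 3.14]` `cos` is decreasing, for an interval containing 0 use `|v| ≤ max`, `cos ≤ 1`;
negative intervals: `cos v = cos (-v)`; `Int.negSucc a = -(a+1)`.  In the remaining cases the result is `[-1,1]`.
-/

namespace Pool.Agent.Work.MP_88b7aa_gt.Iv

private lemma hd_le_D (y v d : ℕ) : hd y v d ≤ 1073741824 := Nat.sub_le _ _

private lemma hu_le_D (y v d : ℕ) : hu y v d ≤ 1073741824 := Nat.sub_le _ _

private lemma hd_step (y v d : ℕ) (t : ℝ) (hd12 : 12 ≤ d) (hy : (y : ℝ) ≤ 12 * 1073741824)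
    (hv : v ≤ 1073741824) (ht : 1073741824 * t ≤ (v : ℝ)) :
    ((hd y v d : ℕ) : ℝ) ≤ 1073741824 * (1 - (y : ℝ) / 1073741824 / (d : ℝ) * t) := by
  have hd0 : (0 : ℝ) < (d : ℝ) := by
    have : 0 < d := by omega
    exact_mod_cast this
  have hd12' : (12 : ℝ) ≤ (d : ℝ) := by exact_mod_cast hd12
  have hv' : (v : ℝ) ≤ 1073741824 := by exact_mod_cast hv
  have hy0 : (0 : ℝ) ≤ (y : ℝ) := Nat.cast_nonneg _
  have hv0 : (0 : ℝ) ≤ (v : ℝ) := Nat.cast_nonneg _
  set q := y * v / (d * 1073741824) with hq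
  have hlt : y * v < (d * 1073741824) * (q + 1) :=
    Nat.lt_mul_div_succ (y * v) (by omega)
  have hlt' : (y : ℝ) * v < (d * 1073741824) * ((q : ℝ) + 1) := by exact_mod_cast hlt
  have e1 : 1073741824 * (1 - (y : ℝ) / 1073741824 / (d : ℝ) * t) =
      1073741824 - (y : ℝ) * t / d := by
    field_simp
  have h1 : (y : ℝ) * t / d ≤ (y : ℝ) * v / (d * 1073741824) := by
    rw [div_le_div_iff₀ hd0 (by positivity)]
    have : (y : ℝ) * (1073741824 * t) ≤ y * v := mul_le_mul_of_nonneg_left ht hy0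
    nlinarith
  have h2 : (y : ℝ) * v / (d * 1073741824) < (q : ℝ) + 1 := by
    rw [div_lt_iff₀ (by positivity)]
    linarith
  rw [e1]
  unfold hd
  rw [← hq]
  rcases le_or_gt (q + 1) 1073741824 with h | h
  · rw [Nat.cast_sub h]
    push_cast
    linarith
  · have h0 : 1073741824 - (q + 1) = 0 := by omega
    rw [h0, Nat.cast_zero]
    have h3 : (y : ℝ) * v / (d * 1073741824) ≤ 1073741824 := by
      rw [div_le_iff₀ (by positivity)]
      have h4 : (y : ℝ) * v ≤ (12 * 1073741824) * 1073741824 :=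
        mul_le_mul hy hv' hv0 (by norm_num)
      have h5 : (12 * 1073741824 : ℝ) * 1073741824 ≤ 1073741824 * (d * 1073741824) := by
        rw [mul_comm (12 * 1073741824 : ℝ)]
        exact mul_le_mul_of_nonneg_left (mul_le_mul_of_nonneg_right hd12' (by norm_num))
          (by norm_num)
      linarith
    linarith

private lemma hu_step (y v d : ℕ) (t : ℝ) (hd0 : 0 < d) (ht : (v : ℝ) ≤ 1073741824 * t) :
    1073741824 * (1 - (y : ℝ) / 1073741824 / (d : ℝ) * t) ≤ ((hu y v d : ℕ) : ℝ) := by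
  have hd0' : (0 : ℝ) < (d : ℝ) := by exact_mod_cast hd0
  have hy0 : (0 : ℝ) ≤ (y : ℝ) := Nat.cast_nonneg _
  set q := y * v / (d * 1073741824) with hq
  have hle : (d * 1073741824) * q ≤ y * v := Nat.mul_div_le (y * v) _
  have hle' : (d * 1073741824) * (q : ℝ) ≤ (y : ℝ) * v := by exact_mod_cast hle
  have e1 : 1073741824 * (1 - (y : ℝ) / 1073741824 / (d : ℝ) * t) =
      1073741824 - (y : ℝ) * t / d := by
    field_simp
  have h1 : (y : ℝ) * v / (d * 1073741824) ≤ (y : ℝ) * t / d := by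
    rw [div_le_div_iff₀ (by positivity) hd0']
    have : (y : ℝ) * v ≤ y * (1073741824 * t) := mul_le_mul_of_nonneg_left ht hy0
    nlinarith
  have h2 : (q : ℝ) ≤ (y : ℝ) * v / (d * 1073741824) := by
    rw [le_div_iff₀ (by positivity)]
    linarith
  rw [e1]
  unfold hu
  rw [← hq]
  have h3 : ((1073741824 : ℕ) : ℝ) ≤ ((1073741824 - q : ℕ) : ℝ) + (q : ℝ) := by
    have : 1073741824 ≤ (1073741824 - q) + q := by omega
    exact_mod_cast this
  push_cast at h3
  linarith

private lemma sq_bound (u : ℕ) (hu : u ≤ 3371549327) :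
    (u : ℝ) * u ≤ 985961 / 100000 * (1073741824 * 1073741824) := by
  have h : (u : ℝ) ≤ 3371549327 := by exact_mod_cast hu
  have h0 : (0 : ℝ) ≤ (u : ℝ) := Nat.cast_nonneg _
  calc (u : ℝ) * u ≤ 3371549327 * 3371549327 := mul_le_mul h h h0 (by norm_num)
    _ ≤ 985961 / 100000 * (1073741824 * 1073741824) := by norm_num

private lemma pi_sq : (9.8690 : ℝ) ≤ Real.pi ^ 2 := by
  have h := Real.pi_gt_d4
  nlinarith

private lemma cosLo_aux (u : Nat) (hu3 : u ≤ 3371549327) :
    ((cosLo u : Int) : ℝ) ≤ Real.cos ((u : ℝ) / 1073741824) * 1073741824 := by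
  have hsq := sq_bound u hu3
  have hu0 : (0 : ℝ) ≤ (u : ℝ) := Nat.cast_nonneg _
  set y := u * u / 1073741824 + 1 with hy
  have hylt : u * u < 1073741824 * y := by
    rw [hy]; exact Nat.lt_mul_div_succ (u * u) (by norm_num)
  have hyle : 1073741824 * (y - 1) ≤ u * u := by
    have : y - 1 = u * u / 1073741824 := by omega
    rw [this]; exact Nat.mul_div_le (u * u) _
  have hy1 : 1 ≤ y := by omega
  have hylt' : (u : ℝ) * u < 1073741824 * y := by exact_mod_cast hylt
  have hyle' : 1073741824 * ((y : ℝ) - 1) ≤ (u : ℝ) * u := by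
    have : ((1073741824 * (y - 1) : ℕ) : ℝ) ≤ ((u * u : ℕ) : ℝ) := by exact_mod_cast hyle
    rw [Nat.cast_mul, Nat.cast_sub hy1, Nat.cast_mul] at this
    push_cast at this
    exact this
  have hy0 : (0 : ℝ) ≤ (y : ℝ) := Nat.cast_nonneg _
  set w : ℝ := (y : ℝ) / 1073741824 with hw
  have hyw : (y : ℝ) = 1073741824 * w := by rw [hw]; field_simp
  have hw0 : 0 ≤ w := by positivity
  have hwle : w ≤ 9.8597 := by
    rw [hyw] at hyle'
    nlinarith
  have hyD : (y : ℝ) ≤ 12 * 1073741824 := by rw [hyw]; nlinarith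
  have s1 := hd_step y 1073741824 90 1 (by norm_num) hyD le_rfl (by norm_num)
  have s2 := hu_step y (hd y 1073741824 90) 56 _ (by norm_num) s1
  have s3 := hd_step y (hu y (hd y 1073741824 90) 56) 30 _ (by norm_num) hyD (hu_le_D _ _ _) s2
  have s4 := hu_step y (hd y (hu y (hd y 1073741824 90) 56) 30) 12 _ (by norm_num) s3
  rw [← hw] at s4
  set v := hu y (hd y (hu y (hd y 1073741824 90) 56) 30) 12 with hv
  have hval : ((cosLo u : Int) : ℝ) =
      1073741824 - (((y * v / (2 * 1073741824) : ℕ) : ℝ) + 1) := by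
    have e : cosLo u = Int.subNatNat 1073741824 (y * v / (2 * 1073741824) + 1) := rfl
    rw [e, Int.subNatNat_eq_coe]
    generalize y * v / (2 * 1073741824) = q
    push_cast
    ring
  rw [hval]
  have hq : y * v < (2 * 1073741824) * (y * v / (2 * 1073741824) + 1) :=
    Nat.lt_mul_div_succ (y * v) (by norm_num)
  have hq' : (y : ℝ) * v < (2 * 1073741824) * (((y * v / (2 * 1073741824) : ℕ) : ℝ) + 1) := by
    exact_mod_cast hq
  have hmul := mul_le_mul_of_nonneg_left s4 hy0
  have hT := cos_ge_T10 (Real.sqrt w)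
  have e2 : Real.sqrt w ^ 2 = w := Real.sq_sqrt hw0
  have e4 : Real.sqrt w ^ 4 = w ^ 2 := by rw [show 4 = 2 * 2 from rfl, pow_mul, e2]
  have e6 : Real.sqrt w ^ 6 = w ^ 3 := by rw [show 6 = 2 * 3 from rfl, pow_mul, e2]
  have e8 : Real.sqrt w ^ 8 = w ^ 4 := by rw [show 8 = 2 * 4 from rfl, pow_mul, e2]
  have e10 : Real.sqrt w ^ 10 = w ^ 5 := by rw [show 10 = 2 * 5 from rfl, pow_mul, e2]
  rw [e2, e4, e6, e8, e10] at hT
  have h00 : 0 ≤ (u : ℝ) / 1073741824 := div_nonneg hu0 (by norm_num)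
  have hcos : Real.cos (Real.sqrt w) ≤ Real.cos ((u : ℝ) / 1073741824) := by
    apply Real.cos_le_cos_of_nonneg_of_le_pi h00
    · rw [show Real.pi = Real.sqrt (Real.pi ^ 2) from (Real.sqrt_sq Real.pi_pos.le).symm]
      exact Real.sqrt_le_sqrt (by have := pi_sq; linarith)
    · apply Real.le_sqrt_of_sq_le
      rw [div_pow, div_le_iff₀ (by norm_num)]
      rw [hyw] at hylt'
      nlinarith
  have key : (1 - w / 2 + w ^ 2 / 24 - w ^ 3 / 720 + w ^ 4 / 40320 - w ^ 5 / 3628800) * 1073741824 ≤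
      Real.cos ((u : ℝ) / 1073741824) * 1073741824 :=
    mul_le_mul_of_nonneg_right (hT.trans hcos) (by norm_num)
  refine le_trans ?_ key
  rw [hyw] at hmul hq'
  push_cast at hmul
  nlinarith

theorem cosLo_le (u : Nat) (hu : u ≤ 3371549327) :
    ((cosLo u : Int) : ℝ) ≤ Real.cos ((u : ℝ) / 1073741824) * 1073741824 := by
  exact cosLo_aux u hu

private lemma le_cosHi_aux (u : Nat) (hu3 : u ≤ 3371549327) :
    Real.cos ((u : ℝ) / 1073741824) * 1073741824 ≤ ((cosHi u : Int) : ℝ) := by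
  have hsq := sq_bound u hu3
  have hu0 : (0 : ℝ) ≤ (u : ℝ) := Nat.cast_nonneg _
  set y := u * u / 1073741824 with hy
  have hyle : 1073741824 * y ≤ u * u := by
    rw [hy]; exact Nat.mul_div_le (u * u) _
  have hyle' : 1073741824 * (y : ℝ) ≤ (u : ℝ) * u := by exact_mod_cast hyle
  have hy0 : (0 : ℝ) ≤ (y : ℝ) := Nat.cast_nonneg _
  set w : ℝ := (y : ℝ) / 1073741824 with hw
  have hyw : (y : ℝ) = 1073741824 * w := by rw [hw]; field_simp
  have hw0 : 0 ≤ w := by positivity
  have hwle : w ≤ 9.8597 := by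
    rw [hyw] at hyle'
    nlinarith
  have hyD : (y : ℝ) ≤ 12 * 1073741824 := by rw [hyw]; nlinarith
  have s0 := hd_step y 1073741824 132 1 (by norm_num) hyD le_rfl (by norm_num)
  have s1 := hu_step y (hd y 1073741824 132) 90 _ (by norm_num) s0
  have s2 := hd_step y (hu y (hd y 1073741824 132) 90) 56 _ (by norm_num) hyD (hu_le_D _ _ _) s1
  have s3 := hu_step y (hd y (hu y (hd y 1073741824 132) 90) 56) 30 _ (by norm_num) s2
  have s4 := hd_step y (hu y (hd y (hu y (hd y 1073741824 132) 90) 56) 30) 12 _ (by norm_num) hyD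
    (hu_le_D _ _ _) s3
  rw [← hw] at s4
  set v := hd y (hu y (hd y (hu y (hd y 1073741824 132) 90) 56) 30) 12 with hv
  have hval : ((cosHi u : Int) : ℝ) =
      1073741824 - ((y * v / (2 * 1073741824) : ℕ) : ℝ) := by
    have e : cosHi u = Int.subNatNat 1073741824 (y * v / (2 * 1073741824)) := rfl
    rw [e, Int.subNatNat_eq_coe]
    generalize y * v / (2 * 1073741824) = q
    push_cast
    ring
  rw [hval]
  have hq : (2 * 1073741824) * (y * v / (2 * 1073741824)) ≤ y * v := Nat.mul_div_le (y * v) _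
  have hq' : (2 * 1073741824) * (((y * v / (2 * 1073741824) : ℕ) : ℝ)) ≤ (y : ℝ) * v := by
    exact_mod_cast hq
  have hmul := mul_le_mul_of_nonneg_left s4 hy0
  have hT := cos_le_T12 (Real.sqrt w)
  have e2 : Real.sqrt w ^ 2 = w := Real.sq_sqrt hw0
  have e4 : Real.sqrt w ^ 4 = w ^ 2 := by rw [show 4 = 2 * 2 from rfl, pow_mul, e2]
  have e6 : Real.sqrt w ^ 6 = w ^ 3 := by rw [show 6 = 2 * 3 from rfl, pow_mul, e2]
  have e8 : Real.sqrt w ^ 8 = w ^ 4 := by rw [show 8 = 2 * 4 from rfl, pow_mul, e2]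
  have e10 : Real.sqrt w ^ 10 = w ^ 5 := by rw [show 10 = 2 * 5 from rfl, pow_mul, e2]
  have e12 : Real.sqrt w ^ 12 = w ^ 6 := by rw [show 12 = 2 * 6 from rfl, pow_mul, e2]
  rw [e2, e4, e6, e8, e10, e12] at hT
  have h00 : 0 ≤ (u : ℝ) / 1073741824 := div_nonneg hu0 (by norm_num)
  have hcos : Real.cos ((u : ℝ) / 1073741824) ≤ Real.cos (Real.sqrt w) := by
    apply Real.cos_le_cos_of_nonneg_of_le_pi (Real.sqrt_nonneg _)
    · have h : (u : ℝ) ≤ 3371549327 := by exact_mod_cast hu3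
      have := Real.pi_gt_d4
      rw [div_le_iff₀ (by norm_num)]
      nlinarith
    · rw [show (u : ℝ) / 1073741824 = Real.sqrt (((u : ℝ) / 1073741824) ^ 2) from
        (Real.sqrt_sq h00).symm]
      apply Real.sqrt_le_sqrt
      rw [div_pow, le_div_iff₀ (by norm_num)]
      rw [hyw] at hyle'
      nlinarith
  have key : Real.cos ((u : ℝ) / 1073741824) * 1073741824 ≤
      (1 - w / 2 + w ^ 2 / 24 - w ^ 3 / 720 + w ^ 4 / 40320 - w ^ 5 / 3628800 +
        w ^ 6 / 479001600) * 1073741824 :=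
    mul_le_mul_of_nonneg_right (hcos.trans hT) (by norm_num)
  refine le_trans key ?_
  rw [hyw] at hmul hq'
  push_cast at hmul
  nlinarith

theorem le_cosHi (u : Nat) (hu : u ≤ 3371549327) :
    Real.cos ((u : ℝ) / 1073741824) * 1073741824 ≤ ((cosHi u : Int) : ℝ) := by
  exact le_cosHi_aux u hu

private lemma mem_mk {v : ℝ} {l h : Int} (h1 : (l : ℝ) ≤ v * 1073741824)
    (h2 : v * 1073741824 ≤ (h : ℝ)) : Mem v ⟨l, h⟩ := ⟨h1, h2⟩

private lemma mem_unit (u : ℝ) : Mem (Real.cos u) unit := by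
  have h1 := Real.cos_le_one u
  have h2 := Real.neg_one_le_cos u
  have e1 : ((Int.negSucc 1073741823 : Int) : ℝ) = -1073741824 := by
    rw [Int.cast_negSucc]; norm_num
  have e2 : ((Int.ofNat 1073741824 : Int) : ℝ) = 1073741824 := by norm_num
  unfold Mem unit
  simp only
  rw [e1, e2]
  constructor <;> linarith

private lemma lo_of (b : ℕ) (hb : b ≤ 3371549327) {u : ℝ} (hu : |u| * 1073741824 ≤ (b : ℝ)) :
    ((cosLo b : Int) : ℝ) ≤ Real.cos u * 1073741824 := by
  refine (cosLo_le b hb).trans (mul_le_mul_of_nonneg_right ?_ (by norm_num))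
  rw [← Real.cos_abs u]
  apply Real.cos_le_cos_of_nonneg_of_le_pi (abs_nonneg _)
  · have h : (b : ℝ) ≤ 3371549327 := by exact_mod_cast hb
    have := Real.pi_gt_d4
    rw [div_le_iff₀ (by norm_num)]
    nlinarith
  · rw [le_div_iff₀ (by norm_num)]
    exact hu

private lemma hi_of (a b : ℕ) (hb : b ≤ 3371549327) {u : ℝ} (ha : (a : ℝ) ≤ u * 1073741824)
    (hu : u * 1073741824 ≤ (b : ℝ)) :
    Real.cos u * 1073741824 ≤ ((cosHi a : Int) : ℝ) := by
  have hab : a ≤ b := by exact_mod_cast ha.trans hu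
  refine le_trans (mul_le_mul_of_nonneg_right ?_ (by norm_num)) (le_cosHi a (hab.trans hb))
  have ha0 : (0 : ℝ) ≤ (a : ℝ) := Nat.cast_nonneg _
  apply Real.cos_le_cos_of_nonneg_of_le_pi (by positivity)
  · have h : (b : ℝ) ≤ 3371549327 := by exact_mod_cast hb
    have := Real.pi_gt_d4
    nlinarith
  · rw [div_le_iff₀ (by norm_num)]
    exact ha

theorem mem_cos {u : ℝ} {X : Iv} (hu : Mem u X) : Mem (Real.cos u) (cos X) := by
  obtain ⟨lo, hi⟩ := X
  obtain ⟨h1, h2⟩ := hu
  simp only at h1 h2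
  rcases lo with a | a <;> rcases hi with b | b
  · have h1' : (a : ℝ) ≤ u * 1073741824 := by simpa using h1
    have h2' : u * 1073741824 ≤ (b : ℝ) := by simpa using h2
    have hu0 : 0 ≤ u := by
      have ha0 : (0 : ℝ) ≤ (a : ℝ) := Nat.cast_nonneg _
      nlinarith
    unfold cos
    simp only
    cases hb : Nat.ble b 3371549327 with
    | true =>
      have hb' : b ≤ 3371549327 := Nat.le_of_ble_eq_true hb
      dsimp only
      exact mem_mk (lo_of b hb' (by rwa [abs_of_nonneg hu0])) (hi_of a b hb' h1' h2')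
    | false => exact mem_unit u
  · unfold cos
    exact mem_unit u
  · have h1' : -((a : ℝ) + 1) ≤ u * 1073741824 := by
      rw [Int.cast_negSucc] at h1; push_cast at h1; linarith
    have h2' : u * 1073741824 ≤ (b : ℝ) := by simpa using h2
    unfold cos
    simp only
    cases hb : Nat.ble (Nat.max (a + 1) b) 3371549327 with
    | true =>
      have hb' : Nat.max (a + 1) b ≤ 3371549327 := Nat.le_of_ble_eq_true hb
      dsimp only
      refine mem_mk (lo_of _ hb' ?_) ?_
      · have e1 : ((a : ℝ) + 1) ≤ ((Nat.max (a + 1) b : ℕ) : ℝ) := by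
          have : a + 1 ≤ Nat.max (a + 1) b := Nat.le_max_left _ _
          exact_mod_cast this
        have e2 : (b : ℝ) ≤ ((Nat.max (a + 1) b : ℕ) : ℝ) := by
          have : b ≤ Nat.max (a + 1) b := Nat.le_max_right _ _
          exact_mod_cast this
        rcases abs_cases u with ⟨h, _⟩ | ⟨h, _⟩ <;> rw [h] <;> linarith
      · have := Real.cos_le_one u
        have e2 : ((Int.ofNat 1073741824 : Int) : ℝ) = 1073741824 := by norm_num
        rw [e2]
        linarith
    | false => exact mem_unit u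
  · have h1' : -((a : ℝ) + 1) ≤ u * 1073741824 := by
      rw [Int.cast_negSucc] at h1; push_cast at h1; linarith
    have h2' : u * 1073741824 ≤ -((b : ℝ) + 1) := by
      rw [Int.cast_negSucc] at h2; push_cast at h2; linarith
    have hu0 : u ≤ 0 := by
      have hb0 : (0 : ℝ) ≤ (b : ℝ) := Nat.cast_nonneg _
      nlinarith
    unfold cos
    simp only
    cases hb : Nat.ble (a + 1) 3371549327 with
    | true =>
      have hb' : a + 1 ≤ 3371549327 := Nat.le_of_ble_eq_true hb
      dsimp only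
      refine mem_mk (lo_of _ hb' ?_) ?_
      · rw [abs_of_nonpos hu0]; push_cast; linarith
      · rw [← Real.cos_neg u]
        refine hi_of (b + 1) (a + 1) hb' ?_ ?_
        · push_cast; linarith
        · push_cast; linarith
    | false => exact mem_unit u

end Pool.Agent.Work.MP_88b7aa_gt.Iv
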