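import Pool.Agent.Work.MP_88b7aa_gt.Iv.Bas

/-!
# Soundness of multiplication.  Size: S-M.

Scale: `U = u 2^30 ∈ [a, b]`, `V = v 2^30 ∈ [c, d]`; `(u v) 2^30 = U V / 2^30`, so it is enough that
`lo * 2^30 ≤ U V ≤ hi * 2^30`, `fl_le`, `le_cl` (for naturals `a * c / 2^30 * 2^30 ≤ a * c`).
Cases: `a, c ≥ 0`: `ac ≤ UV ≤ bd`.  `a ≥ 0 > c`: `UV ≥ U c ≥ b c`, `UV ≤ U d ≤ b d` if `d ≥ 0` and `≤ a d` if `d < 0`.
`a < 0 ≤ c`: symmetric.  `a, c < 0`: `UV` lies between the minimum and the maximum of the four products of end points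
(bilinear function on a rectangle).
-/

namespace Pool.Agent.Work.MP_88b7aa_gt.Iv

private lemma lo_of {u v : ℝ} {P : ℤ} (h : (P : ℝ) ≤ (u * 1073741824) * (v * 1073741824)) :
    ((fl P : ℤ) : ℝ) ≤ u * v * 1073741824 := by
  have := fl_le P
  linarith

private lemma hi_of {u v : ℝ} {P : ℤ} (h : (u * 1073741824) * (v * 1073741824) ≤ (P : ℝ)) :
    u * v * 1073741824 ≤ ((cl P : ℤ) : ℝ) := by
  have := le_cl P
  linarith

private lemma imul_cast (a b : ℤ) : ((Int.mul a b : ℤ) : ℝ) = (a : ℝ) * b := by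
  have : Int.mul a b = a * b := rfl
  rw [this]; push_cast; ring

private lemma nn (n : ℕ) : (0 : ℝ) ≤ ((Int.ofNat n : ℤ) : ℝ) := by
  have : (Int.ofNat n : ℤ) = (n : ℤ) := rfl
  rw [this]
  positivity

private lemma ng (n : ℕ) : ((Int.negSucc n : ℤ) : ℝ) ≤ 0 := by
  have : (Int.negSucc n : ℤ) ≤ 0 := by
    have : (Int.negSucc n : ℤ) = -((n : ℤ) + 1) := Int.negSucc_eq n
    omega
  exact_mod_cast this

private lemma imin_le (a b : ℤ) : ((imin a b : ℤ) : ℝ) ≤ a ∧ ((imin a b : ℤ) : ℝ) ≤ b := by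
  have : imin a b ≤ a ∧ imin a b ≤ b := by
    unfold imin
    rcases h : leb a b with _ | _
    · have h' : ¬ a ≤ b := by rw [← leb_iff, h]; simp
      simp only []
      omega
    · have h' : a ≤ b := by rw [← leb_iff, h]
      simp only []
      omega
  exact ⟨by exact_mod_cast this.1, by exact_mod_cast this.2⟩

private lemma le_imax (a b : ℤ) : (a : ℝ) ≤ ((imax a b : ℤ) : ℝ) ∧ (b : ℝ) ≤ ((imax a b : ℤ) : ℝ) := by
  have : a ≤ imax a b ∧ b ≤ imax a b := by
    unfold imax
    rcases h : leb a b with _ | _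
    · have h' : ¬ a ≤ b := by rw [← leb_iff, h]; simp
      simp only []
      omega
    · have h' : a ≤ b := by rw [← leb_iff, h]
      simp only []
      omega
  exact ⟨by exact_mod_cast this.1, by exact_mod_cast this.2⟩

private lemma four_lo {a b c d U V m : ℝ} (h1 : a ≤ U) (h2 : U ≤ b) (h3 : c ≤ V) (h4 : V ≤ d)
    (m1 : m ≤ a * c) (m2 : m ≤ a * d) (m3 : m ≤ b * c) (m4 : m ≤ b * d) : m ≤ U * V := by
  rcases le_total 0 V with hV | hV
  · have k := mul_le_mul_of_nonneg_right h1 hV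
    rcases le_total 0 a with ha | ha
    · have := mul_le_mul_of_nonneg_left h3 ha
      linarith
    · have := mul_le_mul_of_nonpos_left h4 ha
      linarith
  · have k := mul_le_mul_of_nonpos_right h2 hV
    rcases le_total 0 b with hb | hb
    · have := mul_le_mul_of_nonneg_left h3 hb
      linarith
    · have := mul_le_mul_of_nonpos_left h4 hb
      linarith

private lemma four_hi {a b c d U V m : ℝ} (h1 : a ≤ U) (h2 : U ≤ b) (h3 : c ≤ V) (h4 : V ≤ d)
    (m1 : a * c ≤ m) (m2 : a * d ≤ m) (m3 : b * c ≤ m) (m4 : b * d ≤ m) : U * V ≤ m := by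
  rcases le_total 0 V with hV | hV
  · have k := mul_le_mul_of_nonneg_right h2 hV
    rcases le_total 0 b with hb | hb
    · have := mul_le_mul_of_nonneg_left h4 hb
      linarith
    · have := mul_le_mul_of_nonpos_left h3 hb
      linarith
  · have k := mul_le_mul_of_nonpos_right h1 hV
    rcases le_total 0 a with ha | ha
    · have := mul_le_mul_of_nonneg_left h4 ha
      linarith
    · have := mul_le_mul_of_nonpos_left h3 ha
      linarith

private lemma sgn1 {a b c U V : ℝ} (h1 : a ≤ U) (h2 : U ≤ b) (h3 : c ≤ V) (ha : 0 ≤ a) (hc : c ≤ 0) :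
    b * c ≤ U * V := by
  have k1 := mul_le_mul_of_nonneg_left h3 (ha.trans h1)
  have k2 := mul_le_mul_of_nonpos_right h2 hc
  linarith

private lemma sgn2 {a b d U V : ℝ} (h1 : a ≤ U) (h2 : U ≤ b) (h4 : V ≤ d) (ha : 0 ≤ a) (hd : 0 ≤ d) :
    U * V ≤ b * d := by
  have k1 := mul_le_mul_of_nonneg_left h4 (ha.trans h1)
  have k2 := mul_le_mul_of_nonneg_right h2 hd
  linarith

private lemma sgn3 {a d U V : ℝ} (h1 : a ≤ U) (h4 : V ≤ d) (ha : 0 ≤ a) (hd : d ≤ 0) :
    U * V ≤ a * d := by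
  have k1 := mul_le_mul_of_nonneg_left h4 (ha.trans h1)
  have k2 := mul_le_mul_of_nonpos_right h1 hd
  linarith

theorem mem_mul {u v : ℝ} {X Y : Iv} (hu : Mem u X) (hv : Mem v Y) : Mem (u * v) (mul X Y) := by
  obtain ⟨a, b⟩ := X
  obtain ⟨c, d⟩ := Y
  obtain ⟨h1, h2⟩ := hu
  obtain ⟨h3, h4⟩ := hv
  simp only [] at h1 h2 h3 h4
  rcases a with a | a <;> rcases c with c | c
  · have ha := nn a
    have hc := nn c
    refine ⟨?_, ?_⟩
    · change ((fl (Int.mul (Int.ofNat a) (Int.ofNat c)) : ℤ) : ℝ) ≤ _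
      apply lo_of
      rw [imul_cast]
      have k1 := mul_le_mul_of_nonneg_left h3 ha
      have k2 := mul_le_mul_of_nonneg_right h1 (hc.trans h3)
      linarith
    · change _ ≤ ((cl (Int.mul b d) : ℤ) : ℝ)
      apply hi_of
      rw [imul_cast]
      exact sgn2 h1 h2 h4 ha ((hc.trans h3).trans h4)
  · have ha := nn a
    have hc := ng c
    rcases d with d | d
    · have hd := nn d
      refine ⟨?_, ?_⟩
      · change ((fl (Int.mul b (Int.negSucc c)) : ℤ) : ℝ) ≤ _
        apply lo_of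
        rw [imul_cast]
        exact sgn1 h1 h2 h3 ha hc
      · change _ ≤ ((cl (Int.mul b (Int.ofNat d)) : ℤ) : ℝ)
        apply hi_of
        rw [imul_cast]
        exact sgn2 h1 h2 h4 ha hd
    · have hd := ng d
      refine ⟨?_, ?_⟩
      · change ((fl (Int.mul b (Int.negSucc c)) : ℤ) : ℝ) ≤ _
        apply lo_of
        rw [imul_cast]
        exact sgn1 h1 h2 h3 ha hc
      · change _ ≤ ((cl (Int.mul (Int.ofNat a) (Int.negSucc d)) : ℤ) : ℝ)
        apply hi_of
        rw [imul_cast]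
        exact sgn3 h1 h4 ha hd
  · have ha := ng a
    have hc := nn c
    rcases b with b | b
    · have hb := nn b
      refine ⟨?_, ?_⟩
      · change ((fl (Int.mul d (Int.negSucc a)) : ℤ) : ℝ) ≤ _
        rw [mul_comm u v]
        apply lo_of
        rw [imul_cast]
        exact sgn1 h3 h4 h1 hc ha
      · change _ ≤ ((cl (Int.mul d (Int.ofNat b)) : ℤ) : ℝ)
        rw [mul_comm u v]
        apply hi_of
        rw [imul_cast]
        exact sgn2 h3 h4 h2 hc hb
    · have hb := ng b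
      refine ⟨?_, ?_⟩
      · change ((fl (Int.mul d (Int.negSucc a)) : ℤ) : ℝ) ≤ _
        rw [mul_comm u v]
        apply lo_of
        rw [imul_cast]
        exact sgn1 h3 h4 h1 hc ha
      · change _ ≤ ((cl (Int.mul (Int.ofNat c) (Int.negSucc b)) : ℤ) : ℝ)
        rw [mul_comm u v]
        apply hi_of
        rw [imul_cast]
        exact sgn3 h3 h2 hc hb
  · refine ⟨?_, ?_⟩
    · change ((fl (imin (imin (Int.mul (Int.negSucc a) (Int.negSucc c)) (Int.mul (Int.negSucc a) d))
        (imin (Int.mul b (Int.negSucc c)) (Int.mul b d))) : ℤ) : ℝ) ≤ _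
      apply lo_of
      have i1 := imin_le (Int.mul (Int.negSucc a) (Int.negSucc c)) (Int.mul (Int.negSucc a) d)
      have i2 := imin_le (Int.mul b (Int.negSucc c)) (Int.mul b d)
      have i3 := imin_le (imin (Int.mul (Int.negSucc a) (Int.negSucc c)) (Int.mul (Int.negSucc a) d))
        (imin (Int.mul b (Int.negSucc c)) (Int.mul b d))
      rw [imul_cast, imul_cast] at i1 i2
      exact four_lo h1 h2 h3 h4 (i3.1.trans i1.1) (i3.1.trans i1.2) (i3.2.trans i2.1) (i3.2.trans i2.2)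
    · change _ ≤ ((cl (imax (imax (Int.mul (Int.negSucc a) (Int.negSucc c)) (Int.mul (Int.negSucc a) d))
        (imax (Int.mul b (Int.negSucc c)) (Int.mul b d))) : ℤ) : ℝ)
      apply hi_of
      have i1 := le_imax (Int.mul (Int.negSucc a) (Int.negSucc c)) (Int.mul (Int.negSucc a) d)
      have i2 := le_imax (Int.mul b (Int.negSucc c)) (Int.mul b d)
      have i3 := le_imax (imax (Int.mul (Int.negSucc a) (Int.negSucc c)) (Int.mul (Int.negSucc a) d))
        (imax (Int.mul b (Int.negSucc c)) (Int.mul b d))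
      rw [imul_cast, imul_cast] at i1 i2
      exact four_hi h1 h2 h3 h4 (i1.1.trans i3.1) (i1.2.trans i3.1) (i2.1.trans i3.2) (i2.2.trans i3.2)

end Pool.Agent.Work.MP_88b7aa_gt.Iv
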