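import Pool.Agent.Work.MP_88b7aa_gt.Iv.Bas

/-!
# Soundness of the square and of the inverse.  Size: S.

`sqr`: `[a,b]`, `a ≥ 0`: `a² ≤ V² ≤ b²`; `a = -(a'+1) < 0 ≤ b`: `0 ≤ V² ≤ max ((a'+1)², b²)`; both negative:
`(b'+1)² ≤ V² ≤ (a'+1)²`; (`n / D ≤ n/D < n / D + 1` for naturals).
`inv`: `0 < a ≤ V ≤ b` and `v⁻¹ 2^30 = 2^60 / V`, `2^60 = 1152921504606846976`.
`pos_lo_hi`: if `posb X.lo` then both end points are `.ofNat` of positive numbers.
-/

namespace Pool.Agent.Work.MP_88b7aa_gt.Iv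

private theorem ndiv_le (n : ℕ) : ((n / 1073741824 : ℕ) : ℝ) * 1073741824 ≤ (n : ℝ) := by
  have h : n / 1073741824 * 1073741824 ≤ n := Nat.div_mul_le_self n 1073741824
  exact_mod_cast h

private theorem lt_ndiv (n : ℕ) : (n : ℝ) ≤ ((n / 1073741824 + 1 : ℕ) : ℝ) * 1073741824 := by
  have h : n ≤ (n / 1073741824 + 1) * 1073741824 := by
    have := Nat.div_add_mod n 1073741824
    have := Nat.mod_lt n (show 0 < 1073741824 by norm_num)
    omega
  exact_mod_cast h

private theorem cast_ofNat (n : ℕ) : ((Int.ofNat n : ℤ) : ℝ) = (n : ℝ) := by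
  simp

private theorem cast_negSucc (n : ℕ) : ((Int.negSucc n : ℤ) : ℝ) = -((n : ℝ) + 1) := by
  rw [Int.cast_negSucc]; push_cast; ring

theorem mem_sqr {u : ℝ} {X : Iv} (hu : Mem u X) : Mem (u ^ 2) (sqr X) := by
  obtain ⟨lo, hi⟩ := X
  obtain ⟨h1, h2⟩ := hu
  simp only at h1 h2
  set U := u * 1073741824 with hU
  have hsq : u ^ 2 * 1073741824 * 1073741824 = U ^ 2 := by rw [hU]; ring
  cases lo with
  | ofNat a =>
    rw [cast_ofNat] at h1
    have ha : (0 : ℝ) ≤ (a : ℝ) := Nat.cast_nonneg a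
    refine ⟨?_, ?_⟩
    · change ((Int.ofNat (a * a / 1073741824) : ℤ) : ℝ) ≤ _
      rw [cast_ofNat]
      have h3 := ndiv_le (a * a)
      push_cast at h3
      have h4 : (a : ℝ) * a ≤ U ^ 2 := by nlinarith
      nlinarith
    · change _ ≤ ((cl (Int.mul hi hi) : ℤ) : ℝ)
      have h3 := le_cl (Int.mul hi hi)
      have h5 : ((Int.mul hi hi : ℤ) : ℝ) = (hi : ℝ) * (hi : ℝ) := by
        change ((hi * hi : ℤ) : ℝ) = _
        push_cast; ring
      rw [h5] at h3
      have h4 : U ^ 2 ≤ (hi : ℝ) * hi := by nlinarith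
      nlinarith
  | negSucc a =>
    rw [cast_negSucc] at h1
    have ha : (0 : ℝ) ≤ (a : ℝ) := Nat.cast_nonneg a
    cases hi with
    | ofNat b =>
      rw [cast_ofNat] at h2
      have hb : (0 : ℝ) ≤ (b : ℝ) := Nat.cast_nonneg b
      refine ⟨?_, ?_⟩
      · change ((Int.ofNat 0 : ℤ) : ℝ) ≤ _
        rw [cast_ofNat]
        have : 0 ≤ u ^ 2 := sq_nonneg u
        push_cast
        positivity
      · change _ ≤ ((Int.ofNat (Nat.max ((a + 1) * (a + 1)) (b * b) / 1073741824 + 1) : ℤ) : ℝ)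
        rw [cast_ofNat]
        have h3 := lt_ndiv (Nat.max ((a + 1) * (a + 1)) (b * b))
        have h4 : U ^ 2 ≤ ((Nat.max ((a + 1) * (a + 1)) (b * b) : ℕ) : ℝ) := by
          have e1' : (((a + 1) * (a + 1) : ℕ) : ℝ) ≤ ((Nat.max ((a + 1) * (a + 1)) (b * b) : ℕ) : ℝ) :=
            Nat.cast_le.mpr (Nat.le_max_left _ _)
          have e2' : ((b * b : ℕ) : ℝ) ≤ ((Nat.max ((a + 1) * (a + 1)) (b * b) : ℕ) : ℝ) :=
            Nat.cast_le.mpr (Nat.le_max_right _ _)
          have e1 : ((a : ℝ) + 1) * (a + 1) ≤ ((Nat.max ((a + 1) * (a + 1)) (b * b) : ℕ) : ℝ) :=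
            le_trans (le_of_eq (by push_cast; ring)) e1'
          have e2 : (b : ℝ) * b ≤ ((Nat.max ((a + 1) * (a + 1)) (b * b) : ℕ) : ℝ) :=
            le_trans (le_of_eq (by push_cast; ring)) e2'
          rcases le_total 0 U with h | h
          · nlinarith
          · nlinarith
        nlinarith
    | negSucc b =>
      rw [cast_negSucc] at h2
      have hb : (0 : ℝ) ≤ (b : ℝ) := Nat.cast_nonneg b
      refine ⟨?_, ?_⟩
      · change ((Int.ofNat ((b + 1) * (b + 1) / 1073741824) : ℤ) : ℝ) ≤ _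
        rw [cast_ofNat]
        have h3 := ndiv_le ((b + 1) * (b + 1))
        push_cast at h3
        have h4 : ((b : ℝ) + 1) * (b + 1) ≤ U ^ 2 := by nlinarith
        nlinarith
      · change _ ≤ ((Int.ofNat ((a + 1) * (a + 1) / 1073741824 + 1) : ℤ) : ℝ)
        rw [cast_ofNat]
        have h3 := lt_ndiv ((a + 1) * (a + 1))
        push_cast at h3 ⊢
        have h4 : U ^ 2 ≤ ((a : ℝ) + 1) * (a + 1) := by nlinarith
        nlinarith

theorem mem_inv {u : ℝ} {X : Iv} (hu : Mem u X) (h : posb X.lo = true) : Mem u⁻¹ (inv X) := by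
  obtain ⟨lo, hi⟩ := X
  obtain ⟨h1, h2⟩ := hu
  simp only at h1 h2 h
  have hlo : 0 < lo := (posb_iff lo).mp h
  cases lo with
  | negSucc a => exact absurd hlo (by simp)
  | ofNat a =>
    have ha : 0 < a := by
      have : (0 : ℤ) < (a : ℤ) := hlo
      exact_mod_cast this
    rw [cast_ofNat] at h1
    have ha' : (0 : ℝ) < (a : ℝ) := by exact_mod_cast ha
    cases hi with
    | negSucc b =>
      exfalso
      rw [cast_negSucc] at h2
      have hb : (0 : ℝ) ≤ (b : ℝ) := Nat.cast_nonneg b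
      linarith
    | ofNat b =>
      rw [cast_ofNat] at h2
      have hb' : (0 : ℝ) < (b : ℝ) := by linarith
      have hb : 0 < b := by exact_mod_cast hb'
      have hu0 : 0 < u := by
        by_contra hc
        have : u * 1073741824 ≤ 0 := by nlinarith
        linarith
      refine ⟨?_, ?_⟩
      · change ((Int.ofNat (1152921504606846976 / b) : ℤ) : ℝ) ≤ _
        rw [cast_ofNat]
        have h3 : 1152921504606846976 / b * b ≤ 1152921504606846976 := Nat.div_mul_le_self _ b
        have h4 : ((1152921504606846976 / b : ℕ) : ℝ) * (b : ℝ) ≤ 1152921504606846976 := by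
          exact_mod_cast h3
        rw [inv_mul_eq_div, le_div_iff₀ hu0]
        have h6 : (0 : ℝ) ≤ ((1152921504606846976 / b : ℕ) : ℝ) := Nat.cast_nonneg _
        have h5 : ((1152921504606846976 / b : ℕ) : ℝ) * (u * 1073741824) ≤ 1152921504606846976 :=
          le_trans (mul_le_mul_of_nonneg_left h2 h6) h4
        linarith
      · change _ ≤ ((Int.ofNat (1152921504606846976 / a + 1) : ℤ) : ℝ)
        rw [cast_ofNat]
        have h3 : 1152921504606846976 ≤ (1152921504606846976 / a + 1) * a := by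
          have h7 := Nat.lt_mul_div_succ 1152921504606846976 ha
          have h8 : a * (1152921504606846976 / a + 1) = (1152921504606846976 / a + 1) * a := Nat.mul_comm _ _
          omega
        have h4 : (1152921504606846976 : ℝ) ≤ ((1152921504606846976 / a + 1 : ℕ) : ℝ) * (a : ℝ) := by
          exact_mod_cast h3
        rw [inv_mul_eq_div, div_le_iff₀ hu0]
        have h6 : (0 : ℝ) ≤ ((1152921504606846976 / a + 1 : ℕ) : ℝ) := Nat.cast_nonneg _
        have h5 : (1152921504606846976 : ℝ) ≤ ((1152921504606846976 / a + 1 : ℕ) : ℝ) * (u * 1073741824) :=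
          le_trans h4 (mul_le_mul_of_nonneg_left h1 h6)
        linarith

end Pool.Agent.Work.MP_88b7aa_gt.Iv
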