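import Pool.Agent.Work.MP_88b7aa_gt.Iv.Mv
import Pool.Agent.Work.MP_88b7aa_gt.Iv.MulI
import Pool.Agent.Work.MP_88b7aa_gt.Iv.SqrI
import Pool.Agent.Work.MP_88b7aa_gt.Iv.CosI

/-!
# Soundness of `excl`.  Size: S-M.

PROOF.  `excl m B = true` means one of: `leb B.q.lo B.p.hi = false`, so `p < q`, a contradiction with `q ≤ p`; the same for `r ≤ q`;
the test of `fA`: with `cf ∋ cos (m t) = 2 cos² ((m/2) t) - 1` the interval `1 - cr² - (4 cp² cq² + 4 cp cq cr cf)` is positive, so `fA < 1`;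
or the test of `fB`: `re ∋ reB`, `im2 ∋ im2B`, `nn = re² + im2`, `27 - (nn² - 8 re (re² - 3 im2) + 18 nn) > 0`, so `fB < 0`.
-/

namespace Pool.Agent.Work.MP_88b7aa_gt.Iv

open Pool.Agent.Work.MP_88b7aa_gt.CH

private theorem leb_of_mem {u v : ℝ} {X Y : Iv} (hu : Mem u X) (hv : Mem v Y) (h : u ≤ v) :
    leb X.lo Y.hi = true := by
  rw [leb_iff]
  obtain ⟨h1, -⟩ := hu
  obtain ⟨-, h4⟩ := hv
  have : (X.lo : ℝ) ≤ (Y.hi : ℝ) := by linarith
  exact_mod_cast this

private theorem mem_two (X : Iv) {u : ℝ} (hu : Mem u X) : Mem (2 * u) (smul 2 X) := by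
  have := mem_smul 2 hu
  simpa using this

theorem excl_sound (m : ℕ) (B : Box) (p q r t : ℝ) (hB : InBox p q r t B) (hqp : q ≤ p) (hrq : r ≤ q)
    (ok : excl m B = true) : Exc m p q r t := by
  have k1 : leb B.q.lo B.p.hi = true := leb_of_mem hB.q hB.p hqp
  have k2 : leb B.r.lo B.q.hi = true := leb_of_mem hB.r hB.q hrq
  have hcp : Mem (Real.cos (2 * p)) (cos (smul 2 B.p)) := mem_cos (mem_two _ hB.p)
  have hcq : Mem (Real.cos (2 * q)) (cos (smul 2 B.q)) := mem_cos (mem_two _ hB.q)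
  have hcr : Mem (Real.cos (2 * r)) (cos (smul 2 B.r)) := mem_cos (mem_two _ hB.r)
  have hcf : Mem (Real.cos (m * t)) (sub (smul 2 (sqr (cos (rat m 2 B.t)))) (cst 1)) := by
    have h1 := mem_rat m 2 (by norm_num) hB.t
    have h2 := mem_sub (mem_two _ (mem_sqr (mem_cos h1))) (mem_cst 1)
    have h3 : 2 * Real.cos ((m : ℝ) / ((2 : ℕ) : ℝ) * t) ^ 2 - ((1 : ℕ) : ℝ) = Real.cos (m * t) := by
      have h4 : (m : ℝ) * t = 2 * ((m : ℝ) / ((2 : ℕ) : ℝ) * t) := by push_cast; ring
      rw [h4, Real.cos_two_mul]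
      push_cast
      ring
    rwa [h3] at h2
  set cp := cos (smul 2 B.p) with ecp
  set cq := cos (smul 2 B.q) with ecq
  set cr := cos (smul 2 B.r) with ecr
  set cf := sub (smul 2 (sqr (cos (rat m 2 B.t)))) (cst 1) with ecf
  set x := Real.cos (2 * p) with ex
  set y := Real.cos (2 * q) with ey
  set z := Real.cos (2 * r) with ez
  set w := Real.cos (m * t) with ew
  have hQ : Mem (x * (y * z)) (mul cp (mul cq cr)) := mem_mul hcp (mem_mul hcq hcr)
  have hQf : Mem (x * (y * z) * w) (mul (mul cp (mul cq cr)) cf) := mem_mul hQ hcf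
  have ok' : posb (sub (sub (cst 1) (sqr cr)) (add (smul 4 (mul (sqr cp) (sqr cq)))
        (smul 4 (mul (mul cp (mul cq cr)) cf)))).lo = true ∨
      posb (sub (cst 27) (add (sub (sqr (add (sqr (sub (sub (cst 3) (smul 4 (add (sqr cp) (add (sqr cq) (sqr cr)))))
        (smul 8 (mul (mul cp (mul cq cr)) cf)))) (smul 64 (mul (sqr (mul cp (mul cq cr))) (sub (cst 1) (sqr cf))))))
        (smul 8 (mul (sub (sub (cst 3) (smul 4 (add (sqr cp) (add (sqr cq) (sqr cr)))))
        (smul 8 (mul (mul cp (mul cq cr)) cf))) (sub (sqr (sub (sub (cst 3) (smul 4 (add (sqr cp) (add (sqr cq) (sqr cr)))))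
        (smul 8 (mul (mul cp (mul cq cr)) cf)))) (smul 3 (smul 64 (mul (sqr (mul cp (mul cq cr))) (sub (cst 1) (sqr cf)))))))))
        (smul 18 (add (sqr (sub (sub (cst 3) (smul 4 (add (sqr cp) (add (sqr cq) (sqr cr)))))
        (smul 8 (mul (mul cp (mul cq cr)) cf)))) (smul 64 (mul (sqr (mul cp (mul cq cr))) (sub (cst 1) (sqr cf)))))))).lo = true := by
    have h := ok
    unfold excl at h
    rw [k1, k2] at h
    simp only [Bool.not_true, Bool.false_or, Bool.or_eq_true] at h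
    exact h
  rcases ok' with h | h
  · left
    have hm := mem_sub (mem_sub (mem_cst 1) (mem_sqr hcr))
      (mem_add (mem_smul 4 (mem_mul (mem_sqr hcp) (mem_sqr hcq))) (mem_smul 4 hQf))
    have := pos_of_posb hm h
    push_cast at this
    unfold fA
    nlinarith [this]
  · right
    have hre : Mem (reB x y z w) (sub (sub (cst 3) (smul 4 (add (sqr cp) (add (sqr cq) (sqr cr)))))
        (smul 8 (mul (mul cp (mul cq cr)) cf))) := by
      have := mem_sub (mem_sub (mem_cst 3) (mem_smul 4 (mem_add (mem_sqr hcp) (mem_add (mem_sqr hcq) (mem_sqr hcr)))))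
        (mem_smul 8 hQf)
      push_cast at this
      exact this
    have him : Mem (im2B x y z w) (smul 64 (mul (sqr (mul cp (mul cq cr))) (sub (cst 1) (sqr cf)))) := by
      have := mem_smul 64 (mem_mul (mem_sqr hQ) (mem_sub (mem_cst 1) (mem_sqr hcf)))
      push_cast at this
      exact this
    have hn := mem_add (mem_sqr hre) him
    have hm := mem_sub (mem_cst 27) (mem_add (mem_sub (mem_sqr hn)
      (mem_smul 8 (mem_mul hre (mem_sub (mem_sqr hre) (mem_smul 3 him))))) (mem_smul 18 hn))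
    have := pos_of_posb hm h
    push_cast at this
    unfold fB
    linarith

end Pool.Agent.Work.MP_88b7aa_gt.Iv
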