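import Pool.Agent.Work.MP_88b7aa_gt.Iv.GodI
import Pool.Agent.Work.MP_88b7aa_gt.Iv.ExcI

/-!
# Soundness of `run` and of the root boxes.  Size: S-M.

PROOF of `run_sound`: induction on the tree.  Leaves: `excl_sound`, `good_sound`.  A node: `mid x = (x.lo + x.hi)/2` (floor); if
`Mem v x` then `Mem v ⟨x.lo, mid x⟩` or `Mem v ⟨mid x, x.hi⟩` (whatever the integer `mid x` is: `v 2^30 ≤ mid` or `≥ mid`).
PROOF of `lab_mem`: `π/(2m) * 2^30` with `3.141592 < π < 3.141593` (`Real.pi_gt_d6`, `Real.pi_lt_d6`):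
`3141592 * 2^30 / (2 m 10^6) ≤ π 2^30/(2m)`; for `m ≥ 9` only `0 ≤ .. ≤ π 2^30/18`, with `lab 9`.
PROOF of `cov`: `InBox` for the root box, `t ≤ π/3 < 1.0472` (`m = 3`), `t ≤ π/4 < 0.7854` (`m = 4`); `α_p ≥ α_q ≥ α_r` as `a ≤ b ≤ c`.
-/

namespace Pool.Agent.Work.MP_88b7aa_gt.Iv

open Pool.Agent.Work.MP_88b7aa_gt.CH

private theorem mem_split {v : ℝ} {X : Iv} (h : Mem v X) :
    Mem v ⟨X.lo, mid X⟩ ∨ Mem v ⟨mid X, X.hi⟩ := by
  rcases le_total (v * 1073741824) ((mid X : ℤ) : ℝ) with h1 | h1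
  · exact Or.inl ⟨h.1, h1⟩
  · exact Or.inr ⟨h1, h.2⟩

theorem run_sound (m : ℕ) (T : Tr) (B : Box) (p q r t : ℝ) (hB : InBox p q r t B)
    (hp : 0 < p ∧ p ≤ Real.pi / 6) (hq : 0 < q ∧ q ≤ Real.pi / 6) (hr : 0 < r ∧ r ≤ Real.pi / 6)
    (hqp : q ≤ p) (hrq : r ≤ q) (ht : 0 ≤ t) (ht' : t < Real.pi / 2) (ok : run m T B = true) :
    TriGood ![q, p, r] t ∨ Exc m p q r t := by
  induction T generalizing B with
  | ex => exact Or.inr (excl_sound m B p q r t hB hqp hrq ok)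
  | ok n1 n2 n3 c1 c2 c3 l1 l2 l3 =>
    exact Or.inl (good_sound n1 n2 n3 c1 c2 c3 l1 l2 l3 B p q r t hB hp hq hr ht ht' ok)
  | sp x y ihx ihy =>
    have ok' : (run m x ⟨⟨B.p.lo, mid B.p⟩, B.q, B.r, B.t⟩ &&
      run m y ⟨⟨mid B.p, B.p.hi⟩, B.q, B.r, B.t⟩) = true := ok
    rw [Bool.and_eq_true] at ok'
    rcases mem_split hB.p with h | h
    · exact ihx ⟨⟨B.p.lo, mid B.p⟩, B.q, B.r, B.t⟩ ⟨h, hB.q, hB.r, hB.t⟩ ok'.1
    · exact ihy ⟨⟨mid B.p, B.p.hi⟩, B.q, B.r, B.t⟩ ⟨h, hB.q, hB.r, hB.t⟩ ok'.2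
  | sq x y ihx ihy =>
    have ok' : (run m x ⟨B.p, ⟨B.q.lo, mid B.q⟩, B.r, B.t⟩ &&
      run m y ⟨B.p, ⟨mid B.q, B.q.hi⟩, B.r, B.t⟩) = true := ok
    rw [Bool.and_eq_true] at ok'
    rcases mem_split hB.q with h | h
    · exact ihx ⟨B.p, ⟨B.q.lo, mid B.q⟩, B.r, B.t⟩ ⟨hB.p, h, hB.r, hB.t⟩ ok'.1
    · exact ihy ⟨B.p, ⟨mid B.q, B.q.hi⟩, B.r, B.t⟩ ⟨hB.p, h, hB.r, hB.t⟩ ok'.2
  | sr x y ihx ihy =>
    have ok' : (run m x ⟨B.p, B.q, ⟨B.r.lo, mid B.r⟩, B.t⟩ &&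
      run m y ⟨B.p, B.q, ⟨mid B.r, B.r.hi⟩, B.t⟩) = true := ok
    rw [Bool.and_eq_true] at ok'
    rcases mem_split hB.r with h | h
    · exact ihx ⟨B.p, B.q, ⟨B.r.lo, mid B.r⟩, B.t⟩ ⟨hB.p, hB.q, h, hB.t⟩ ok'.1
    · exact ihy ⟨B.p, B.q, ⟨mid B.r, B.r.hi⟩, B.t⟩ ⟨hB.p, hB.q, h, hB.t⟩ ok'.2
  | st x y ihx ihy =>
    have ok' : (run m x ⟨B.p, B.q, B.r, ⟨B.t.lo, mid B.t⟩⟩ &&
      run m y ⟨B.p, B.q, B.r, ⟨mid B.t, B.t.hi⟩⟩) = true := ok
    rw [Bool.and_eq_true] at ok'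
    rcases mem_split hB.t with h | h
    · exact ihx ⟨B.p, B.q, B.r, ⟨B.t.lo, mid B.t⟩⟩ ⟨hB.p, hB.q, hB.r, h⟩ ok'.1
    · exact ihy ⟨B.p, B.q, B.r, ⟨mid B.t, B.t.hi⟩⟩ ⟨hB.p, hB.q, hB.r, h⟩ ok'.2

private theorem nat_div_le (a b : ℕ) : ((a / b : ℕ) : ℝ) * b ≤ a := by
  exact_mod_cast Nat.div_mul_le_self a b

private theorem nat_le_div (a b : ℕ) (hb : 0 < b) : (a : ℝ) ≤ (((a / b : ℕ) : ℝ) + 1) * b := by
  have h1 : a < (a / b + 1) * b := by
    rw [Nat.add_mul, one_mul]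
    exact Nat.lt_div_mul_add hb
  have h2 : ((a : ℕ) : ℝ) ≤ (((a / b + 1) * b : ℕ) : ℝ) := by exact_mod_cast h1.le
  push_cast at h2
  exact h2

theorem lab_mem (m : ℕ) (hm : 3 ≤ m) : Mem (Real.pi / (2 * m)) (lab (min m 9)) := by
  have p1 := Real.pi_gt_d6
  have p2 := Real.pi_lt_d6
  have hm0 : (0 : ℝ) < m := by
    have : 0 < m := by omega
    exact_mod_cast this
  rcases lt_or_ge m 9 with h9 | h9
  · have hmin : min m 9 = m := min_eq_left h9.le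
    have hb : 0 < 2 * m * 1000000 := by omega
    have hl : lab m = ⟨.ofNat (3373258724343808 / (2 * m * 1000000)),
        .ofNat (3373259798085632 / (2 * m * 1000000) + 1)⟩ := by
      unfold lab
      have : Nat.blt m 9 = true := by
        rw [Nat.blt_eq]
        exact h9
      rw [this]
    rw [hmin, hl]
    have h1 := nat_div_le 3373258724343808 (2 * m * 1000000)
    have h2 := nat_le_div 3373259798085632 (2 * m * 1000000) hb
    have hbR : (0 : ℝ) < ((2 * m * 1000000 : ℕ) : ℝ) := by exact_mod_cast hb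
    have e1 : Real.pi / (2 * m) * 1073741824 * ((2 * m * 1000000 : ℕ) : ℝ) =
        Real.pi * 1073741824 * 1000000 := by
      push_cast
      field_simp
    constructor
    · show (((3373258724343808 / (2 * m * 1000000) : ℕ) : ℤ) : ℝ) ≤ _
      rw [Int.cast_natCast]
      refine le_of_mul_le_mul_right ?_ hbR
      rw [e1]
      refine h1.trans ?_
      push_cast
      nlinarith
    · show _ ≤ (((3373259798085632 / (2 * m * 1000000) + 1 : ℕ) : ℤ) : ℝ)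
      rw [Int.cast_natCast]
      refine le_of_mul_le_mul_right ?_ hbR
      rw [e1]
      push_cast at h2 ⊢
      refine le_trans ?_ h2
      nlinarith
  · have hmin : min m 9 = 9 := min_eq_right h9
    have hl : lab 9 = ⟨.ofNat 0, .ofNat (3373259798085632 / (2 * 9 * 1000000) + 1)⟩ := rfl
    rw [hmin, hl]
    have hm9 : (9 : ℝ) ≤ m := by exact_mod_cast h9
    have e1 : Real.pi / (2 * m) ≤ Real.pi / 18 := by
      apply div_le_div_of_nonneg_left (by linarith) (by norm_num)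
      linarith
    constructor
    · show (((0 : ℕ) : ℤ) : ℝ) ≤ _
      rw [Int.cast_natCast, Nat.cast_zero]
      have : 0 ≤ Real.pi / (2 * m) := by positivity
      positivity
    · show _ ≤ (((3373259798085632 / (2 * 9 * 1000000) + 1 : ℕ) : ℤ) : ℝ)
      rw [Int.cast_natCast]
      norm_num
      nlinarith

/-- `a ≤ b ≤ c` are the labels `p, q, r`. -/
theorem cov (m : ℕ) (hm : m = 3 ∨ m = 4) (T : Tr) (a b c : ℕ) (ha : 3 ≤ a) (hab : a ≤ b) (hbc : b ≤ c)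
    (ok : run m T (bx m (min a 9) (min b 9) (min c 9)) = true) (t : ℝ) (ht : 0 ≤ t) (ht' : m * t ≤ Real.pi) :
    TriGood (ang a b c) t ∨
      Exc m (Real.pi / (2 * a)) (Real.pi / (2 * b)) (Real.pi / (2 * c)) t := by
  have p1 := Real.pi_gt_d6
  have p2 := Real.pi_lt_d6
  have hb : 3 ≤ b := ha.trans hab
  have hc : 3 ≤ c := hb.trans hbc
  have haR : (3 : ℝ) ≤ a := by exact_mod_cast ha
  have hbR : (3 : ℝ) ≤ b := by exact_mod_cast hb
  have hcR : (3 : ℝ) ≤ c := by exact_mod_cast hc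
  have habR : (a : ℝ) ≤ b := by exact_mod_cast hab
  have hbcR : (b : ℝ) ≤ c := by exact_mod_cast hbc
  have hpos : ∀ x : ℝ, 3 ≤ x → 0 < Real.pi / (2 * x) ∧ Real.pi / (2 * x) ≤ Real.pi / 6 := by
    intro x hx
    constructor
    · positivity
    · apply div_le_div_of_nonneg_left (by linarith) (by norm_num)
      linarith
  have hqp : Real.pi / (2 * b) ≤ Real.pi / (2 * a) := by
    apply div_le_div_of_nonneg_left (by linarith) (by linarith)
    linarith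
  have hrq : Real.pi / (2 * c) ≤ Real.pi / (2 * b) := by
    apply div_le_div_of_nonneg_left (by linarith) (by linarith)
    linarith
  have hmem : Mem t (bx m (min a 9) (min b 9) (min c 9)).t ∧ t < Real.pi / 2 := by
    rcases hm with rfl | rfl
    · push_cast at ht'
      refine ⟨⟨?_, ?_⟩, by linarith⟩
      · show (((0 : ℕ) : ℤ) : ℝ) ≤ _
        rw [Int.cast_natCast, Nat.cast_zero]
        positivity
      · show _ ≤ (((1124422439 : ℕ) : ℤ) : ℝ)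
        rw [Int.cast_natCast]
        push_cast
        linarith
    · push_cast at ht'
      refine ⟨⟨?_, ?_⟩, by linarith⟩
      · show (((0 : ℕ) : ℤ) : ℝ) ≤ _
        rw [Int.cast_natCast, Nat.cast_zero]
        positivity
      · show _ ≤ (((843316829 : ℕ) : ℤ) : ℝ)
        rw [Int.cast_natCast]
        push_cast
        linarith
  exact run_sound m T _ _ _ _ t ⟨lab_mem a ha, lab_mem b hb, lab_mem c hc, hmem.1⟩
    (hpos a haR) (hpos b hbR) (hpos c hcR) hqp hrq ht hmem.2 ok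

end Pool.Agent.Work.MP_88b7aa_gt.Iv
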