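import Pool.Agent.Work.MP_88b7aa_gt.Iv.Bas
import Pool.Agent.Work.MP_88b7aa_gt.Iv.Tay

/-!
# Soundness of `arctan u / u` and `sin u / u`.  Size: S-M.

`rac u = arctan u / u` (1 at 0), `rsc u = sin u / u` (1 at 0).
`ac`: for `0 < x ≤ 1`, `w = x²`: `1 - w/3 + w²/5 - w³/7 ≤ rac x ≤ 1 - w/3 + w²/5` (`arctan_ge_T7`, `arctan_le_T5`), and `rac` is
decreasing on `[0, ∞)` (for `x > 0` the derivative is `(x/(1+x²) - arctan x)/x² ≤ 0`, as `x/(1+x²) - arctan x` vanishes at 0 and has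
derivative `-2x²/(1+x²)² ≤ 0`; and `rac ≤ 1`).  Lower bound on `[a, b]`: `rac u ≥ rac (b/D) ≥ rac √w' ≥ 1 - w'/3 + w'²/5 - w'³/7` with
`w' = y/D ≥ (b/D)²`.  Upper bound: `rac u ≤ rac (a/D) ≤ rac √w' ≤ 1 - w'/3 + w'²/5` with `w' = y/D ≤ (a/D)²`.
`acLo b`: `y = b²/D + 1`, `v = D - (5y/7 + 1) ≤ D (1 - 5w'/7)`, `w₁ = D - 3 (y v)/(5 D) ≥ D (1 - (3/5) w' (1 - 5w'/7))`, result
`D - (y w₁/(3D) + 1)`; `5 D = 5368709120`, `3 D = 3221225472`.
Otherwise: `0 ≤ rac u ≤ 1` for `u ≥ 0`.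
`sc`: for `0 < x ≤ 1`: `1 - w/6 ≤ rsc x ≤ 1 - w/6 (1 - w/20)` (`sin_ge_T3`, `sin_le_T5`), decreasing; otherwise `0 ≤ rsc u ≤ 1` for `0 ≤ u ≤ π`.
-/

namespace Pool.Agent.Work.MP_88b7aa_gt.Iv

noncomputable def rac (u : ℝ) : ℝ := if u = 0 then 1 else Real.arctan u / u

noncomputable def rsc (u : ℝ) : ℝ := if u = 0 then 1 else Real.sin u / u

private theorem rac_zero : rac 0 = 1 := if_pos rfl

private theorem rac_pos {u : ℝ} (h : u ≠ 0) : rac u = Real.arctan u / u := if_neg h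

private theorem rsc_zero : rsc 0 = 1 := if_pos rfl

private theorem rsc_pos {u : ℝ} (h : u ≠ 0) : rsc u = Real.sin u / u := if_neg h

private theorem arctan_le_self {x : ℝ} (hx : 0 ≤ x) : Real.arctan x ≤ x := by
  have h := arctan_le_T5 x hx
  rcases le_or_gt x 1 with h1 | h1
  · have h2 : x ^ 5 / 5 ≤ x ^ 3 / 3 := by
      have h3 : x ^ 5 ≤ x ^ 3 := pow_le_pow_of_le_one hx h1 (by norm_num)
      have h4 : 0 ≤ x ^ 3 := pow_nonneg hx 3
      linarith
    linarith
  · have h2 := Real.arctan_lt_pi_div_two x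
    have h3 : Real.arctan x ≤ x := by
      by_contra hc
      push Not at hc
      have h4 : Real.tan x < Real.tan (Real.arctan x) ∨ Real.pi / 2 ≤ x := by
        rcases lt_or_ge x (Real.pi / 2) with h5 | h5
        · left
          exact Real.tan_lt_tan_of_lt_of_lt_pi_div_two (by linarith [Real.pi_pos]) h2 hc
        · right
          exact h5
      rcases h4 with h4 | h4
      · rw [Real.tan_arctan] at h4
        have h5 : x < Real.pi / 2 := lt_trans hc h2
        have h6 := Real.lt_tan (by linarith) h5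
        linarith
      · linarith
    exact h3

private theorem sin_two_le {t : ℝ} (ht : 0 ≤ t) : t / (1 + t ^ 2) ≤ Real.arctan t := by
  have h0 : 0 ≤ Real.arctan t := Real.arctan_nonneg.2 ht
  have h1 := Real.sin_le (x := 2 * Real.arctan t) (by linarith)
  rw [Real.sin_two_mul, Real.sin_arctan, Real.cos_arctan] at h1
  have h2 : (0 : ℝ) ≤ 1 + t ^ 2 := by positivity
  have h3 : Real.sqrt (1 + t ^ 2) * Real.sqrt (1 + t ^ 2) = 1 + t ^ 2 := Real.mul_self_sqrt h2
  have h4 : 2 * (t / Real.sqrt (1 + t ^ 2)) * (1 / Real.sqrt (1 + t ^ 2)) =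
      2 * (t / (1 + t ^ 2)) := by
    rw [mul_assoc, div_mul_div_comm, h3, mul_one]
  rw [h4] at h1
  linarith

private theorem rac_anti {x y : ℝ} (hx : 0 ≤ x) (hxy : x ≤ y) : rac y ≤ rac x := by
  rcases hx.eq_or_lt with h0 | h0
  · rw [← h0, rac_zero]
    rcases (hx.trans hxy).eq_or_lt with h1 | h1
    · rw [← h1, rac_zero]
    · rw [rac_pos h1.ne', div_le_one h1]
      exact arctan_le_self h1.le
  · have hy : 0 < y := h0.trans_le hxy
    have hanti : AntitoneOn (fun t : ℝ => Real.arctan t / t) (Set.Ioi 0) := by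
      have hd : ∀ t ∈ Set.Ioi (0 : ℝ), HasDerivAt (fun t : ℝ => Real.arctan t / t)
          ((1 / (1 + t ^ 2) * t - Real.arctan t * 1) / t ^ 2) t := by
        intro t ht
        exact (Real.hasDerivAt_arctan t).div (hasDerivAt_id t) (ne_of_gt ht)
      refine antitoneOn_of_deriv_nonpos (convex_Ioi 0)
        (fun t ht => (hd t ht).continuousAt.continuousWithinAt) ?_ ?_
      · intro t ht
        rw [interior_Ioi] at ht
        exact (hd t ht).differentiableAt.differentiableWithinAt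
      · intro t ht
        rw [interior_Ioi] at ht
        rw [(hd t ht).deriv]
        have ht' : 0 < t := ht
        have h1 := sin_two_le ht'.le
        refine div_nonpos_of_nonpos_of_nonneg ?_ (sq_nonneg t)
        have h2 : 1 / (1 + t ^ 2) * t = t / (1 + t ^ 2) := by ring
        rw [h2, mul_one]
        linarith
    rw [rac_pos h0.ne', rac_pos hy.ne']
    exact hanti (Set.mem_Ioi.2 h0) (Set.mem_Ioi.2 hy) hxy

private theorem rac_le_one {u : ℝ} (h : 0 ≤ u) : rac u ≤ 1 := by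
  have h1 := rac_anti le_rfl h
  rwa [rac_zero] at h1

private theorem rac_nonneg {u : ℝ} (h : 0 ≤ u) : 0 ≤ rac u := by
  rcases h.eq_or_lt with h0 | h0
  · rw [← h0, rac_zero]
    exact zero_le_one
  · rw [rac_pos h0.ne']
    exact div_nonneg (Real.arctan_nonneg.2 h) h

private theorem rac_lower {x : ℝ} (h : 0 ≤ x) :
    1 - x ^ 2 / 3 + (x ^ 2) ^ 2 / 5 - (x ^ 2) ^ 3 / 7 ≤ rac x := by
  rcases h.eq_or_lt with h0 | h0
  · rw [← h0, rac_zero]
    norm_num
  · rw [rac_pos h0.ne', le_div_iff₀ h0]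
    have h1 := arctan_ge_T7 x h
    have e : (1 - x ^ 2 / 3 + (x ^ 2) ^ 2 / 5 - (x ^ 2) ^ 3 / 7) * x =
        x - x ^ 3 / 3 + x ^ 5 / 5 - x ^ 7 / 7 := by ring
    rw [e]
    exact h1

private theorem rac_upper {x : ℝ} (h : 0 ≤ x) :
    rac x ≤ 1 - x ^ 2 / 3 + (x ^ 2) ^ 2 / 5 := by
  rcases h.eq_or_lt with h0 | h0
  · rw [← h0, rac_zero]
    norm_num
  · rw [rac_pos h0.ne', div_le_iff₀ h0]
    have h1 := arctan_le_T5 x h
    have e : (1 - x ^ 2 / 3 + (x ^ 2) ^ 2 / 5) * x = x - x ^ 3 / 3 + x ^ 5 / 5 := by ring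
    rw [e]
    exact h1

private theorem rsc_anti {x y : ℝ} (hx : 0 ≤ x) (hxy : x ≤ y) (hy1 : y ≤ Real.pi) :
    rsc y ≤ rsc x := by
  rcases hx.eq_or_lt with h0 | h0
  · rw [← h0, rsc_zero]
    rcases (hx.trans hxy).eq_or_lt with h1 | h1
    · rw [← h1, rsc_zero]
    · rw [rsc_pos h1.ne', div_le_one h1]
      exact Real.sin_le h1.le
  · have hy : 0 < y := h0.trans_le hxy
    rw [rsc_pos h0.ne', rsc_pos hy.ne', div_le_div_iff₀ hy h0]
    have hc := strictConcaveOn_sin_Icc.concaveOn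
    have h1 : 0 ≤ 1 - x / y := by
      rw [sub_nonneg, div_le_one hy]
      exact hxy
    have h2 : 0 ≤ x / y := div_nonneg hx hy.le
    have h3 := hc.2 (Set.left_mem_Icc.2 Real.pi_pos.le) (Set.mem_Icc.2 ⟨hy.le, hy1⟩) h1 h2
      (by ring)
    simp only [smul_eq_mul, mul_zero, zero_add, Real.sin_zero] at h3
    rw [div_mul_cancel₀ x hy.ne'] at h3
    have h4 : x / y * Real.sin y * y = Real.sin y * x := by
      field_simp
    nlinarith [mul_le_mul_of_nonneg_right h3 hy.le]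

private theorem rsc_le_one {u : ℝ} (h : 0 ≤ u) : rsc u ≤ 1 := by
  rcases h.eq_or_lt with h0 | h0
  · rw [← h0, rsc_zero]
  · rw [rsc_pos h0.ne', div_le_one h0]
    exact Real.sin_le h

private theorem rsc_nonneg {u : ℝ} (h : 0 ≤ u) (h1 : u ≤ Real.pi) : 0 ≤ rsc u := by
  rcases h.eq_or_lt with h0 | h0
  · rw [← h0, rsc_zero]
    exact zero_le_one
  · rw [rsc_pos h0.ne']
    exact div_nonneg (Real.sin_nonneg_of_nonneg_of_le_pi h h1) h

private theorem rsc_lower {x : ℝ} (h : 0 ≤ x) : 1 - x ^ 2 / 6 ≤ rsc x := by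
  rcases h.eq_or_lt with h0 | h0
  · rw [← h0, rsc_zero]
    norm_num
  · rw [rsc_pos h0.ne', le_div_iff₀ h0]
    have h1 := sin_ge_T3 x h
    have e : (1 - x ^ 2 / 6) * x = x - x ^ 3 / 6 := by ring
    rw [e]
    exact h1

private theorem rsc_upper {x : ℝ} (h : 0 ≤ x) : rsc x ≤ 1 - x ^ 2 / 6 + (x ^ 2) ^ 2 / 120 := by
  rcases h.eq_or_lt with h0 | h0
  · rw [← h0, rsc_zero]
    norm_num
  · rw [rsc_pos h0.ne', div_le_iff₀ h0]
    have h1 := sin_le_T5 x h
    have e : (1 - x ^ 2 / 6 + (x ^ 2) ^ 2 / 120) * x = x - x ^ 3 / 6 + x ^ 5 / 120 := by ring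
    rw [e]
    exact h1

private theorem nsub_ge (a b : ℕ) : (a : ℝ) - b ≤ ((a - b : ℕ) : ℝ) := by
  have h : a ≤ (a - b) + b := by omega
  have h1 : (a : ℝ) ≤ ((a - b : ℕ) : ℝ) + b := by exact_mod_cast h
  linarith

private theorem nsub_le {a b : ℕ} {c : ℝ} (hc : 0 ≤ c) (h : (a : ℝ) - b ≤ c) :
    ((a - b : ℕ) : ℝ) ≤ c := by
  rcases le_total b a with h1 | h1
  · rw [Nat.cast_sub h1]
    exact h
  · rw [Nat.sub_eq_zero_of_le h1, Nat.cast_zero]
    exact hc

private theorem ndiv_le (a b : ℕ) : ((a / b : ℕ) : ℝ) ≤ (a : ℝ) / b := Nat.cast_div_le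

private theorem ndiv_gt (a : ℕ) {b : ℕ} (hb : 0 < b) : (a : ℝ) / b ≤ ((a / b : ℕ) : ℝ) + 1 := by
  have hb' : (0 : ℝ) < b := Nat.cast_pos.2 hb
  rw [div_le_iff₀ hb']
  have h := Nat.lt_div_mul_add (a := a) hb
  have h1 : (a : ℝ) < ((a / b : ℕ) : ℝ) * b + b := by exact_mod_cast h
  linarith

private theorem acLo_le {b : ℕ} (hb : b ≤ 1073741824) :
    ((acLo b : ℕ) : ℝ) ≤ rac ((b : ℝ) / 1073741824) * 1073741824 := by
  have hbr : (b : ℝ) ≤ 1073741824 := by exact_mod_cast hb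
  have hb0 : (0 : ℝ) ≤ b := Nat.cast_nonneg b
  obtain ⟨y, hy⟩ : ∃ y : ℕ, y = b * b / 1073741824 + 1 := ⟨_, rfl⟩
  have hy1 : (b : ℝ) * b / 1073741824 ≤ y := by
    have h := ndiv_gt (b * b) (b := 1073741824) (by norm_num)
    rw [hy]
    push_cast at h ⊢
    exact h
  have hy2 : (y : ℝ) ≤ 1073741825 := by
    have h := ndiv_le (b * b) 1073741824
    rw [hy]
    push_cast at h ⊢
    have h2 : (b : ℝ) * b / 1073741824 ≤ 1073741824 := by
      rw [div_le_iff₀ (by norm_num)]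
      nlinarith
    linarith
  have hy0 : (0 : ℝ) ≤ y := Nat.cast_nonneg y
  obtain ⟨v, hv⟩ : ∃ v : ℕ, v = 1073741824 - (5 * y / 7 + 1) := ⟨_, rfl⟩
  have hv1 : (v : ℝ) ≤ 1073741824 - 5 * y / 7 := by
    rw [hv]
    refine nsub_le (by linarith) ?_
    have h := ndiv_gt (5 * y) (b := 7) (by norm_num)
    push_cast at h ⊢
    linarith
  have hv0 : (0 : ℝ) ≤ v := Nat.cast_nonneg v
  obtain ⟨w, hw⟩ : ∃ w : ℕ, w = 1073741824 - 3 * (y * v) / 5368709120 := ⟨_, rfl⟩
  have hw1 : 1073741824 - 3 * ((y : ℝ) * v) / 5368709120 ≤ w := by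
    rw [hw]
    refine le_trans ?_ (nsub_ge _ _)
    have h := ndiv_le (3 * (y * v)) 5368709120
    push_cast at h ⊢
    linarith
  have hw2 : (w : ℝ) ≤ 1073741824 := by
    rw [hw]
    refine nsub_le (by norm_num) ?_
    have h : (0 : ℝ) ≤ ((3 * (y * v) / 5368709120 : ℕ) : ℝ) := Nat.cast_nonneg _
    push_cast at h ⊢
    linarith
  have hw0 : (0 : ℝ) ≤ w := Nat.cast_nonneg w
  have hr : ((acLo b : ℕ) : ℝ) ≤ 1073741824 - (y : ℝ) * w / 3221225472 := by
    have e : acLo b = 1073741824 - (y * w / 3221225472 + 1) := by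
      rw [hw, hv, hy]
      rfl
    rw [e]
    refine nsub_le ?_ ?_
    · rw [sub_nonneg, div_le_iff₀ (by norm_num)]
      nlinarith
    · have h := ndiv_gt (y * w) (b := 3221225472) (by norm_num)
      push_cast at h ⊢
      linarith
  -- the real estimate
  set z : ℝ := (y : ℝ) / 1073741824 with hz
  have hyz : (y : ℝ) = z * 1073741824 := by
    rw [hz]
    field_simp
  have hz0 : 0 ≤ z := div_nonneg hy0 (by norm_num)
  have hsq : ((b : ℝ) / 1073741824) ^ 2 ≤ z := by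
    rw [hz, div_pow, div_le_div_iff₀ (by norm_num) (by norm_num)]
    have h2 := (div_le_iff₀ (by norm_num : (0 : ℝ) < 1073741824)).1 hy1
    nlinarith
  have hsx : (b : ℝ) / 1073741824 ≤ Real.sqrt z := by
    refine Real.le_sqrt_of_sq_le ?_
    exact hsq
  have h1 : rac (Real.sqrt z) ≤ rac ((b : ℝ) / 1073741824) :=
    rac_anti (div_nonneg hb0 (by norm_num)) hsx
  have h2 := rac_lower (Real.sqrt_nonneg z)
  rw [Real.sq_sqrt hz0] at h2
  have h3 : 1 - z / 3 + z ^ 2 / 5 - z ^ 3 / 7 ≤ rac ((b : ℝ) / 1073741824) := h2.trans h1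
  refine hr.trans ?_
  have h4 : 1073741824 - 3 * ((y : ℝ) * (1073741824 - 5 * y / 7)) / 5368709120 ≤ w := by
    have : (y : ℝ) * v ≤ y * (1073741824 - 5 * y / 7) := mul_le_mul_of_nonneg_left hv1 hy0
    linarith
  have h5 : 1073741824 - (y : ℝ) * w / 3221225472 ≤ 1073741824 - (y : ℝ) *
      (1073741824 - 3 * ((y : ℝ) * (1073741824 - 5 * y / 7)) / 5368709120) / 3221225472 := by
    have := mul_le_mul_of_nonneg_left h4 hy0
    linarith
  refine h5.trans ?_
  have h6 : 1073741824 - (y : ℝ) *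
      (1073741824 - 3 * ((y : ℝ) * (1073741824 - 5 * y / 7)) / 5368709120) / 3221225472 =
      (1 - z / 3 + z ^ 2 / 5 - z ^ 3 / 7) * 1073741824 := by
    rw [hyz]
    ring
  rw [h6]
  exact mul_le_mul_of_nonneg_right h3 (by norm_num)

private theorem le_acHi {a : ℕ} (ha : a ≤ 1073741824) :
    rac ((a : ℝ) / 1073741824) * 1073741824 ≤ ((acHi a : ℕ) : ℝ) := by
  have har : (a : ℝ) ≤ 1073741824 := by exact_mod_cast ha
  have ha0 : (0 : ℝ) ≤ a := Nat.cast_nonneg a
  obtain ⟨y, hy⟩ : ∃ y : ℕ, y = a * a / 1073741824 := ⟨_, rfl⟩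
  have hy1 : (y : ℝ) ≤ (a : ℝ) * a / 1073741824 := by
    have h := ndiv_le (a * a) 1073741824
    rw [hy]
    push_cast at h ⊢
    exact h
  have hy2 : (y : ℝ) ≤ 1073741824 := by
    have h2 : (a : ℝ) * a / 1073741824 ≤ 1073741824 := by
      rw [div_le_iff₀ (by norm_num)]
      nlinarith
    linarith
  have hy0 : (0 : ℝ) ≤ y := Nat.cast_nonneg y
  obtain ⟨w, hw⟩ : ∃ w : ℕ, w = 1073741824 - (3 * y / 5 + 1) := ⟨_, rfl⟩
  have hw1 : (w : ℝ) ≤ 1073741824 - 3 * y / 5 := by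
    rw [hw]
    refine nsub_le (by linarith) ?_
    have h := ndiv_gt (3 * y) (b := 5) (by norm_num)
    push_cast at h ⊢
    linarith
  have hr : 1073741824 - (y : ℝ) * w / 3221225472 ≤ ((acHi a : ℕ) : ℝ) := by
    have e : acHi a = 1073741824 - y * w / 3221225472 := by
      rw [hw, hy]
      rfl
    rw [e]
    refine le_trans ?_ (nsub_ge _ _)
    have h := ndiv_le (y * w) 3221225472
    push_cast at h ⊢
    linarith
  set z : ℝ := (y : ℝ) / 1073741824 with hz
  have hyz : (y : ℝ) = z * 1073741824 := by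
    rw [hz]
    field_simp
  have hz0 : 0 ≤ z := div_nonneg hy0 (by norm_num)
  have hsq : z ≤ ((a : ℝ) / 1073741824) ^ 2 := by
    rw [hz, div_pow, div_le_div_iff₀ (by norm_num) (by norm_num)]
    have h2 := (le_div_iff₀ (by norm_num : (0 : ℝ) < 1073741824)).1 hy1
    nlinarith
  have hsx : Real.sqrt z ≤ (a : ℝ) / 1073741824 := by
    rw [Real.sqrt_le_left (div_nonneg ha0 (by norm_num))]
    exact hsq
  have h1 : rac ((a : ℝ) / 1073741824) ≤ rac (Real.sqrt z) := rac_anti (Real.sqrt_nonneg z) hsx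
  have h2 := rac_upper (Real.sqrt_nonneg z)
  rw [Real.sq_sqrt hz0] at h2
  have h3 : rac ((a : ℝ) / 1073741824) ≤ 1 - z / 3 + z ^ 2 / 5 := h1.trans h2
  refine le_trans ?_ hr
  have h5 : 1073741824 - (y : ℝ) * (1073741824 - 3 * y / 5) / 3221225472 ≤
      1073741824 - (y : ℝ) * w / 3221225472 := by
    have := mul_le_mul_of_nonneg_left hw1 hy0
    linarith
  refine le_trans ?_ h5
  have h6 : 1073741824 - (y : ℝ) * (1073741824 - 3 * y / 5) / 3221225472 =
      (1 - z / 3 + z ^ 2 / 5) * 1073741824 := by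
    rw [hyz]
    ring
  rw [h6]
  exact mul_le_mul_of_nonneg_right h3 (by norm_num)

private theorem scLo_le {b : ℕ} (hb : b ≤ 1073741824) :
    ((scLo b : ℕ) : ℝ) ≤ rsc ((b : ℝ) / 1073741824) * 1073741824 := by
  have hbr : (b : ℝ) ≤ 1073741824 := by exact_mod_cast hb
  have hb0 : (0 : ℝ) ≤ b := Nat.cast_nonneg b
  obtain ⟨y, hy⟩ : ∃ y : ℕ, y = b * b / 1073741824 + 1 := ⟨_, rfl⟩
  have hy1 : (b : ℝ) * b / 1073741824 ≤ y := by
    have h := ndiv_gt (b * b) (b := 1073741824) (by norm_num)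
    rw [hy]
    push_cast at h ⊢
    exact h
  have hy2 : (y : ℝ) ≤ 1073741825 := by
    have h := ndiv_le (b * b) 1073741824
    rw [hy]
    push_cast at h ⊢
    have h2 : (b : ℝ) * b / 1073741824 ≤ 1073741824 := by
      rw [div_le_iff₀ (by norm_num)]
      nlinarith
    linarith
  have hr : ((scLo b : ℕ) : ℝ) ≤ 1073741824 - (y : ℝ) / 6 := by
    have e : scLo b = 1073741824 - (y * 1073741824 / (6 * 1073741824) + 1) := by
      rw [hy]
      rfl
    rw [e]
    refine nsub_le (by linarith) ?_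
    have h := ndiv_gt (y * 1073741824) (b := 6 * 1073741824) (by norm_num)
    push_cast at h ⊢
    linarith
  have h2 := rsc_lower (x := (b : ℝ) / 1073741824) (div_nonneg hb0 (by norm_num))
  have h3 : ((b : ℝ) / 1073741824) ^ 2 * 1073741824 = (b : ℝ) * b / 1073741824 := by
    ring
  nlinarith

private theorem le_scHi {a : ℕ} (ha : a ≤ 1073741824) :
    rsc ((a : ℝ) / 1073741824) * 1073741824 ≤ ((scHi a : ℕ) : ℝ) := by
  have har : (a : ℝ) ≤ 1073741824 := by exact_mod_cast ha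
  have ha0 : (0 : ℝ) ≤ a := Nat.cast_nonneg a
  obtain ⟨y, hy⟩ : ∃ y : ℕ, y = a * a / 1073741824 := ⟨_, rfl⟩
  have hy1 : (y : ℝ) ≤ (a : ℝ) * a / 1073741824 := by
    have h := ndiv_le (a * a) 1073741824
    rw [hy]
    push_cast at h ⊢
    exact h
  have hy2 : (y : ℝ) ≤ 1073741824 := by
    have h2 : (a : ℝ) * a / 1073741824 ≤ 1073741824 := by
      rw [div_le_iff₀ (by norm_num)]
      nlinarith
    linarith
  have hy0 : (0 : ℝ) ≤ y := Nat.cast_nonneg y
  obtain ⟨v, hv⟩ : ∃ v : ℕ, v = 1073741824 - (y * 1073741824 / (20 * 1073741824) + 1) := ⟨_, rfl⟩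
  have hv1 : (v : ℝ) ≤ 1073741824 - (y : ℝ) / 20 := by
    rw [hv]
    refine nsub_le (by linarith) ?_
    have h := ndiv_gt (y * 1073741824) (b := 20 * 1073741824) (by norm_num)
    push_cast at h ⊢
    linarith
  have hr : 1073741824 - (y : ℝ) * v / (6 * 1073741824) ≤ ((scHi a : ℕ) : ℝ) := by
    have e : scHi a = 1073741824 - y * v / (6 * 1073741824) := by
      rw [hv, hy]
      rfl
    rw [e]
    refine le_trans ?_ (nsub_ge _ _)
    have h := ndiv_le (y * v) (6 * 1073741824)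
    push_cast at h ⊢
    linarith
  set z : ℝ := (y : ℝ) / 1073741824 with hz
  have hyz : (y : ℝ) = z * 1073741824 := by
    rw [hz]
    field_simp
  have hz0 : 0 ≤ z := div_nonneg hy0 (by norm_num)
  have hsq : z ≤ ((a : ℝ) / 1073741824) ^ 2 := by
    rw [hz, div_pow, div_le_div_iff₀ (by norm_num) (by norm_num)]
    have h2 := (le_div_iff₀ (by norm_num : (0 : ℝ) < 1073741824)).1 hy1
    nlinarith
  have hx1 : (a : ℝ) / 1073741824 ≤ 1 := by
    rw [div_le_one (by norm_num)]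
    exact har
  have hsx : Real.sqrt z ≤ (a : ℝ) / 1073741824 := by
    rw [Real.sqrt_le_left (div_nonneg ha0 (by norm_num))]
    exact hsq
  have h1 : rsc ((a : ℝ) / 1073741824) ≤ rsc (Real.sqrt z) :=
    rsc_anti (Real.sqrt_nonneg z) hsx (by linarith [Real.pi_gt_three])
  have h2 := rsc_upper (Real.sqrt_nonneg z)
  rw [Real.sq_sqrt hz0] at h2
  have h3 : rsc ((a : ℝ) / 1073741824) ≤ 1 - z / 6 + z ^ 2 / 120 := h1.trans h2
  refine le_trans ?_ hr
  have h5 : 1073741824 - (y : ℝ) * (1073741824 - (y : ℝ) / 20) / (6 * 1073741824) ≤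
      1073741824 - (y : ℝ) * v / (6 * 1073741824) := by
    have := mul_le_mul_of_nonneg_left hv1 hy0
    linarith
  refine le_trans ?_ h5
  have h6 : 1073741824 - (y : ℝ) * (1073741824 - (y : ℝ) / 20) / (6 * 1073741824) =
      (1 - z / 6 + z ^ 2 / 120) * 1073741824 := by
    rw [hyz]
    ring
  rw [h6]
  exact mul_le_mul_of_nonneg_right h3 (by norm_num)

private theorem mem_unitI {v : ℝ} (h0 : 0 ≤ v) (h1 : v ≤ 1) :
    Mem v ⟨.ofNat 0, .ofNat 1073741824⟩ := by
  constructor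
  · show (((Int.ofNat 0 : Int)) : ℝ) ≤ v * 1073741824
    rw [Int.ofNat_eq_natCast, Int.cast_natCast, Nat.cast_zero]
    positivity
  · show v * 1073741824 ≤ (((Int.ofNat 1073741824 : Int)) : ℝ)
    rw [Int.ofNat_eq_natCast, Int.cast_natCast]
    push_cast
    linarith

theorem mem_ac {u : ℝ} {X : Iv} (h0 : 0 ≤ u) (hu : Mem u X) : Mem (rac u) (ac X) := by
  obtain ⟨lo, hi⟩ := X
  have hgen := mem_unitI (rac_nonneg h0) (rac_le_one h0)
  rcases lo with a | a <;> rcases hi with b | b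
  · cases hb : Nat.ble b 1073741824
    · have e : ac ⟨.ofNat a, .ofNat b⟩ = ⟨.ofNat 0, .ofNat 1073741824⟩ := by
        unfold ac
        simp only [hb]
      rw [e]
      exact hgen
    · have e : ac ⟨.ofNat a, .ofNat b⟩ = ⟨.ofNat (acLo b), .ofNat (acHi a)⟩ := by
        unfold ac
        simp only [hb]
      rw [e]
      have hbl : b ≤ 1073741824 := Nat.le_of_ble_eq_true hb
      obtain ⟨m1, m2⟩ := hu
      have m1' : (a : ℝ) ≤ u * 1073741824 := by
        have h : (((Int.ofNat a : Int)) : ℝ) ≤ u * 1073741824 := m1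
        rwa [Int.ofNat_eq_natCast, Int.cast_natCast] at h
      have m2' : u * 1073741824 ≤ (b : ℝ) := by
        have h : u * 1073741824 ≤ (((Int.ofNat b : Int)) : ℝ) := m2
        rwa [Int.ofNat_eq_natCast, Int.cast_natCast] at h
      have hab : a ≤ b := by
        have : (a : ℝ) ≤ b := m1'.trans m2'
        exact_mod_cast this
      have k1 : (a : ℝ) / 1073741824 ≤ u := (div_le_iff₀ (by norm_num)).2 m1'
      have k2 : u ≤ (b : ℝ) / 1073741824 := (le_div_iff₀ (by norm_num)).2 m2'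
      constructor
      · show (((Int.ofNat (acLo b) : Int)) : ℝ) ≤ rac u * 1073741824
        rw [Int.ofNat_eq_natCast, Int.cast_natCast]
        refine (acLo_le hbl).trans ?_
        exact mul_le_mul_of_nonneg_right (rac_anti h0 k2) (by norm_num)
      · show rac u * 1073741824 ≤ (((Int.ofNat (acHi a) : Int)) : ℝ)
        rw [Int.ofNat_eq_natCast, Int.cast_natCast]
        refine le_trans ?_ (le_acHi (hab.trans hbl))
        exact mul_le_mul_of_nonneg_right
          (rac_anti (div_nonneg (Nat.cast_nonneg a) (by norm_num)) k1) (by norm_num)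
  · exact hgen
  · exact hgen
  · exact hgen

theorem mem_sc {u : ℝ} {X : Iv} (h0 : 0 ≤ u) (h1 : u ≤ Real.pi) (hu : Mem u X) : Mem (rsc u) (sc X) := by
  obtain ⟨lo, hi⟩ := X
  have hgen := mem_unitI (rsc_nonneg h0 h1) (rsc_le_one h0)
  rcases lo with a | a <;> rcases hi with b | b
  · cases hb : Nat.ble b 1073741824
    · have e : sc ⟨.ofNat a, .ofNat b⟩ = ⟨.ofNat 0, .ofNat 1073741824⟩ := by
        unfold sc
        simp only [hb]
      rw [e]
      exact hgen
    · have e : sc ⟨.ofNat a, .ofNat b⟩ = ⟨.ofNat (scLo b), .ofNat (scHi a)⟩ := by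
        unfold sc
        simp only [hb]
      rw [e]
      have hbl : b ≤ 1073741824 := Nat.le_of_ble_eq_true hb
      obtain ⟨m1, m2⟩ := hu
      have m1' : (a : ℝ) ≤ u * 1073741824 := by
        have h : (((Int.ofNat a : Int)) : ℝ) ≤ u * 1073741824 := m1
        rwa [Int.ofNat_eq_natCast, Int.cast_natCast] at h
      have m2' : u * 1073741824 ≤ (b : ℝ) := by
        have h : u * 1073741824 ≤ (((Int.ofNat b : Int)) : ℝ) := m2
        rwa [Int.ofNat_eq_natCast, Int.cast_natCast] at h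
      have hab : a ≤ b := by
        have : (a : ℝ) ≤ b := m1'.trans m2'
        exact_mod_cast this
      have k1 : (a : ℝ) / 1073741824 ≤ u := (div_le_iff₀ (by norm_num)).2 m1'
      have k2 : u ≤ (b : ℝ) / 1073741824 := (le_div_iff₀ (by norm_num)).2 m2'
      have k3 : (b : ℝ) / 1073741824 ≤ 1 := by
        rw [div_le_one (by norm_num)]
        exact_mod_cast hbl
      constructor
      · show (((Int.ofNat (scLo b) : Int)) : ℝ) ≤ rsc u * 1073741824
        rw [Int.ofNat_eq_natCast, Int.cast_natCast]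
        refine (scLo_le hbl).trans ?_
        exact mul_le_mul_of_nonneg_right (rsc_anti h0 k2 (by linarith [Real.pi_gt_three]))
          (by norm_num)
      · show rsc u * 1073741824 ≤ (((Int.ofNat (scHi a) : Int)) : ℝ)
        rw [Int.ofNat_eq_natCast, Int.cast_natCast]
        refine le_trans ?_ (le_scHi (hab.trans hbl))
        exact mul_le_mul_of_nonneg_right
          (rsc_anti (div_nonneg (Nat.cast_nonneg a) (by norm_num)) k1 h1) (by norm_num)
  · exact hgen
  · exact hgen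
  · exact hgen

end Pool.Agent.Work.MP_88b7aa_gt.Iv
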