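import Pool.Agent.Work.MP_88b7aa_gt.Iv.Defs

/-!
# Soundness of the basic operations.  Size: S-M.

`Mem v X` means `X.lo ≤ v * 2^30 ≤ X.hi` (as reals).  Everything is direct.  `Int.add a b = a + b` etc. by `rfl`;
`Int.ediv a (.ofNat d)` is `a / d` (floor); `fl z = z / 2^30` (floor: `Int.ofNat (n/D)`, `Int.negSucc (n/D) = -(n/D) - 1`).
-/

namespace Pool.Agent.Work.MP_88b7aa_gt.Iv

theorem leb_iff (a b : Int) : leb a b = true ↔ a ≤ b := by
  unfold leb
  have h : Int.sub b a = b - a := rfl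
  rw [h]
  rcases hb : b - a with n | n
  · simp only [true_iff]
    have : (Int.ofNat n : ℤ) = (n : ℤ) := rfl
    omega
  · simp only [Bool.false_eq_true, false_iff, not_le]
    have : (Int.negSucc n : ℤ) = -((n : ℤ) + 1) := Int.negSucc_eq n
    omega

theorem posb_iff (a : Int) : posb a = true ↔ 0 < a := by
  unfold posb
  rcases a with n | n
  · simp only [Nat.blt_eq]
    have : (Int.ofNat n : ℤ) = (n : ℤ) := rfl
    omega
  · simp only [Bool.false_eq_true, false_iff, not_lt]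
    have : (Int.negSucc n : ℤ) = -((n : ℤ) + 1) := Int.negSucc_eq n
    omega

theorem fl_eq (z : Int) : fl z = z / 1073741824 := by
  unfold fl
  rcases z with n | n
  · have h1 : (Int.ofNat n : ℤ) = (n : ℤ) := rfl
    have h2 : (Int.ofNat (n / 1073741824) : ℤ) = ((n / 1073741824 : ℕ) : ℤ) := rfl
    simp only []
    rw [h1, h2]
    omega
  · have h1 : (Int.negSucc n : ℤ) = -((n : ℤ) + 1) := Int.negSucc_eq n
    have h2 : (Int.negSucc (n / 1073741824) : ℤ) = -(((n / 1073741824 : ℕ) : ℤ) + 1) := Int.negSucc_eq _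
    simp only []
    rw [h1, h2]
    omega

theorem fl_le (z : Int) : ((fl z : Int) : ℝ) * 1073741824 ≤ (z : ℝ) := by
  rw [fl_eq]
  have h : (z / 1073741824) * 1073741824 ≤ z := by omega
  exact_mod_cast h

theorem lt_fl (z : Int) : (z : ℝ) < (((fl z : Int) : ℝ) + 1) * 1073741824 := by
  rw [fl_eq]
  have h : z < (z / 1073741824 + 1) * 1073741824 := by omega
  exact_mod_cast h

theorem le_cl (z : Int) : (z : ℝ) ≤ ((cl z : Int) : ℝ) * 1073741824 := by
  have h := lt_fl z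
  unfold cl
  push_cast
  exact h.le

theorem mem_cst (n : Nat) : Mem (n : ℝ) (cst n) := by
  have h : ((Int.ofNat (n * 1073741824) : ℤ) : ℝ) = (n : ℝ) * 1073741824 := by
    have : (Int.ofNat (n * 1073741824) : ℤ) = ((n * 1073741824 : ℕ) : ℤ) := rfl
    rw [this]; push_cast; ring
  unfold Mem cst
  simp only []
  rw [h]
  exact ⟨le_refl _, le_refl _⟩

theorem mem_add {u v : ℝ} {X Y : Iv} (hu : Mem u X) (hv : Mem v Y) : Mem (u + v) (add X Y) := by
  obtain ⟨h1, h2⟩ := hu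
  obtain ⟨h3, h4⟩ := hv
  have e1 : ((Int.add X.lo Y.lo : ℤ) : ℝ) = (X.lo : ℝ) + Y.lo := by
    have : Int.add X.lo Y.lo = X.lo + Y.lo := rfl
    rw [this]; push_cast; ring
  have e2 : ((Int.add X.hi Y.hi : ℤ) : ℝ) = (X.hi : ℝ) + Y.hi := by
    have : Int.add X.hi Y.hi = X.hi + Y.hi := rfl
    rw [this]; push_cast; ring
  unfold Mem add
  simp only []
  rw [e1, e2]
  constructor <;> linarith

theorem mem_sub {u v : ℝ} {X Y : Iv} (hu : Mem u X) (hv : Mem v Y) : Mem (u - v) (sub X Y) := by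
  obtain ⟨h1, h2⟩ := hu
  obtain ⟨h3, h4⟩ := hv
  have e1 : ((Int.sub X.lo Y.hi : ℤ) : ℝ) = (X.lo : ℝ) - Y.hi := by
    have : Int.sub X.lo Y.hi = X.lo - Y.hi := rfl
    rw [this]; push_cast; ring
  have e2 : ((Int.sub X.hi Y.lo : ℤ) : ℝ) = (X.hi : ℝ) - Y.lo := by
    have : Int.sub X.hi Y.lo = X.hi - Y.lo := rfl
    rw [this]; push_cast; ring
  unfold Mem sub
  simp only []
  rw [e1, e2]
  constructor <;> linarith

theorem mem_neg {u : ℝ} {X : Iv} (hu : Mem u X) : Mem (-u) (neg X) := by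
  obtain ⟨h1, h2⟩ := hu
  have e1 : ((Int.neg X.hi : ℤ) : ℝ) = -(X.hi : ℝ) := by
    have : Int.neg X.hi = -X.hi := rfl
    rw [this]; push_cast; ring
  have e2 : ((Int.neg X.lo : ℤ) : ℝ) = -(X.lo : ℝ) := by
    have : Int.neg X.lo = -X.lo := rfl
    rw [this]; push_cast; ring
  unfold Mem neg
  simp only []
  rw [e1, e2]
  constructor <;> linarith

theorem mem_smul (n : Nat) {u : ℝ} {X : Iv} (hu : Mem u X) : Mem ((n : ℝ) * u) (smul n X) := by
  obtain ⟨h1, h2⟩ := hu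
  have e1 : ((Int.mul (.ofNat n) X.lo : ℤ) : ℝ) = (n : ℝ) * X.lo := by
    have : Int.mul (.ofNat n) X.lo = (n : ℤ) * X.lo := rfl
    rw [this]; push_cast; ring
  have e2 : ((Int.mul (.ofNat n) X.hi : ℤ) : ℝ) = (n : ℝ) * X.hi := by
    have : Int.mul (.ofNat n) X.hi = (n : ℤ) * X.hi := rfl
    rw [this]; push_cast; ring
  unfold Mem smul
  simp only []
  rw [e1, e2]
  have hn : (0 : ℝ) ≤ n := Nat.cast_nonneg n
  constructor
  · have := mul_le_mul_of_nonneg_left h1 hn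
    linarith
  · have := mul_le_mul_of_nonneg_left h2 hn
    linarith

theorem ediv_le_real (a : ℤ) (d : ℕ) (hd : 0 < d) : ((a / (d : ℤ) : ℤ) : ℝ) ≤ (a : ℝ) / d := by
  have hd' : (0 : ℝ) < d := by exact_mod_cast hd
  rw [le_div_iff₀ hd']
  have h : (a / (d : ℤ)) * d ≤ a := Int.ediv_mul_le a (by omega)
  exact_mod_cast h

theorem real_le_ediv (a : ℤ) (d : ℕ) (hd : 0 < d) : (a : ℝ) / d ≤ ((a / (d : ℤ) : ℤ) : ℝ) + 1 := by
  have hd' : (0 : ℝ) < d := by exact_mod_cast hd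
  rw [div_le_iff₀ hd']
  have h : a < (a / (d : ℤ) + 1) * d := Int.lt_ediv_add_one_mul_self a (by omega)
  have h' : (a : ℝ) < (((a / (d : ℤ) : ℤ) : ℝ) + 1) * d := by exact_mod_cast h
  exact h'.le

theorem mem_rat (n d : Nat) (hd : 0 < d) {u : ℝ} {X : Iv} (hu : Mem u X) :
    Mem ((n : ℝ) / (d : ℝ) * u) (rat n d X) := by
  obtain ⟨h1, h2⟩ := hu
  have hd' : (0 : ℝ) < d := by exact_mod_cast hd
  have hn : (0 : ℝ) ≤ n := Nat.cast_nonneg n
  have e1 : (Int.ediv (Int.mul (.ofNat n) X.lo) (.ofNat d) : ℤ) = ((n : ℤ) * X.lo) / (d : ℤ) := rfl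
  have e2 : (Int.add (Int.ediv (Int.mul (.ofNat n) X.hi) (.ofNat d)) 1 : ℤ) = ((n : ℤ) * X.hi) / (d : ℤ) + 1 := rfl
  unfold Mem rat
  simp only []
  rw [e1, e2]
  have k1 := ediv_le_real ((n : ℤ) * X.lo) d hd
  have k2 := real_le_ediv ((n : ℤ) * X.hi) d hd
  push_cast at k1 k2 ⊢
  constructor
  · refine k1.trans ?_
    rw [div_le_iff₀ hd']
    have : (n : ℝ) / d * u * 1073741824 * d = n * (u * 1073741824) := by
      field_simp
    rw [this]
    exact mul_le_mul_of_nonneg_left h1 hn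
  · refine le_trans ?_ k2
    rw [le_div_iff₀ hd']
    have : (n : ℝ) / d * u * 1073741824 * d = n * (u * 1073741824) := by
      field_simp
    rw [this]
    exact mul_le_mul_of_nonneg_left h2 hn

theorem mem_clip {u : ℝ} {X : Iv} (h0 : 0 ≤ u) (hu : Mem u X) : Mem u (clip X) := by
  obtain ⟨h1, h2⟩ := hu
  unfold clip
  rcases h : X.lo with n | n
  · exact ⟨h1, h2⟩
  · refine ⟨?_, h2⟩
    simp only [Int.ofNat_eq_natCast, Nat.cast_zero, Int.cast_zero]
    positivity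

theorem pos_of_posb {u : ℝ} {X : Iv} (hu : Mem u X) (h : posb X.lo = true) : 0 < u := by
  rw [posb_iff] at h
  obtain ⟨h1, h2⟩ := hu
  have : (0 : ℝ) < X.lo := by exact_mod_cast h
  linarith

/-- `u ≤ 1` from the test `leb X.hi 2^30`, `-1 ≤ u` from `leb (-2^30) X.lo`. -/
theorem le_one_of_leb {u : ℝ} {X : Iv} (hu : Mem u X) (h : leb X.hi 1073741824 = true) : u ≤ 1 := by
  rw [leb_iff] at h
  obtain ⟨h1, h2⟩ := hu
  have : (X.hi : ℝ) ≤ 1073741824 := by exact_mod_cast h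
  linarith

theorem neg_one_le_of_leb {u : ℝ} {X : Iv} (hu : Mem u X) (h : leb (-1073741824) X.lo = true) : -1 ≤ u := by
  rw [leb_iff] at h
  obtain ⟨h1, h2⟩ := hu
  have : (-1073741824 : ℝ) ≤ X.lo := by exact_mod_cast h
  linarith

end Pool.Agent.Work.MP_88b7aa_gt.Iv
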