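import Pool.Agent.Work.MP_88b7aa_gt.Iv.Defs

/-!
# The checker

`good` evaluates, in interval arithmetic, the conditions of a good edge (`CH.REdge`) for the three edges of a
triangle with half angles in the intervals `p`, `q`, `r` and parameter `t = θ / 2` in the interval `t`.
-/

set_option linter.dupNamespace false

namespace Pool.Agent.Work.MP_88b7aa_gt.Iv

/-- data of a vertex of half angle `α`: `a = cos α`, `a2 = a²`, `s2 = 1 - a²`, `A = cos 2α`, `e = ε`,
`E = ε / s2`. -/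
structure Vb where
  a : Iv
  a2 : Iv
  s2 : Iv
  A : Iv
  e : Iv
  E : Iv
  ok : Bool

/-- `2 + (B - C)² / (B C)` -/
def rho (B C : Iv) : Iv := add (cst 2) (mul (sqr (sub B C)) (inv (mul B C)))

def mkV (a a2 A B C cth sth : Iv) : Vb :=
  let D := add (mul (add (cst 1) (sqr A)) cth) (mul A (rho B C))
  let q := mul sth (inv D)
  let u := clip (mul (sub (cst 1) (sqr A)) q)
  let c := ac u
  { a := a, a2 := a2, s2 := clip (sub (cst 1) a2), A := A, e := rat 1 2 (mul u c),
    E := smul 2 (mul a2 (mul q c)),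
    ok := posb D.lo && posb (mul B C).lo && posb a.lo }

/-- data of a vertex on an edge: `a = cos ν`, `a2 = a²`, `s2 = sin² ν`, `e = ε'`, `ce = cos ε'`,
`w = sin ε' / s2`, `y = (1+a²) w / ce`, `r = (1+a)² w / (1 + ce)`, `rp = (1-a)² w / (1 + ce)`,
`ch = cos (ε' / 2)`, `k2 = sin² ν / sin² α`. -/
structure Vd where
  a : Iv
  a2 : Iv
  s2 : Iv
  e : Iv
  ce : Iv
  w : Iv
  y : Iv
  r : Iv
  rp : Iv
  ch : Iv
  k2 : Iv
  ok : Bool

def fin (a a2 s2 k2 e wE : Iv) (ok : Bool) : Vd :=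
  let w := mul wE (sc e)
  let ce := cos e
  let wd := mul w (inv (add (cst 1) ce))
  { a := a, a2 := a2, s2 := s2, e := e, ce := ce, w := w, y := mul (add (cst 1) a2) (mul w (inv ce)),
    r := mul (sqr (add (cst 1) a)) wd, rp := mul (sqr (sub (cst 1) a)) wd, ch := cos (rat 1 2 e), k2 := k2,
    ok := ok && posb ce.lo && posb a.lo }

/-- `ε' = (c / 100) ε`, `ν = (l / 100) α` (`l = 100`: `ν = α`). -/
def mkS (v : Vb) (al : Iv) (c l : Nat) : Vd :=
  match Nat.beq l 100 with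
  | true => fin v.a v.a2 v.s2 (cst 1) (clip (rat c 100 v.e)) (rat c 100 v.E) v.ok
  | false =>
    let a := cos (rat l 100 al)
    let a2 := sqr a
    let s2 := clip (sub (cst 1) a2)
    let k2 := mul s2 (inv v.s2)
    fin a a2 s2 k2 (clip (rat c 100 v.e)) (mul (rat c 100 v.E) (inv k2)) (v.ok && posb v.s2.lo && posb k2.lo)

/-- the six quantities of one sign `s`. -/
structure Sd where
  c2 : Iv
  c3 : Iv
  c4 : Iv
  c5 : Iv
  c8 : Iv
  c9 : Iv
  ok : Bool

def ls (s : Bool) (c d : Iv) : Iv := match s with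
  | true => add c d
  | false => sub c d

def pm (s : Bool) (z : Iv) : Iv := match s with
  | true => neg z
  | false => z

def side (s : Bool) (U V : Vd) (h h2 g hc cK sK cE sE cV sV cR sR cC sC cX sX : Iv) : Sd :=
  let K := ls s cK (neg sK)
  let E := ls s cE sE
  let W := ls s cV sV
  let R := ls s cR sR
  let C := ls s cC sC
  let Rm := ls (!s) cR sR
  let Cm := ls (!s) cC sC
  let e := ls s cX sX
  let em := ls (!s) cX sX
  let bh := mul V.a h
  let ah := mul U.a h
  let ihg := inv (add h g)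
  let dif := sub (mul (sub (mul U.a C) (mul V.a R)) ihg) K
  let dif' := sub (mul (sub (mul V.a R) (mul U.a C)) ihg) K
  let br1 := add (mul e (sub (cst 1) (mul U.r V.rp))) (pm s (mul (add U.r V.rp) em))
  let br2 := add (mul e (sub (cst 1) (mul V.r U.rp))) (pm s (mul (add V.r U.rp) em))
  { c2 := add (add (mul U.a K) (mul (sub h2 U.s2) (mul C (inv (add g bh))))) (pm s (mul bh (mul V.w Cm))),
    c3 := sub (add (mul g C) (mul bh E)) (mul (mul U.a V.s2) K),
    c4 := add (add (mul V.a K) (mul (sub h2 V.s2) (mul R (inv (add g ah))))) (pm s (mul ah (mul U.w Rm))),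
    c5 := sub (add (mul g R) (mul ah E)) (mul (mul V.a U.s2) K),
    c8 := add (mul hc br1) (mul (mul (sub (cst 1) V.a) (add (cst 1) U.a)) dif),
    c9 := add (mul hc br2) (mul (mul (sub (cst 1) U.a) (add (cst 1) V.a)) dif'),
    ok := posb K.lo && posb E.lo && posb W.lo && posb R.lo && posb C.lo && posb h.lo &&
      posb (add h g).lo && posb (add g bh).lo && posb (add g ah).lo }

def allpos (S : Sd) : Bool :=
  S.ok && posb S.c2.lo && posb S.c3.lo && posb S.c4.lo && posb S.c5.lo && posb S.c8.lo && posb S.c9.lo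

/-- the last condition of an edge. -/
def last (U V : Vd) (A1 A2 : Sd) (P h h2 rs2 x k kap sg et : Iv) : Bool :=
  let x2 := smul 2 x
  let s2x := sin x2
  let c2x := cos x2
  let D := add (add (mul (sqr P) (cos (smul 2 kap))) (mul h2 (cos (smul 2 (add x sg)))))
    (smul 2 (mul (mul P h) (cos (add (sub x2 k) sg))))
  let c2e := cos (smul 2 et)
  let c1 := cos (sub k sg)
  let c3 := cos (add k sg)
  let s1 := sin (sub x2 (add sg k))
  let s3 := sin (sub (add x2 sg) k)
  let ww := smul 4 (mul P (mul U.w V.w))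
  let q1 := mul (mul U.ce V.ce) (sub (mul (sub (cst 1) (mul U.y V.y)) s2x) (mul (add U.y V.y) c2x))
  let P1 := add (cst 1) (sqr P)
  let T := add (add (mul U.a2 (sin (smul 2 (sub x et)))) (mul V.a2 (sin (smul 2 (add x et)))))
    (mul rs2 (sin (sub x2 (smul 2 k))))
  let Z1 := add (add (sub P1 T) (smul 2 (mul P (sub c2e s2x))))
    (add (mul h2 (sub (sub (cst 1) ww) q1)) (smul 2 (mul h (add (sub c1 s1) (mul P (sub c3 s3))))))
  let Z2 := add (add (add P1 T) (smul 2 (mul P (add c2e s2x))))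
    (add (mul h2 (add (sub (cst 1) ww) q1)) (smul 2 (mul h (add (add c1 s1) (mul P (add c3 s3))))))
  let dl := sub x2 (rat 2 3 k)
  let r1 := sqrt (mul Z1 Z2)
  let r2 := sqrt (mul (mul A1.c8 A2.c8) (mul A1.c9 A2.c9))
  let r3 := sqrt (mul (mul A1.c2 A2.c2) (mul A1.c3 A2.c3))
  let r4 := sqrt (mul (mul A1.c4 A2.c4) (mul A1.c5 A2.c5))
  posb Z1.lo && posb Z2.lo && leb dl.hi 1073741824 && leb (-1073741824) dl.lo &&
  posb (sub (add (add D (rat 1 2 (add r1 r2))) (add r3 r4)) (smul 3 (cos dl))).lo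

/-- one edge between the vertices `u`, `v`, opposite vertex `w`; `x = (n / 100) t`. -/
def edge (u v w : Vb) (U V : Vd) (t ct : Iv) (n : Nat) : Bool :=
  let P := mul U.a V.a
  let AB := mul u.A v.A
  let ct2 := sqr ct
  let h2 := mul (mul (add (mul (sqr (add AB w.A)) ct2) (mul (sqr (sub AB w.A)) (clip (sub (cst 1) ct2))))
    (inv (smul 16 (mul u.a2 v.a2)))) (mul U.k2 V.k2)
  let h := sqrt h2
  let rs2 := mul U.s2 V.s2
  let d2 := sub h2 rs2
  let g := sqrt d2
  let x := rat n 100 t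
  let sg := rat 1 2 (add U.e V.e)
  let et := rat 1 2 (sub V.e U.e)
  let tk := sub (sub (add u.e v.e) w.e) sg
  let k := add t tk
  let kap := sub (add (rat (100 - n) 100 t) tk) (rat (n - 100) 100 t)
  let hc := mul h (mul U.ch V.ch)
  let cK := cos kap
  let sK := sin kap
  let cE := cos (add x sg)
  let sE := sin (add x sg)
  let cV := cos (sub x sg)
  let sV := sin (sub x sg)
  let cR := cos (add x et)
  let sR := sin (add x et)
  let cC := cos (sub x et)
  let sC := sin (sub x et)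
  let cX := cos x
  let sX := sin x
  let A1 := side true U V h h2 g hc cK sK cE sE cV sV cR sR cC sC cX sX
  let A2 := side false U V h h2 g hc cK sK cE sE cV sV cR sR cC sC cX sX
  match posb d2.lo && posb (mul u.a2 v.a2).lo && U.ok && V.ok && allpos A1 && allpos A2 with
  | false => false
  | true => last U V A1 A2 P h h2 rs2 x k kap sg et

/-- a box of labels and of the parameter `t = θ / 2`. -/
structure Box where
  p : Iv
  q : Iv
  r : Iv
  t : Iv

/-- the box contains no ordered triple `α_p ≥ α_q ≥ α_r`, or `W_A` or `W_B` is elliptic at `κ θ`,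
`κ = m / 2`. -/
def excl (m : Nat) (B : Box) : Bool :=
  (!(leb B.q.lo B.p.hi)) || (!(leb B.r.lo B.q.hi)) ||
  (let cp := cos (smul 2 B.p)
   let cq := cos (smul 2 B.q)
   let cr := cos (smul 2 B.r)
   let cf := sub (smul 2 (sqr (cos (rat m 2 B.t)))) (cst 1)
   let p2 := sqr cp
   let q2 := sqr cq
   let r2 := sqr cr
   let Q := mul cp (mul cq cr)
   let Qf := mul Q cf
   posb (sub (sub (cst 1) r2) (add (smul 4 (mul p2 q2)) (smul 4 Qf))).lo ||
   (let re := sub (sub (cst 3) (smul 4 (add p2 (add q2 r2)))) (smul 8 Qf)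
    let im2 := smul 64 (mul (sqr Q) (sub (cst 1) (sqr cf)))
    let re2 := sqr re
    let nn := add re2 im2
    posb (sub (cst 27) (add (sub (sqr nn) (smul 8 (mul re (sub re2 (smul 3 im2))))) (smul 18 nn))).lo))

/-- all three edges are good on the box.  Edge 1 joins the vertices `q`, `r`, edge 2 joins `p`, `q`, edge 3
joins `r`, `p`. -/
def good (n1 n2 n3 c1 c2 c3 l1 l2 l3 : Nat) (B : Box) : Bool :=
  let ct := cos B.t
  let st := sin B.t
  let cth := sub (smul 2 (sqr ct)) (cst 1)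
  let sth := smul 2 (mul st ct)
  let ap := cos B.p
  let aq := cos B.q
  let ar := cos B.r
  let ap2 := sqr ap
  let aq2 := sqr aq
  let ar2 := sqr ar
  let Ap := sub (smul 2 ap2) (cst 1)
  let Aq := sub (smul 2 aq2) (cst 1)
  let Ar := sub (smul 2 ar2) (cst 1)
  let vp := mkV ap ap2 Ap Aq Ar cth sth
  let vq := mkV aq aq2 Aq Ap Ar cth sth
  let vr := mkV ar ar2 Ar Ap Aq cth sth
  Nat.ble c1 200 && Nat.ble c2 200 && Nat.ble c3 200 && Nat.ble l1 100 && Nat.ble l2 100 && Nat.ble l3 100 &&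
  Nat.blt 0 l1 && Nat.blt 0 l2 && Nat.blt 0 l3 &&
  edge vq vr vp (mkS vq B.q c2 l2) (mkS vr B.r (200 - c3) l3) B.t ct n1 &&
  edge vp vq vr (mkS vp B.p c1 l1) (mkS vq B.q (200 - c2) l2) B.t ct n2 &&
  edge vr vp vq (mkS vr B.r c3 l3) (mkS vp B.p (200 - c1) l1) B.t ct n3

/-- a subdivision tree. -/
inductive Tr
  | ex
  | ok (n1 n2 n3 c1 c2 c3 l1 l2 l3 : Nat)
  | sp (x y : Tr)
  | sq (x y : Tr)
  | sr (x y : Tr)
  | st (x y : Tr)

def mid (x : Iv) : Int := Int.ediv (Int.add x.lo x.hi) 2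

def run (m : Nat) : Tr → Box → Bool
  | .ex, B => excl m B
  | .ok n1 n2 n3 c1 c2 c3 l1 l2 l3, B => good n1 n2 n3 c1 c2 c3 l1 l2 l3 B
  | .sp x y, B => run m x ⟨⟨B.p.lo, mid B.p⟩, B.q, B.r, B.t⟩ && run m y ⟨⟨mid B.p, B.p.hi⟩, B.q, B.r, B.t⟩
  | .sq x y, B => run m x ⟨B.p, ⟨B.q.lo, mid B.q⟩, B.r, B.t⟩ && run m y ⟨B.p, ⟨mid B.q, B.q.hi⟩, B.r, B.t⟩
  | .sr x y, B => run m x ⟨B.p, B.q, ⟨B.r.lo, mid B.r⟩, B.t⟩ && run m y ⟨B.p, B.q, ⟨mid B.r, B.r.hi⟩, B.t⟩
  | .st x y, B => run m x ⟨B.p, B.q, B.r, ⟨B.t.lo, mid B.t⟩⟩ && run m y ⟨B.p, B.q, B.r, ⟨mid B.t, B.t.hi⟩⟩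

/-- the interval of the half angle `π / (2 m)`, `m < 9`, resp. of all half angles `π / (2 m')`, `m' ≥ 9`. -/
def lab (m : Nat) : Iv :=
  match Nat.blt m 9 with
  | true => ⟨.ofNat (3373258724343808 / (2 * m * 1000000)), .ofNat (3373259798085632 / (2 * m * 1000000) + 1)⟩
  | false => ⟨.ofNat 0, .ofNat (3373259798085632 / (2 * m * 1000000) + 1)⟩

/-- the root box: `t ≤ 1.0472` for `m = 3`, `t ≤ 0.7854` otherwise. -/
def bx (m p q r : Nat) : Box :=
  ⟨lab p, lab q, lab r, ⟨.ofNat 0, match Nat.beq m 3 with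
    | true => .ofNat 1124422439
    | false => .ofNat 843316829⟩⟩

end Pool.Agent.Work.MP_88b7aa_gt.Iv
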