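import Pool.Agent.Work.MP_88b7aa_gt.Iv.Check

/-! Subdivision trees, checked by the kernel. -/

set_option maxRecDepth 100000

namespace Pool.Agent.Work.MP_88b7aa_gt.Iv

def t3_9_9_9_2 : Tr :=
  (.st (.sp (.sq (.ok 60 60 60 100 100 100 100 100 100) (.sr (.ok 60 60 60 100 100 100 100 100 100) (.st (.ok 60 60 60 100 100 100 100 100 100) (.ok 60 60 60 100 100 100 100 100 100)))) (.sq (.sr (.ok 60 60 60 100 100 100 100 100 100) (.st (.ok 64 60 60 100 100 100 100 100 100) (.ok 64 60 60 100 100 100 100 100 100))) (.sr (.ok 64 60 60 90 115 90 100 100 100) (.st (.ok 64 60 60 100 100 100 100 100 100) (.ok 64 60 60 100 100 100 100 100 100))))) (.sp (.sq (.sr (.ok 64 60 60 100 100 100 100 100 100) (.st (.ok 64 60 60 100 100 100 100 100 100) (.ok 64 60 60 100 100 100 100 100 100))) (.sr (.st (.ok 64 60 60 100 100 100 100 100 100) (.ok 64 60 60 100 100 100 100 100 100)) (.st (.ok 60 60 60 100 100 100 100 100 100) (.sq (.ok 60 60 60 100 100 100 100 100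 100) .ex)))) (.sq (.sr (.st (.ok 60 60 60 100 100 100 100 100 100) (.ok 60 60 60 100 100 100 100 100 100)) (.st (.ok 60 60 60 100 100 100 100 100 100) (.sp (.ok 60 60 60 100 100 100 100 100 100) (.sr (.ok 60 60 60 100 100 100 100 100 100) .ex)))) (.sr (.st (.ok 60 60 60 100 100 100 100 100 100) (.sp (.ok 60 60 60 100 100 100 100 100 100) (.sq (.ok 60 60 60 100 100 100 100 100 100) (.ok 60 60 60 90 115 90 100 100 100)))) (.st (.ok 56 56 56 100 100 100 100 100 100) (.sp (.sq (.ok 56 56 56 100 100 100 100 100 100) (.sr (.ok 56 56 56 100 100 100 100 100 100) (.st (.ok 56 56 56 100 100 100 100 100 100) (.ok 56 56 56 100 100 100 100 100 100)))) (.sq (.sr (.ok 56 56 56 100 100 100 100 100 100) (.st (.ok 60 56 56 100 100 100 100 100 100) (.ok 60 56 56 100 100 100 100 100 100))) (.sr (.ok 60 56 56 90 115 90 100 100 100) (.st (.ok 60 56 56 100 100 100 100 100 100) (.ok 60 56 56 100 100 100 100 100 100))))))))))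

theorem rt3_9_9_9_2 : run 3 t3_9_9_9_2
    ⟨⟨0, 187403323⟩, ⟨0, 187403323⟩, ⟨0, 187403323⟩, ⟨843316829, 983869634⟩⟩ = true := by
  decide +kernel

def t3_9_9_9_3 : Tr :=
  (.sq (.sr (.st (.ok 60 56 56 100 100 100 100 100 100) (.ok 56 56 56 100 100 100 100 100 100)) (.st (.sr (.ok 56 56 56 100 100 100 100 100 100) .ex) (.sr (.sp (.sq .ex (.st (.ok 56 56 56 100 100 100 100 100 100) (.ok 56 56 56 100 100 100 100 100 100))) (.sq .ex (.st (.ok 56 56 56 100 100 100 100 100 100) (.ok 56 56 56 100 100 100 100 100 100)))) .ex))) (.sr (.st (.sq (.ok 56 56 56 100 100 100 100 100 100) .ex) (.sq (.sp .ex (.sr (.st (.ok 56 56 56 100 100 100 100 100 100) (.ok 56 56 56 100 100 100 100 100 100)) (.st (.ok 56 56 56 100 100 100 100 100 100) (.ok 56 56 56 100 100 100 100 100 100)))) .ex)) (.st (.sq (.sr (.ok 56 56 56 100 100 100 100 100 100) (.sp .ex (.st (.ok 56 56 56 100 100 100 100 100 100) (.ok 56 56 56 100 100 100 100 100 100)))) .ex) (.sq (.sr (.sp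 .ex (.st (.ok 56 56 56 100 100 100 100 100 100) (.sp .ex (.ok 56 56 56 100 100 100 100 100 100)))) (.sp .ex (.st (.sp .ex (.sq .ex .ex)) (.sp .ex (.sq .ex .ex))))) .ex))))

theorem rt3_9_9_9_3 : run 3 t3_9_9_9_3
    ⟨⟨0, 93701661⟩, ⟨0, 187403323⟩, ⟨0, 187403323⟩, ⟨983869634, 1054146036⟩⟩ = true := by
  decide +kernel

end Pool.Agent.Work.MP_88b7aa_gt.Iv
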