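import Pool.Agent.Work.MP_88b7aa_gt.Iv.Check

/-! Subdivision trees, checked by the kernel. -/

set_option maxRecDepth 100000

namespace Pool.Agent.Work.MP_88b7aa_gt.Iv

def t3_9_9_9_8 : Tr :=
  (.sr (.st (.sp (.sq (.sr (.st (.sp (.ok 60 56 60 90 115 90 100 100 100) (.ok 60 56 60 90 115 90 100 100 100)) (.sp (.sq (.ok 56 56 60 90 115 90 100 100 100) .ex) (.sq .ex .ex))) (.st (.sp (.sq (.ok 56 56 60 100 100 100 100 100 100) (.ok 56 56 60 100 100 100 100 100 100)) (.sq (.ok 56 56 60 100 100 100 100 100 100) (.ok 56 56 60 90 115 90 100 100 100))) (.sp (.sq (.sr (.ok 56 56 60 90 115 90 100 100 100) (.st (.ok 56 56 60 100 100 100 100 100 100) (.ok 56 56 60 100 100 100 100 100 100))) (.sr .ex (.st (.ok 56 56 60 100 100 100 100 100 100) .ex))) (.sq (.sr .ex (.st (.ok 56 56 60 100 100 100 100 100 100) .ex)) .ex)))) (.sr (.st (.sp .ex (.sq .ex .ex)) (.sp .ex .ex)) (.st (.sp .ex (.sq .ex .ex))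 (.sp .ex (.sq .ex .ex))))) (.sq (.sr (.st (.sp (.sq .ex .ex) .ex) (.sp .ex .ex)) (.st (.sp (.sq (.ok 56 56 60 90 115 90 100 100 100) .ex) (.sq .ex .ex)) (.sp (.sq .ex .ex) .ex))) (.sr (.st (.sp .ex .ex) (.sp .ex .ex)) (.st (.sp (.sq .ex .ex) .ex) (.sp .ex .ex))))) (.sp (.sq (.sr (.st (.sp (.sq .ex .ex) .ex) (.sp (.sq .ex .ex) .ex)) (.st (.sp (.sq (.sr .ex (.st (.ok 56 56 60 100 100 100 100 100 100) (.sr .ex .ex))) .ex) (.sq .ex .ex)) (.sp (.sq (.sr .ex .ex) .ex) (.sq .ex .ex)))) (.sr (.st (.sp .ex .ex) (.sp .ex .ex)) (.st (.sp .ex .ex) (.sp .ex .ex)))) (.sq (.sr (.st (.sp .ex .ex) (.sp .ex .ex)) (.st (.sp (.sq .ex .ex) .ex) (.sp .ex .ex))) (.sr .ex (.st (.sp .ex .ex) (.sp .ex .ex)))))) (.st (.sp (.sq (.sr (.st (.sp (.sq (.ok 56 56 56 100 100 100 100 100 100) (.sr (.ok 56 56 56 100 100 100 100 100 100) (.ok 56 56 56 100 100 100 100 100 100))) (.sq (.sr (.ok 56 56 56 100 100 100 100 100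 100) (.ok 56 56 56 100 100 100 100 100 100)) (.sr (.ok 56 56 56 100 100 100 100 100 100) (.ok 56 56 56 100 100 100 100 100 100)))) (.sp (.sq (.sr (.ok 56 56 56 100 100 100 100 100 100) (.st (.ok 56 56 56 100 100 100 100 100 100) (.ok 56 56 56 100 100 100 100 100 100))) (.sr (.st (.ok 56 56 56 100 100 100 100 100 100) (.ok 56 56 56 100 100 100 100 100 100)) (.st (.ok 56 56 56 100 100 100 100 100 100) (.sq (.ok 56 56 56 100 100 100 100 100 100) .ex)))) (.sq (.sr (.st (.ok 56 56 56 100 100 100 100 100 100) (.ok 56 56 56 100 100 100 100 100 100)) (.st (.ok 56 56 56 100 100 100 100 100 100) (.sp (.ok 60 56 56 100 100 100 100 100 100) .ex))) (.sr .ex (.st (.ok 60 56 56 100 100 100 100 100 100) (.ok 56 56 56 100 100 100 100 100 100)))))) (.st (.sp (.sq .ex (.sr (.st (.ok 56 56 56 100 100 100 100 100 100) (.ok 56 56 56 100 100 100 100 100 100)) .ex)) (.sq .ex (.sr (.st (.ok 56 56 56 100 100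 100 100 100 100) (.ok 56 56 56 100 100 100 100 100 100)) .ex))) (.sp (.sq .ex (.sr (.st (.sq .ex .ex) (.sq .ex .ex)) .ex)) (.sq .ex (.sr (.st (.sp (.sq .ex .ex) (.ok 56 56 56 100 100 100 100 100 100)) (.sp (.sq .ex .ex) .ex)) .ex))))) (.sr (.st (.sp .ex (.sq (.sr .ex (.st (.ok 56 56 56 100 100 100 100 100 100) (.ok 56 56 56 100 100 100 100 100 100))) .ex)) (.sp .ex (.sq (.sr .ex .ex) .ex))) (.st (.sp .ex (.sq (.sr (.st (.ok 56 56 56 100 100 100 100 100 100) (.sp .ex .ex)) (.st (.sp .ex (.sr (.ok 56 56 56 100 100 100 100 100 100) .ex)) (.sp .ex (.sr .ex .ex)))) .ex)) (.sp .ex (.sq (.sr (.st (.sp .ex .ex) (.sp .ex .ex)) (.st (.sp .ex (.sr .ex .ex)) (.sp .ex .ex))) .ex))))) (.sq (.sr (.st (.sp (.sq (.sr (.ok 56 56 56 100 120 80 100 100 100) (.st (.ok 56 56 56 100 100 100 100 100 100) (.ok 56 56 56 100 100 100 100 100 100))) (.sr .ex (.st (.ok 56 56 56 100 100 100 100 100 100) (.ok 56 56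 56 100 100 100 100 100 100)))) (.sq (.sr .ex (.st (.ok 56 56 56 100 100 100 100 100 100) .ex)) .ex)) (.sp (.sq (.sr .ex (.st (.ok 56 56 56 100 120 80 100 100 100) (.sr .ex .ex))) (.sr .ex .ex)) (.sq .ex .ex))) (.st (.sp (.sq .ex (.sr (.st (.ok 56 56 56 100 100 100 100 100 100) (.sq .ex .ex)) .ex)) (.sq .ex (.sr (.st (.ok 56 56 56 100 120 80 100 100 100) .ex) .ex))) (.sp (.sq .ex (.sr (.st (.sq .ex .ex) (.sq .ex .ex)) .ex)) (.sq .ex (.sr .ex .ex))))) (.sr (.st (.sp (.sq (.sr .ex .ex) .ex) (.sq .ex .ex)) (.sp (.sq .ex .ex) .ex)) (.st (.sp (.sq (.sr (.st (.ok 56 56 56 100 100 100 100 100 100) .ex) (.st (.sr (.ok 56 56 56 100 100 100 100 100 100) .ex) (.sr .ex .ex))) (.sr .ex (.st (.sq .ex .ex) .ex))) (.sq (.sr .ex (.st (.sp .ex .ex) .ex)) .ex)) (.sp (.sq (.sr .ex (.st (.sr .ex .ex) .ex)) .ex) (.sq .ex .ex)))))) (.sp (.sq (.sr (.st (.sp (.sq (.sr (.st (.ok 56 56 56 100 100 100 100 100 100)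 (.sp (.ok 56 56 56 100 100 100 100 100 100) .ex)) (.st (.sr (.ok 56 56 56 100 100 100 100 100 100) .ex) (.sr (.ok 60 56 60 100 100 100 100 100 100) .ex))) (.sr (.st (.sq .ex .ex) .ex) (.st (.sq (.sr .ex .ex) .ex) (.sq .ex .ex)))) (.sq (.sr (.st (.sp .ex .ex) .ex) (.st (.sp (.sr .ex .ex) .ex) (.sp .ex .ex))) (.sr .ex .ex))) (.sp (.sq (.sr (.st (.sp .ex .ex) (.sp .ex .ex)) (.st (.sr (.sp .ex .ex) .ex) (.sr (.sp .ex .ex) .ex))) (.sr .ex (.st (.sq .ex .ex) (.sq .ex .ex)))) (.sq (.sr .ex (.st (.sp .ex .ex) (.sp .ex .ex))) (.sr .ex .ex)))) (.st (.sp (.sq .ex (.sr (.st (.sq .ex .ex) (.sq .ex .ex)) .ex)) (.sq .ex (.sr (.st (.sp (.sq .ex .ex) .ex) (.sp .ex .ex)) .ex))) (.sp (.sq .ex (.sr (.st (.sq .ex .ex) (.sq .ex .ex)) .ex)) (.sq .ex (.sr (.st (.sp .ex .ex) (.sp .ex .ex)) .ex))))) (.sr (.st (.sp .ex (.sq .ex .ex)) (.sp .ex (.sq .ex .ex))) (.st (.sp .ex (.sq (.sr .ex (.st (.sp .ex .ex) (.sp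 .ex .ex))) .ex)) (.sp .ex (.sq (.sr .ex (.st (.sp .ex .ex) (.sp .ex .ex))) .ex))))) (.sq (.sr (.st (.sp (.sq (.sr .ex .ex) .ex) (.sq .ex .ex)) (.sp (.sq .ex .ex) .ex)) (.st (.sp (.sq .ex (.sr .ex .ex)) (.sq .ex (.sr .ex .ex))) (.sp (.sq .ex (.sr .ex .ex)) (.sq .ex .ex)))) (.sr (.st (.sp (.sq .ex .ex) .ex) (.sp .ex .ex)) (.st (.sp (.sq (.sr .ex .ex) .ex) (.sq .ex .ex)) (.sp (.sq (.sr .ex .ex) .ex) (.sq .ex .ex))))))))

theorem rt3_9_9_9_8 : run 3 t3_9_9_9_8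
    ⟨⟨93701661, 187403323⟩, ⟨93701661, 187403323⟩, ⟨0, 187403323⟩, ⟨1054146036, 1124422439⟩⟩ = true := by
  decide +kernel

def t4_3_3_4 : Tr :=
  (.st (.st (.st (.st (.ok 60 48 60 80 120 100 84 84 100) (.st (.ok 60 48 60 80 120 100 84 84 100) (.st (.ok 44 48 60 80 120 100 84 84 100) (.ok 44 48 60 80 120 100 84 84 100)))) (.st (.st (.st (.ok 60 48 60 80 120 100 84 84 100) (.ok 120 48 120 80 120 100 84 84 100)) (.st (.st (.ok 180 48 120 80 120 100 84 84 100) (.ok 180 48 120 80 120 100 84 84 100)) (.st (.ok 180 60 124 80 120 100 84 84 100) (.ok 180 72 136 80 120 100 84 84 100)))) (.st (.st (.st (.ok 180 84 144 80 120 100 84 84 100) (.ok 180 92 152 80 120 100 84 84 100)) (.st (.ok 180 104 156 80 120 100 84 84 100) (.ok 180 112 160 80 120 100 84 84 100))) (.st (.st (.ok 180 116 164 80 120 100 84 84 100) (.ok 180 124 168 80 120 100 84 84 100)) (.st (.ok 180 128 172 80 120 100 84 84 100)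 (.ok 180 132 172 80 120 100 84 84 100)))))) (.st (.st (.st (.st (.st (.ok 180 136 176 80 120 100 84 84 100) (.ok 180 136 176 80 120 100 84 84 100)) (.st (.ok 180 140 176 80 120 100 84 84 100) (.ok 180 140 176 80 120 100 84 84 100))) (.st (.st (.ok 180 140 176 80 120 100 84 84 100) (.ok 180 140 176 80 120 100 84 84 100)) (.st (.ok 180 144 176 80 120 100 84 84 100) (.ok 180 144 176 80 120 100 84 84 100)))) (.st (.st (.st (.ok 180 144 176 80 120 100 84 84 100) (.ok 180 144 176 80 120 100 84 84 100)) (.st (.ok 180 144 176 80 120 100 84 84 100) (.ok 180 144 176 80 120 100 84 84 100))) (.st (.st (.ok 180 144 176 80 120 100 84 84 100) (.ok 168 140 168 80 120 100 84 84 100)) (.st (.st (.ok 160 140 168 80 120 100 84 84 100) (.ok 160 128 168 80 120 100 84 84 100)) (.st (.ok 164 128 160 80 120 100 84 84 100) (.ok 160 128 160 80 120 100 84 84 100)))))) (.st (.st (.st (.st (.st (.ok 160 128 160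 80 120 100 84 84 100) (.st (.ok 156 128 156 80 120 100 84 84 100) (.ok 156 128 156 80 120 100 84 84 100))) (.st (.st (.ok 156 124 156 80 120 100 84 84 100) (.st (.ok 152 124 156 80 120 100 84 84 100) .ex)) .ex)) .ex) .ex) .ex))) .ex)

theorem rt4_3_3_4 : run 4 t4_3_3_4
    ⟨⟨562209787, 562209967⟩, ⟨562209787, 562209967⟩, ⟨421657340, 421657475⟩, ⟨0, 843316829⟩⟩ = true := by
  decide +kernel

end Pool.Agent.Work.MP_88b7aa_gt.Iv
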