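import Pool.Agent.Work.MP_88b7aa_gt.Iv.RunL
import Pool.Agent.Work.MP_88b7aa_gt.Iv.D01
import Pool.Agent.Work.MP_88b7aa_gt.Iv.D02
import Pool.Agent.Work.MP_88b7aa_gt.Iv.D03
import Pool.Agent.Work.MP_88b7aa_gt.Iv.D04
import Pool.Agent.Work.MP_88b7aa_gt.Iv.D05
import Pool.Agent.Work.MP_88b7aa_gt.Iv.D06
import Pool.Agent.Work.MP_88b7aa_gt.Iv.D07
import Pool.Agent.Work.MP_88b7aa_gt.Iv.D08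
import Pool.Agent.Work.MP_88b7aa_gt.Iv.D09
import Pool.Agent.Work.MP_88b7aa_gt.Iv.D10
import Pool.Agent.Work.MP_88b7aa_gt.Iv.D11
import Pool.Agent.Work.MP_88b7aa_gt.Iv.D12
import Pool.Agent.Work.MP_88b7aa_gt.Iv.D13
import Pool.Agent.Work.MP_88b7aa_gt.Iv.D14

/-! All root boxes are covered. -/

namespace Pool.Agent.Work.MP_88b7aa_gt.Iv

theorem c3_3_4_4 : ∃ T, run 3 T (bx 3 3 4 4) = true := ⟨t3_3_4_4, rt3_3_4_4⟩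

theorem c3_3_4_5 : ∃ T, run 3 T (bx 3 3 4 5) = true := ⟨t3_3_4_5, rt3_3_4_5⟩

theorem c3_3_4_6 : ∃ T, run 3 T (bx 3 3 4 6) = true := ⟨t3_3_4_6, rt3_3_4_6⟩

theorem c3_3_4_7 : ∃ T, run 3 T (bx 3 3 4 7) = true := ⟨t3_3_4_7, rt3_3_4_7⟩

theorem c3_3_4_8 : ∃ T, run 3 T (bx 3 3 4 8) = true := ⟨t3_3_4_8, rt3_3_4_8⟩

theorem c3_3_4_9 : ∃ T, run 3 T (bx 3 3 4 9) = true := ⟨t3_3_4_9, rt3_3_4_9⟩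

theorem c3_3_5_5 : ∃ T, run 3 T (bx 3 3 5 5) = true := ⟨t3_3_5_5, rt3_3_5_5⟩

theorem c3_3_5_6 : ∃ T, run 3 T (bx 3 3 5 6) = true := ⟨t3_3_5_6, rt3_3_5_6⟩

theorem c3_3_5_7 : ∃ T, run 3 T (bx 3 3 5 7) = true := ⟨t3_3_5_7, rt3_3_5_7⟩

theorem c3_3_5_8 : ∃ T, run 3 T (bx 3 3 5 8) = true := ⟨t3_3_5_8, rt3_3_5_8⟩

theorem c3_3_5_9 : ∃ T, run 3 T (bx 3 3 5 9) = true := ⟨t3_3_5_9, rt3_3_5_9⟩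

theorem c3_3_6_6 : ∃ T, run 3 T (bx 3 3 6 6) = true := ⟨t3_3_6_6, rt3_3_6_6⟩

theorem c3_3_6_7 : ∃ T, run 3 T (bx 3 3 6 7) = true := ⟨t3_3_6_7, rt3_3_6_7⟩

theorem c3_3_6_8 : ∃ T, run 3 T (bx 3 3 6 8) = true := ⟨t3_3_6_8, rt3_3_6_8⟩

theorem c3_3_6_9 : ∃ T, run 3 T (bx 3 3 6 9) = true := ⟨t3_3_6_9, rt3_3_6_9⟩

theorem c3_3_7_7 : ∃ T, run 3 T (bx 3 3 7 7) = true := ⟨t3_3_7_7, rt3_3_7_7⟩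

theorem c3_3_7_8 : ∃ T, run 3 T (bx 3 3 7 8) = true := ⟨t3_3_7_8, rt3_3_7_8⟩

theorem c3_3_7_9 : ∃ T, run 3 T (bx 3 3 7 9) = true := ⟨t3_3_7_9, rt3_3_7_9⟩

theorem c3_3_8_8 : ∃ T, run 3 T (bx 3 3 8 8) = true := ⟨t3_3_8_8, rt3_3_8_8⟩

theorem c3_3_8_9 : ∃ T, run 3 T (bx 3 3 8 9) = true := ⟨t3_3_8_9, rt3_3_8_9⟩

theorem c3_3_9_9 : ∃ T, run 3 T (bx 3 3 9 9) = true := ⟨t3_3_9_9, rt3_3_9_9⟩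

theorem c3_4_4_4 : ∃ T, run 3 T (bx 3 4 4 4) = true := ⟨t3_4_4_4, rt3_4_4_4⟩

theorem c3_4_4_5 : ∃ T, run 3 T (bx 3 4 4 5) = true := ⟨t3_4_4_5, rt3_4_4_5⟩

theorem c3_4_4_6 : ∃ T, run 3 T (bx 3 4 4 6) = true := ⟨t3_4_4_6, rt3_4_4_6⟩

theorem c3_4_4_7 : ∃ T, run 3 T (bx 3 4 4 7) = true := ⟨t3_4_4_7, rt3_4_4_7⟩

theorem c3_4_4_8 : ∃ T, run 3 T (bx 3 4 4 8) = true := ⟨t3_4_4_8, rt3_4_4_8⟩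

theorem c3_4_4_9 : ∃ T, run 3 T (bx 3 4 4 9) = true := ⟨t3_4_4_9, rt3_4_4_9⟩

theorem c3_4_5_5 : ∃ T, run 3 T (bx 3 4 5 5) = true := ⟨t3_4_5_5, rt3_4_5_5⟩

theorem c3_4_5_6 : ∃ T, run 3 T (bx 3 4 5 6) = true := ⟨t3_4_5_6, rt3_4_5_6⟩

theorem c3_4_5_7 : ∃ T, run 3 T (bx 3 4 5 7) = true := ⟨t3_4_5_7, rt3_4_5_7⟩

theorem c3_4_5_8 : ∃ T, run 3 T (bx 3 4 5 8) = true := ⟨t3_4_5_8, rt3_4_5_8⟩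

theorem c3_4_5_9 : ∃ T, run 3 T (bx 3 4 5 9) = true := ⟨t3_4_5_9, rt3_4_5_9⟩

theorem c3_4_6_6 : ∃ T, run 3 T (bx 3 4 6 6) = true := ⟨t3_4_6_6, rt3_4_6_6⟩

theorem c3_4_6_7 : ∃ T, run 3 T (bx 3 4 6 7) = true := ⟨t3_4_6_7, rt3_4_6_7⟩

theorem c3_4_6_8 : ∃ T, run 3 T (bx 3 4 6 8) = true := ⟨t3_4_6_8, rt3_4_6_8⟩

theorem c3_4_6_9 : ∃ T, run 3 T (bx 3 4 6 9) = true := ⟨t3_4_6_9, rt3_4_6_9⟩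

theorem c3_4_7_7 : ∃ T, run 3 T (bx 3 4 7 7) = true := ⟨t3_4_7_7, rt3_4_7_7⟩

theorem c3_4_7_8 : ∃ T, run 3 T (bx 3 4 7 8) = true := ⟨t3_4_7_8, rt3_4_7_8⟩

theorem c3_4_7_9 : ∃ T, run 3 T (bx 3 4 7 9) = true := ⟨t3_4_7_9, rt3_4_7_9⟩

theorem c3_4_8_8 : ∃ T, run 3 T (bx 3 4 8 8) = true := ⟨t3_4_8_8, rt3_4_8_8⟩

theorem c3_4_8_9 : ∃ T, run 3 T (bx 3 4 8 9) = true := ⟨t3_4_8_9, rt3_4_8_9⟩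

theorem c3_4_9_9 : ∃ T, run 3 T (bx 3 4 9 9) = true := ⟨t3_4_9_9, rt3_4_9_9⟩

theorem c3_5_5_5 : ∃ T, run 3 T (bx 3 5 5 5) = true := ⟨t3_5_5_5, rt3_5_5_5⟩

theorem c3_5_5_6 : ∃ T, run 3 T (bx 3 5 5 6) = true := ⟨t3_5_5_6, rt3_5_5_6⟩

theorem c3_5_5_7 : ∃ T, run 3 T (bx 3 5 5 7) = true := ⟨t3_5_5_7, rt3_5_5_7⟩

theorem c3_5_5_8 : ∃ T, run 3 T (bx 3 5 5 8) = true := ⟨t3_5_5_8, rt3_5_5_8⟩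

theorem c3_5_5_9 : ∃ T, run 3 T (bx 3 5 5 9) = true := ⟨t3_5_5_9, rt3_5_5_9⟩

theorem c3_5_6_6 : ∃ T, run 3 T (bx 3 5 6 6) = true := ⟨t3_5_6_6, rt3_5_6_6⟩

theorem c3_5_6_7 : ∃ T, run 3 T (bx 3 5 6 7) = true := ⟨t3_5_6_7, rt3_5_6_7⟩

theorem c3_5_6_8 : ∃ T, run 3 T (bx 3 5 6 8) = true := ⟨t3_5_6_8, rt3_5_6_8⟩

theorem c3_5_6_9 : ∃ T, run 3 T (bx 3 5 6 9) = true := ⟨t3_5_6_9, rt3_5_6_9⟩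

theorem c3_5_7_7 : ∃ T, run 3 T (bx 3 5 7 7) = true := ⟨t3_5_7_7, rt3_5_7_7⟩

theorem c3_5_7_8 : ∃ T, run 3 T (bx 3 5 7 8) = true := ⟨t3_5_7_8, rt3_5_7_8⟩

theorem c3_5_7_9 : ∃ T, run 3 T (bx 3 5 7 9) = true := ⟨t3_5_7_9, rt3_5_7_9⟩

theorem c3_5_8_8 : ∃ T, run 3 T (bx 3 5 8 8) = true := ⟨t3_5_8_8, rt3_5_8_8⟩

theorem c3_5_8_9 : ∃ T, run 3 T (bx 3 5 8 9) = true := ⟨t3_5_8_9, rt3_5_8_9⟩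

theorem c3_5_9_9 : ∃ T, run 3 T (bx 3 5 9 9) = true := ⟨t3_5_9_9, rt3_5_9_9⟩

theorem c3_6_6_6 : ∃ T, run 3 T (bx 3 6 6 6) = true := ⟨t3_6_6_6, rt3_6_6_6⟩

theorem c3_6_6_7 : ∃ T, run 3 T (bx 3 6 6 7) = true := ⟨t3_6_6_7, rt3_6_6_7⟩

theorem c3_6_6_8 : ∃ T, run 3 T (bx 3 6 6 8) = true := ⟨t3_6_6_8, rt3_6_6_8⟩

theorem c3_6_6_9 : ∃ T, run 3 T (bx 3 6 6 9) = true := ⟨t3_6_6_9, rt3_6_6_9⟩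

theorem c3_6_7_7 : ∃ T, run 3 T (bx 3 6 7 7) = true := ⟨t3_6_7_7, rt3_6_7_7⟩

theorem c3_6_7_8 : ∃ T, run 3 T (bx 3 6 7 8) = true := ⟨t3_6_7_8, rt3_6_7_8⟩

theorem c3_6_7_9 : ∃ T, run 3 T (bx 3 6 7 9) = true := ⟨t3_6_7_9, rt3_6_7_9⟩

theorem c3_6_8_8 : ∃ T, run 3 T (bx 3 6 8 8) = true := ⟨t3_6_8_8, rt3_6_8_8⟩

theorem c3_6_8_9 : ∃ T, run 3 T (bx 3 6 8 9) = true := ⟨t3_6_8_9, rt3_6_8_9⟩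

theorem c3_6_9_9 : ∃ T, run 3 T (bx 3 6 9 9) = true := ⟨t3_6_9_9, rt3_6_9_9⟩

theorem c3_7_7_7 : ∃ T, run 3 T (bx 3 7 7 7) = true := ⟨t3_7_7_7, rt3_7_7_7⟩

theorem c3_7_7_8 : ∃ T, run 3 T (bx 3 7 7 8) = true := ⟨t3_7_7_8, rt3_7_7_8⟩

theorem c3_7_7_9 : ∃ T, run 3 T (bx 3 7 7 9) = true := ⟨t3_7_7_9, rt3_7_7_9⟩

theorem c3_7_8_8 : ∃ T, run 3 T (bx 3 7 8 8) = true := ⟨t3_7_8_8, rt3_7_8_8⟩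

theorem c3_7_8_9 : ∃ T, run 3 T (bx 3 7 8 9) = true := ⟨t3_7_8_9, rt3_7_8_9⟩

theorem c3_7_9_9 : ∃ T, run 3 T (bx 3 7 9 9) = true := ⟨t3_7_9_9, rt3_7_9_9⟩

theorem c3_8_8_8 : ∃ T, run 3 T (bx 3 8 8 8) = true := ⟨t3_8_8_8, rt3_8_8_8⟩

theorem c3_8_8_9 : ∃ T, run 3 T (bx 3 8 8 9) = true := ⟨t3_8_8_9, rt3_8_8_9⟩

theorem c3_8_9_9 : ∃ T, run 3 T (bx 3 8 9 9) = true := ⟨t3_8_9_9, rt3_8_9_9⟩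

theorem c3_9_9_9 : ∃ T, run 3 T (bx 3 9 9 9) = true := ⟨(.st t3_9_9_9_0 (.st t3_9_9_9_1 (.st t3_9_9_9_2 (.st (.sp t3_9_9_9_3 t3_9_9_9_4) (.sp (.sq t3_9_9_9_5 t3_9_9_9_6) (.sq t3_9_9_9_7 t3_9_9_9_8)))))),
  (run_st 3 _ _ (⟨0, 187403323⟩ : Iv) (⟨0, 187403323⟩ : Iv) (⟨0, 187403323⟩ : Iv) (⟨0, 1124422439⟩ : Iv) _ _ rfl rfl rt3_9_9_9_0 (run_st 3 _ _ (⟨0, 187403323⟩ : Iv) (⟨0, 187403323⟩ : Iv) (⟨0, 187403323⟩ : Iv) (⟨562211219, 1124422439⟩ : Iv) _ _ rfl rfl rt3_9_9_9_1 (run_st 3 _ _ (⟨0, 187403323⟩ : Iv) (⟨0, 187403323⟩ : Iv) (⟨0, 187403323⟩ : Iv) (⟨843316829, 1124422439⟩ : Iv) _ _ rfl rfl rt3_9_9_9_2 (run_st 3 _ _ (⟨0, 187403323⟩ : Iv) (⟨0, 187403323⟩ : Iv) (⟨0, 187403323⟩ : Iv) (⟨983869634, 1124422439⟩ : Iv) _ _ rfl rfl (run_sp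 3 _ _ (⟨0, 187403323⟩ : Iv) (⟨0, 187403323⟩ : Iv) (⟨0, 187403323⟩ : Iv) (⟨983869634, 1054146036⟩ : Iv) _ _ rfl rfl rt3_9_9_9_3 rt3_9_9_9_4) (run_sp 3 _ _ (⟨0, 187403323⟩ : Iv) (⟨0, 187403323⟩ : Iv) (⟨0, 187403323⟩ : Iv) (⟨1054146036, 1124422439⟩ : Iv) _ _ rfl rfl (run_sq 3 _ _ (⟨0, 93701661⟩ : Iv) (⟨0, 187403323⟩ : Iv) (⟨0, 187403323⟩ : Iv) (⟨1054146036, 1124422439⟩ : Iv) _ _ rfl rfl rt3_9_9_9_5 rt3_9_9_9_6) (run_sq 3 _ _ (⟨93701661, 187403323⟩ : Iv) (⟨0, 187403323⟩ : Iv) (⟨0, 187403323⟩ : Iv) (⟨1054146036, 1124422439⟩ : Iv) _ _ rfl rfl rt3_9_9_9_7 rt3_9_9_9_8))))))⟩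

theorem c4_3_3_4 : ∃ T, run 4 T (bx 4 3 3 4) = true := ⟨t4_3_3_4, rt4_3_3_4⟩

theorem c4_3_3_5 : ∃ T, run 4 T (bx 4 3 3 5) = true := ⟨t4_3_3_5, rt4_3_3_5⟩

theorem c4_3_3_6 : ∃ T, run 4 T (bx 4 3 3 6) = true := ⟨t4_3_3_6, rt4_3_3_6⟩

theorem c4_3_3_7 : ∃ T, run 4 T (bx 4 3 3 7) = true := ⟨t4_3_3_7, rt4_3_3_7⟩

theorem c4_3_3_8 : ∃ T, run 4 T (bx 4 3 3 8) = true := ⟨t4_3_3_8, rt4_3_3_8⟩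

theorem c4_3_3_9 : ∃ T, run 4 T (bx 4 3 3 9) = true := ⟨t4_3_3_9, rt4_3_3_9⟩

end Pool.Agent.Work.MP_88b7aa_gt.Iv
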