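import Mathlib

set_option linter.dupNamespace false

/-!
# Fixed point interval arithmetic (kernel friendly)

A number `z : Int` stands for the real `z / 2^30`.  `Iv` is a closed interval with such
endpoints; `Mem v X` says that the real `v` lies in the interval `X`.
All operations are outward rounded.
-/

namespace Pool.Agent.Work.MP_88b7aa_gt.Iv

/-- An interval with endpoints `lo / 2^30`, `hi / 2^30`. -/
structure Iv where
  lo : Int
  hi : Int

/-- The real number `v` lies in the interval `X`. -/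
def Mem (v : ℝ) (X : Iv) : Prop := (X.lo : ℝ) ≤ v * 1073741824 ∧ v * 1073741824 ≤ (X.hi : ℝ)

/-- floor of `z / 2^30`. -/
def fl : Int → Int
  | .ofNat n => .ofNat (n / 1073741824)
  | .negSucc n => .negSucc (n / 1073741824)

/-- an integer `≥ z / 2^30`. -/
def cl (z : Int) : Int := fl z + 1

/-- `a ≤ b` as a Boolean. -/
def leb (a b : Int) : Bool := match Int.sub b a with
  | .ofNat _ => true
  | .negSucc _ => false

/-- `0 < a` as a Boolean. -/
def posb (a : Int) : Bool := match a with
  | .ofNat n => Nat.blt 0 n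
  | .negSucc _ => false

def imin (a b : Int) : Int := match leb a b with
  | true => a
  | false => b

def imax (a b : Int) : Int := match leb a b with
  | true => b
  | false => a

/-- the number `n`. -/
def cst (n : Nat) : Iv := ⟨.ofNat (n * 1073741824), .ofNat (n * 1073741824)⟩

def add (x y : Iv) : Iv := ⟨Int.add x.lo y.lo, Int.add x.hi y.hi⟩

def sub (x y : Iv) : Iv := ⟨Int.sub x.lo y.hi, Int.sub x.hi y.lo⟩

def neg (x : Iv) : Iv := ⟨Int.neg x.hi, Int.neg x.lo⟩

/-- multiplication by the natural number `n`. -/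
def smul (n : Nat) (x : Iv) : Iv := ⟨Int.mul (.ofNat n) x.lo, Int.mul (.ofNat n) x.hi⟩

/-- `n * x / d` for naturals `n`, `d` (`0 < d`). -/
def rat (n d : Nat) (x : Iv) : Iv :=
  ⟨Int.ediv (Int.mul (.ofNat n) x.lo) (.ofNat d),
   Int.add (Int.ediv (Int.mul (.ofNat n) x.hi) (.ofNat d)) 1⟩

def mul (x y : Iv) : Iv :=
  match x.lo, y.lo with
  | .ofNat a, .ofNat c => ⟨.ofNat (a * c / 1073741824), cl (Int.mul x.hi y.hi)⟩
  | .ofNat _, .negSucc _ =>
    match y.hi with
    | .ofNat _ => ⟨fl (Int.mul x.hi y.lo), cl (Int.mul x.hi y.hi)⟩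
    | .negSucc _ => ⟨fl (Int.mul x.hi y.lo), cl (Int.mul x.lo y.hi)⟩
  | .negSucc _, .ofNat _ =>
    match x.hi with
    | .ofNat _ => ⟨fl (Int.mul y.hi x.lo), cl (Int.mul y.hi x.hi)⟩
    | .negSucc _ => ⟨fl (Int.mul y.hi x.lo), cl (Int.mul y.lo x.hi)⟩
  | .negSucc _, .negSucc _ =>
    ⟨fl (imin (imin (Int.mul x.lo y.lo) (Int.mul x.lo y.hi)) (imin (Int.mul x.hi y.lo) (Int.mul x.hi y.hi))),
     cl (imax (imax (Int.mul x.lo y.lo) (Int.mul x.lo y.hi)) (imax (Int.mul x.hi y.lo) (Int.mul x.hi y.hi)))⟩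

/-- the square. -/
def sqr (x : Iv) : Iv :=
  match x.lo, x.hi with
  | .ofNat a, h => ⟨.ofNat (a * a / 1073741824), cl (Int.mul h h)⟩
  | .negSucc a, .ofNat b => ⟨.ofNat 0, .ofNat (Nat.max ((a + 1) * (a + 1)) (b * b) / 1073741824 + 1)⟩
  | .negSucc a, .negSucc b => ⟨.ofNat ((b + 1) * (b + 1) / 1073741824), .ofNat ((a + 1) * (a + 1) / 1073741824 + 1)⟩

/-- the inverse of a positive interval (correct if `posb x.lo`). -/
def inv (x : Iv) : Iv :=
  match x.lo, x.hi with
  | .ofNat a, .ofNat b => ⟨.ofNat (1152921504606846976 / b), .ofNat (1152921504606846976 / a + 1)⟩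
  | _, _ => ⟨.ofNat 0, .ofNat 0⟩

/-- replace a negative lower endpoint by 0. -/
def clip (x : Iv) : Iv :=
  match x.lo with
  | .ofNat _ => x
  | .negSucc _ => ⟨.ofNat 0, x.hi⟩

/-- Newton iteration for the square root of `n` (no correctness needed). -/
def newt : Nat → Nat → Nat → Nat
  | 0, _, s => s
  | k + 1, n, s => newt k n ((s + n / s) / 2)

/-- an integer with square `≤ n`. -/
def rlo (n : Nat) : Nat :=
  let s := newt 9 n (n / 1073741824 + 32768)
  match Nat.ble (s * s) n with
  | true => s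
  | false => match Nat.ble ((s - 1) * (s - 1)) n with
    | true => s - 1
    | false => 0

/-- an integer with square `≥ n`. -/
def rhi (n : Nat) : Nat :=
  let s := newt 9 n (n / 1073741824 + 32768)
  match Nat.ble n (s * s) with
  | true => s
  | false => match Nat.ble n ((s + 1) * (s + 1)) with
    | true => s + 1
    | false => n + 1

/-- the square root (0 for negative numbers). -/
def sqrt (x : Iv) : Iv :=
  match x.lo, x.hi with
  | .ofNat a, .ofNat b => ⟨.ofNat (rlo (a * 1073741824)), .ofNat (rhi (b * 1073741824))⟩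
  | .negSucc _, .ofNat b => ⟨.ofNat 0, .ofNat (rhi (b * 1073741824))⟩
  | _, .negSucc _ => ⟨.ofNat 0, .ofNat 0⟩

/-- one Horner step `1 - y v / d`, rounded down. -/
def hd (y v d : Nat) : Nat := 1073741824 - (y * v / (d * 1073741824) + 1)

/-- one Horner step `1 - y v / d`, rounded up. -/
def hu (y v d : Nat) : Nat := 1073741824 - y * v / (d * 1073741824)

/-- lower bound of the cosine of `u / 2^30`. -/
def cosLo (u : Nat) : Int :=
  let y := u * u / 1073741824 + 1
  Int.subNatNat 1073741824 (y * hu y (hd y (hu y (hd y 1073741824 90) 56) 30) 12 / (2 * 1073741824) + 1)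

/-- upper bound of the cosine of `u / 2^30`. -/
def cosHi (u : Nat) : Int :=
  let y := u * u / 1073741824
  Int.subNatNat 1073741824 (y * hd y (hu y (hd y (hu y (hd y 1073741824 132) 90) 56) 30) 12 / (2 * 1073741824))

/-- lower bound of the sine of `u / 2^30`. -/
def sinLo (u : Nat) : Nat :=
  let y := u * u / 1073741824 + 1
  u * hd y (hu y (hd y (hu y (hd y 1073741824 110) 72) 42) 20) 6 / 1073741824

/-- upper bound of the sine of `u / 2^30`. -/
def sinHi (u : Nat) : Nat :=
  let y := u * u / 1073741824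
  u * hu y (hd y (hu y (hd y 1073741824 72) 42) 20) 6 / 1073741824 + 1

/-- the interval `[-1, 1]`. -/
def unit : Iv := ⟨.negSucc 1073741823, .ofNat 1073741824⟩

/-- the cosine; `3371549327 / 2^30 < 3.14 < π`. -/
def cos (x : Iv) : Iv :=
  match x.lo, x.hi with
  | .ofNat a, .ofNat b => match Nat.ble b 3371549327 with
    | true => ⟨cosLo b, cosHi a⟩
    | false => unit
  | .negSucc a, .ofNat b => match Nat.ble (Nat.max (a + 1) b) 3371549327 with
    | true => ⟨cosLo (Nat.max (a + 1) b), .ofNat 1073741824⟩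
    | false => unit
  | .negSucc a, .negSucc b => match Nat.ble (a + 1) 3371549327 with
    | true => ⟨cosLo (a + 1), cosHi (b + 1)⟩
    | false => unit
  | .ofNat _, .negSucc _ => unit

/-- lower / upper bound of the sine at an integer point. -/
def sinL : Int → Int
  | .ofNat a => .ofNat (sinLo a)
  | .negSucc a => Int.negOfNat (sinHi (a + 1))

def sinU : Int → Int
  | .ofNat a => .ofNat (sinHi a)
  | .negSucc a => Int.negOfNat (sinLo (a + 1))

/-- the sine; `1686629712 / 2^30 < π / 2`. -/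
def sin (x : Iv) : Iv :=
  match Nat.ble (Nat.max x.lo.natAbs x.hi.natAbs) 1686629712 with
  | true => ⟨sinL x.lo, sinU x.hi⟩
  | false => unit

/-- lower / upper bound of `arctan u / u = 1 - y/3 + y²/5 - ...`, `y = u²`:
`1 - (y/3)(1 - (3y/5)(1 - 5y/7)) ≤ arctan u / u ≤ 1 - (y/3)(1 - 3y/5)`. -/
def acLo (u : Nat) : Nat :=
  let y := u * u / 1073741824 + 1
  let v := 1073741824 - (5 * y / 7 + 1)
  let w := 1073741824 - 3 * (y * v) / 5368709120
  1073741824 - (y * w / 3221225472 + 1)

def acHi (u : Nat) : Nat :=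
  let y := u * u / 1073741824
  let w := 1073741824 - (3 * y / 5 + 1)
  1073741824 - y * w / 3221225472

/-- `arctan u / u` (value 1 at 0) for `u ≥ 0`. -/
def ac (x : Iv) : Iv :=
  match x.lo, x.hi with
  | .ofNat a, .ofNat b => match Nat.ble b 1073741824 with
    | true => ⟨.ofNat (acLo b), .ofNat (acHi a)⟩
    | false => ⟨.ofNat 0, .ofNat 1073741824⟩
  | _, _ => ⟨.ofNat 0, .ofNat 1073741824⟩

/-- lower / upper bound of `sin u / u`. -/
def scLo (u : Nat) : Nat := hd (u * u / 1073741824 + 1) 1073741824 6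

def scHi (u : Nat) : Nat :=
  let y := u * u / 1073741824
  hu y (hd y 1073741824 20) 6

/-- `sin u / u` (value 1 at 0) for `0 ≤ u`, `u ≤ 1`. -/
def sc (x : Iv) : Iv :=
  match x.lo, x.hi with
  | .ofNat a, .ofNat b => match Nat.ble b 1073741824 with
    | true => ⟨.ofNat (scLo b), .ofNat (scHi a)⟩
    | false => ⟨.ofNat 0, .ofNat 1073741824⟩
  | _, _ => ⟨.ofNat 0, .ofNat 1073741824⟩

end Pool.Agent.Work.MP_88b7aa_gt.Iv
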