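import Pool.Agent.Work.MP_88b7aa_gt.Iv.Bas
import Pool.Agent.Work.MP_88b7aa_gt.Iv.Tay

/-!
# Soundness of the sine.  Size: M.

See the header of `CosI` for `hd`, `hu` (`D = 2^30`; `hd y v d` is a lower bound, `hu y v d` an upper bound of `D - y v/(d D)`).
Here `u ≤ 1686629712 < (π/2) D`, so `w = y/D ≤ 2.47`.
`sinLo u`: `y = u²/D + 1`, `w ≥ (u/D)²`; `h110 = 1 - w/110`, `h72 = 1 - w h110/72`, `h42 = 1 - w h72/42`, `h20 = 1 - w h42/20`,
`h6 = 1 - w h20/6`; `√w h6 ≤ sin √w` (`sin_ge_T11`), so `h6 ≤ sin √w/√w ≤ sin (u/D)/(u/D)` because `sin x / x` is decreasing on `(0, π]`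
(or: `h6` is a decreasing function of `w` on `[0, 2.5]`, then apply `sin_ge_T11` at `u/D`).  The code computes a lower bound of `u h6`.
`sinHi u`: `y = u²/D`, `w ≤ (u/D)²`, chain `72, 42, 20, 6`, `sin_le_T9`, and the same monotonicity.
`sin`: `sin` is increasing on `[-π/2, π/2]` and odd; `sinL`, `sinU` at negative integers `-(a+1)`: `-sinHi (a+1)`, `-sinLo (a+1)`.
`Int.negOfNat n = -n`.  If the test fails the result is `[-1,1]`.
-/

namespace Pool.Agent.Work.MP_88b7aa_gt.Iv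

private theorem natDiv_le (n d : ℕ) : ((n / d : ℕ) : ℝ) * d ≤ n := by
  have h : n / d * d ≤ n := Nat.div_mul_le_self n d
  exact_mod_cast h

private theorem lt_natDiv (n d : ℕ) (hd : 0 < d) : (n : ℝ) < (((n / d : ℕ) : ℝ) + 1) * d := by
  have h : n < (n / d + 1) * d := by
    rw [mul_comm]
    exact Nat.lt_mul_div_succ n hd
  exact_mod_cast h

private theorem hd_le_D (y v d : ℕ) : ((hd y v d : ℕ) : ℝ) ≤ 1073741824 := by
  have h : hd y v d ≤ 1073741824 := Nat.sub_le _ _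
  exact_mod_cast h

private theorem hu_le_D (y v d : ℕ) : ((hu y v d : ℕ) : ℝ) ≤ 1073741824 := by
  have h : hu y v d ≤ 1073741824 := Nat.sub_le _ _
  exact_mod_cast h

/-- `hd` from below: with `w = y / D` -/
private theorem hd_bound (y v d : ℕ) (w r D : ℝ) (hD : D = 1073741824) (hw : (y : ℝ) = w * D) (hd6 : 6 ≤ d)
    (hw0 : 0 ≤ w) (hw3 : w ≤ 3) (hv : (v : ℝ) ≤ D) (hr : r * D ≤ v) :
    ((hd y v d : ℕ) : ℝ) ≤ (1 - w * r / d) * D := by
  have hDp : 0 < D := by rw [hD]; norm_num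
  have hdr : (6 : ℝ) ≤ d := by exact_mod_cast hd6
  have hdp : (0 : ℝ) < d := by linarith
  have hv0 : (0 : ℝ) ≤ v := Nat.cast_nonneg v
  -- `w * r / d * D ≤ w * v / d`
  have h1 : w * r / d * D ≤ w * v / d := by
    rw [div_mul_eq_mul_div, div_le_div_iff_of_pos_right hdp]
    nlinarith
  have h2 : w * v / d ≤ D := by
    rw [div_le_iff₀ hdp]
    nlinarith
  have h3 := lt_natDiv (y * v) (d * 1073741824) (by omega)
  set m := y * v / (d * 1073741824) with hm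
  have h4 : w * v / d < m + 1 := by
    rw [div_lt_iff₀ hdp]
    push_cast at h3
    rw [hw, ← hD] at h3
    have h5 : w * v * D < ((m : ℝ) + 1) * d * D := by linarith
    exact lt_of_mul_lt_mul_right h5 hDp.le
  have h6 : hd y v d = 1073741824 - (m + 1) := rfl
  rw [h6]
  rcases le_total (m + 1) 1073741824 with h7 | h7
  · rw [Nat.cast_sub h7]
    push_cast
    rw [← hD]
    linarith
  · rw [Nat.sub_eq_zero_of_le h7]
    push_cast
    linarith

/-- `hu` from above -/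
private theorem hu_bound (y v d : ℕ) (w r D : ℝ) (hD : D = 1073741824) (hw : (y : ℝ) = w * D) (hd6 : 6 ≤ d)
    (hw0 : 0 ≤ w) (hr : (v : ℝ) ≤ r * D) :
    (1 - w * r / d) * D ≤ ((hu y v d : ℕ) : ℝ) := by
  have hDp : 0 < D := by rw [hD]; norm_num
  have hdr : (6 : ℝ) ≤ d := by exact_mod_cast hd6
  have hdp : (0 : ℝ) < d := by linarith
  have h1 : w * v / d ≤ w * r / d * D := by
    rw [div_mul_eq_mul_div, div_le_div_iff_of_pos_right hdp]
    nlinarith
  have h3 := natDiv_le (y * v) (d * 1073741824)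
  set m := y * v / (d * 1073741824) with hm
  have h4 : (m : ℝ) ≤ w * v / d := by
    rw [le_div_iff₀ hdp]
    push_cast at h3
    rw [hw, ← hD] at h3
    have h5 : (m : ℝ) * d * D ≤ w * v * D := by linarith
    exact le_of_mul_le_mul_right h5 hDp
  have h6 : hu y v d = 1073741824 - m := rfl
  rw [h6]
  rcases le_total m 1073741824 with h7 | h7
  · rw [Nat.cast_sub h7]
    push_cast
    rw [← hD]
    linarith
  · rw [Nat.sub_eq_zero_of_le h7]
    have h8 : (1073741824 : ℝ) ≤ m := by exact_mod_cast h7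
    push_cast
    rw [← hD] at h8
    linarith

private theorem poly5_anti (a b : ℝ) (ha : 0 ≤ a) (hab : a ≤ b) (hb : b ≤ 3) :
    1 - b * (1 - b * (1 - b * (1 - b * (1 - b * 1 / 110) / 72) / 42) / 20) / 6 ≤
      1 - a * (1 - a * (1 - a * (1 - a * (1 - a * 1 / 110) / 72) / 42) / 20) / 6 := by
  have h1 : (1 - a * (1 - a * (1 - a * (1 - a * (1 - a * 1 / 110) / 72) / 42) / 20) / 6) -
      (1 - b * (1 - b * (1 - b * (1 - b * (1 - b * 1 / 110) / 72) / 42) / 20) / 6) =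
      (b - a) * (1 / 6 - (b + a) / 120 + (b ^ 2 + b * a + a ^ 2) / 5040 -
        (b ^ 3 + b ^ 2 * a + b * a ^ 2 + a ^ 3) / 362880 +
        (b ^ 4 + b ^ 3 * a + b ^ 2 * a ^ 2 + b * a ^ 3 + a ^ 4) / 39916800) := by
    ring
  have hb0 : 0 ≤ b := ha.trans hab
  have ha3 : a ≤ 3 := hab.trans hb
  have h2 : b ^ 3 ≤ 27 := by nlinarith [mul_nonneg hb0 hb0]
  have h3 : a ^ 3 ≤ 27 := by nlinarith [mul_nonneg ha ha]
  have h4 : b ^ 2 * a ≤ 27 := by nlinarith [mul_nonneg hb0 hb0, mul_nonneg hb0 ha]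
  have h5 : b * a ^ 2 ≤ 27 := by nlinarith [mul_nonneg ha ha, mul_nonneg hb0 ha]
  have h6 : 0 ≤ (b ^ 2 + b * a + a ^ 2) := by positivity
  have h7 : 0 ≤ (b ^ 4 + b ^ 3 * a + b ^ 2 * a ^ 2 + b * a ^ 3 + a ^ 4) := by positivity
  have h8 : 0 ≤ (1 / 6 - (b + a) / 120 + (b ^ 2 + b * a + a ^ 2) / 5040 -
        (b ^ 3 + b ^ 2 * a + b * a ^ 2 + a ^ 3) / 362880 +
        (b ^ 4 + b ^ 3 * a + b ^ 2 * a ^ 2 + b * a ^ 3 + a ^ 4) / 39916800) := by
    linarith
  have h9 := mul_nonneg (sub_nonneg.2 hab) h8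
  linarith

private theorem poly4_anti (a b : ℝ) (ha : 0 ≤ a) (hab : a ≤ b) (hb : b ≤ 3) :
    1 - b * (1 - b * (1 - b * (1 - b * 1 / 72) / 42) / 20) / 6 ≤
      1 - a * (1 - a * (1 - a * (1 - a * 1 / 72) / 42) / 20) / 6 := by
  have h1 : (1 - a * (1 - a * (1 - a * (1 - a * 1 / 72) / 42) / 20) / 6) -
      (1 - b * (1 - b * (1 - b * (1 - b * 1 / 72) / 42) / 20) / 6) =
      (b - a) * (1 / 6 - (b + a) / 120 + (b ^ 2 + b * a + a ^ 2) / 5040 -
        (b ^ 3 + b ^ 2 * a + b * a ^ 2 + a ^ 3) / 362880) := by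
    ring
  have hb0 : 0 ≤ b := ha.trans hab
  have ha3 : a ≤ 3 := hab.trans hb
  have h2 : b ^ 3 ≤ 27 := by nlinarith [mul_nonneg hb0 hb0]
  have h3 : a ^ 3 ≤ 27 := by nlinarith [mul_nonneg ha ha]
  have h4 : b ^ 2 * a ≤ 27 := by nlinarith [mul_nonneg hb0 hb0, mul_nonneg hb0 ha]
  have h5 : b * a ^ 2 ≤ 27 := by nlinarith [mul_nonneg ha ha, mul_nonneg hb0 ha]
  have h6 : 0 ≤ (b ^ 2 + b * a + a ^ 2) := by positivity
  have h8 : 0 ≤ (1 / 6 - (b + a) / 120 + (b ^ 2 + b * a + a ^ 2) / 5040 -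
        (b ^ 3 + b ^ 2 * a + b * a ^ 2 + a ^ 3) / 362880) := by
    linarith
  have h9 := mul_nonneg (sub_nonneg.2 hab) h8
  linarith

theorem sinLo_le (u : Nat) (hu : u ≤ 1686629712) :
    ((sinLo u : Nat) : ℝ) ≤ Real.sin ((u : ℝ) / 1073741824) * 1073741824 := by
  rename' hu => hub
  obtain ⟨D, hD⟩ : ∃ D : ℝ, D = 1073741824 := ⟨_, rfl⟩
  have hDp : 0 < D := by rw [hD]; norm_num
  set y := u * u / 1073741824 + 1 with hy
  have hu0 : (0 : ℝ) ≤ u := Nat.cast_nonneg u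
  have huD : (u : ℝ) ≤ 1686629712 := by exact_mod_cast hub
  obtain ⟨w, hw⟩ : ∃ w : ℝ, w = (y : ℝ) / D := ⟨_, rfl⟩
  obtain ⟨x, hx⟩ : ∃ x : ℝ, x = (u : ℝ) / D := ⟨_, rfl⟩
  have hyw : (y : ℝ) = w * D := by rw [hw, div_mul_cancel₀ _ hDp.ne']
  have hux : (u : ℝ) = x * D := by rw [hx, div_mul_cancel₀ _ hDp.ne']
  have hx0 : 0 ≤ x := by rw [hx]; positivity
  have hx2 : x ≤ 1.6 := by
    rw [hx, div_le_iff₀ hDp, hD]
    linarith
  have h1 := lt_natDiv (u * u) 1073741824 (by norm_num)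
  have h2 := natDiv_le (u * u) 1073741824
  have hxw : x ^ 2 ≤ w := by
    have h3 : ((y : ℕ) : ℝ) = ((u * u / 1073741824 : ℕ) : ℝ) + 1 := by rw [hy]; push_cast; ring
    push_cast at h1
    have h4 : (u : ℝ) * u < y * D := by
      rw [h3, hD]
      push_cast
      exact h1
    rw [hux, hyw] at h4
    have h5 : x ^ 2 * (D * D) < w * (D * D) := by linarith
    exact (lt_of_mul_lt_mul_right h5 (by positivity)).le
  have hw0 : 0 ≤ w := (sq_nonneg x).trans hxw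
  have hw3 : w ≤ 3 := by
    rw [hw, div_le_iff₀ hDp, hD]
    have h3 : u * u ≤ 1686629712 * 1686629712 := Nat.mul_le_mul hub hub
    have h4 : y ≤ 3 * 1073741824 := by
      rw [hy]
      have h5 : u * u / 1073741824 ≤ 1686629712 * 1686629712 / 1073741824 := Nat.div_le_div_right h3
      norm_num at h5 ⊢
      omega
    exact_mod_cast h4
  have e1 := hd_bound y 1073741824 110 w 1 D hD hyw (by norm_num) hw0 hw3 (by rw [hD]; norm_num)
    (by rw [hD]; norm_num)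
  have e2 := hu_bound y _ 72 w _ D hD hyw (by norm_num) hw0 e1
  have l2 : ((hu y (hd y 1073741824 110) 72 : ℕ) : ℝ) ≤ D := by
    rw [hD]
    exact hu_le_D _ _ _
  have e3 := hd_bound y _ 42 w _ D hD hyw (by norm_num) hw0 hw3 l2 e2
  have e4 := hu_bound y _ 20 w _ D hD hyw (by norm_num) hw0 e3
  have l4 : ((hu y (hd y (hu y (hd y 1073741824 110) 72) 42) 20 : ℕ) : ℝ) ≤ D := by
    rw [hD]
    exact hu_le_D _ _ _
  have e5 := hd_bound y _ 6 w _ D hD hyw (by norm_num) hw0 hw3 l4 e4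
  have h6 : sinLo u = u * hd y (hu y (hd y (hu y (hd y 1073741824 110) 72) 42) 20) 6 / 1073741824 := rfl
  rw [h6]
  set v := hd y (hu y (hd y (hu y (hd y 1073741824 110) 72) 42) 20) 6 with hv
  have h7 := natDiv_le (u * v) 1073741824
  push_cast at e5
  have h8 := poly5_anti (x ^ 2) w (sq_nonneg x) hxw hw3
  have h9 := sin_ge_T11 x hx0
  push_cast at h7
  rw [← hD, ← hx]
  rw [← hD] at h7
  have h10 : (u : ℝ) * v ≤ x * D * ((1 - x ^ 2 * (1 - x ^ 2 * (1 - x ^ 2 * (1 - x ^ 2 * (1 - x ^ 2 * 1 / 110) / 72) /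
      42) / 20) / 6) * D) := by
    rw [hux]
    refine mul_le_mul_of_nonneg_left (e5.trans ?_) (by positivity)
    exact mul_le_mul_of_nonneg_right h8 hDp.le
  have h11 : x * D * ((1 - x ^ 2 * (1 - x ^ 2 * (1 - x ^ 2 * (1 - x ^ 2 * (1 - x ^ 2 * 1 / 110) / 72) /
      42) / 20) / 6) * D) = (x - x ^ 3 / 6 + x ^ 5 / 120 - x ^ 7 / 5040 + x ^ 9 / 362880 - x ^ 11 / 39916800) *
        (D * D) := by
    ring
  have h12 : (x - x ^ 3 / 6 + x ^ 5 / 120 - x ^ 7 / 5040 + x ^ 9 / 362880 - x ^ 11 / 39916800) * (D * D) ≤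
      Real.sin x * (D * D) := mul_le_mul_of_nonneg_right h9 (by positivity)
  have h13 : ((u * v / 1073741824 : ℕ) : ℝ) * D ≤ (Real.sin x * D) * D := by linarith
  exact le_of_mul_le_mul_right h13 hDp

theorem le_sinHi (u : Nat) (hu : u ≤ 1686629712) :
    Real.sin ((u : ℝ) / 1073741824) * 1073741824 ≤ ((sinHi u : Nat) : ℝ) := by
  obtain ⟨D, hD⟩ : ∃ D : ℝ, D = 1073741824 := ⟨_, rfl⟩
  have hDp : 0 < D := by rw [hD]; norm_num
  set y := u * u / 1073741824 with hy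
  have hu0 : (0 : ℝ) ≤ u := Nat.cast_nonneg u
  have huD : (u : ℝ) ≤ 1686629712 := by exact_mod_cast hu
  obtain ⟨w, hw⟩ : ∃ w : ℝ, w = (y : ℝ) / D := ⟨_, rfl⟩
  obtain ⟨x, hx⟩ : ∃ x : ℝ, x = (u : ℝ) / D := ⟨_, rfl⟩
  have hyw : (y : ℝ) = w * D := by rw [hw, div_mul_cancel₀ _ hDp.ne']
  have hux : (u : ℝ) = x * D := by rw [hx, div_mul_cancel₀ _ hDp.ne']
  have hx0 : 0 ≤ x := by rw [hx]; positivity
  have hx2 : x ≤ 1.6 := by
    rw [hx, div_le_iff₀ hDp, hD]
    linarith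
  have h2 := natDiv_le (u * u) 1073741824
  have hw0 : 0 ≤ w := by rw [hw]; positivity
  have hxw : w ≤ x ^ 2 := by
    push_cast at h2
    rw [← hD, ← hy, hux, hyw] at h2
    have h5 : w * (D * D) ≤ x ^ 2 * (D * D) := by linarith
    exact le_of_mul_le_mul_right h5 (by positivity)
  have hx3 : x ^ 2 ≤ 3 := by nlinarith
  have hw3 : w ≤ 3 := hxw.trans hx3
  have e1 := hd_bound y 1073741824 72 w 1 D hD hyw (by norm_num) hw0 hw3 (by rw [hD]; norm_num)
    (by rw [hD]; norm_num)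
  have e2 := hu_bound y _ 42 w _ D hD hyw (by norm_num) hw0 e1
  have l2 : ((Pool.Agent.Work.MP_88b7aa_gt.Iv.hu y (hd y 1073741824 72) 42 : ℕ) : ℝ) ≤ D := by
    rw [hD]
    exact hu_le_D _ _ _
  have e3 := hd_bound y _ 20 w _ D hD hyw (by norm_num) hw0 hw3 l2 e2
  have e4 := hu_bound y _ 6 w _ D hD hyw (by norm_num) hw0 e3
  have h6 : sinHi u = u * Pool.Agent.Work.MP_88b7aa_gt.Iv.hu y
    (hd y (Pool.Agent.Work.MP_88b7aa_gt.Iv.hu y (hd y 1073741824 72) 42) 20) 6 / 1073741824 + 1 := rfl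
  rw [h6]
  set v := Pool.Agent.Work.MP_88b7aa_gt.Iv.hu y
    (hd y (Pool.Agent.Work.MP_88b7aa_gt.Iv.hu y (hd y 1073741824 72) 42) 20) 6 with hv
  have h7 := lt_natDiv (u * v) 1073741824 (by norm_num)
  push_cast at e4
  have h8 := poly4_anti w (x ^ 2) hw0 hxw hx3
  have h9 := sin_le_T9 x hx0
  push_cast at h7 ⊢
  rw [← hD, ← hx]
  rw [← hD] at h7
  have h10 : x * D * ((1 - x ^ 2 * (1 - x ^ 2 * (1 - x ^ 2 * (1 - x ^ 2 * 1 / 72) /
      42) / 20) / 6) * D) ≤ (u : ℝ) * v := by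
    rw [hux]
    refine mul_le_mul_of_nonneg_left (le_trans ?_ e4) (by positivity)
    exact mul_le_mul_of_nonneg_right h8 hDp.le
  have h11 : x * D * ((1 - x ^ 2 * (1 - x ^ 2 * (1 - x ^ 2 * (1 - x ^ 2 * 1 / 72) /
      42) / 20) / 6) * D) = (x - x ^ 3 / 6 + x ^ 5 / 120 - x ^ 7 / 5040 + x ^ 9 / 362880) *
        (D * D) := by
    ring
  have h12 : Real.sin x * (D * D) ≤ (x - x ^ 3 / 6 + x ^ 5 / 120 - x ^ 7 / 5040 + x ^ 9 / 362880) * (D * D) :=
    mul_le_mul_of_nonneg_right h9 (by positivity)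
  have h13 : (Real.sin x * D) * D ≤ (((u * v / 1073741824 : ℕ) : ℝ) + 1) * D := by linarith
  exact le_of_mul_le_mul_right h13 hDp

private theorem sinL_le (z : ℤ) (hz : z.natAbs ≤ 1686629712) :
    ((sinL z : ℤ) : ℝ) ≤ Real.sin ((z : ℝ) / 1073741824) * 1073741824 := by
  cases z with
  | ofNat a =>
    have h1 := sinLo_le a hz
    have h2 : ((sinL (Int.ofNat a) : ℤ) : ℝ) = ((sinLo a : ℕ) : ℝ) := by
      show (((Int.ofNat (sinLo a)) : ℤ) : ℝ) = _
      simp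
    rw [h2]
    simpa using h1
  | negSucc a =>
    have h1 := le_sinHi (a + 1) hz
    have h2 : ((sinL (Int.negSucc a) : ℤ) : ℝ) = -((sinHi (a + 1) : ℕ) : ℝ) := by
      show ((Int.negOfNat (sinHi (a + 1)) : ℤ) : ℝ) = _
      rw [Int.negOfNat_eq]
      push_cast
      simp
    rw [h2, Int.cast_negSucc, neg_div, Real.sin_neg]
    push_cast at h1 ⊢
    linarith

private theorem le_sinU (z : ℤ) (hz : z.natAbs ≤ 1686629712) :
    Real.sin ((z : ℝ) / 1073741824) * 1073741824 ≤ ((sinU z : ℤ) : ℝ) := by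
  cases z with
  | ofNat a =>
    have h1 := le_sinHi a hz
    have h2 : ((sinU (Int.ofNat a) : ℤ) : ℝ) = ((sinHi a : ℕ) : ℝ) := by
      show (((Int.ofNat (sinHi a)) : ℤ) : ℝ) = _
      simp
    rw [h2]
    simpa using h1
  | negSucc a =>
    have h1 := sinLo_le (a + 1) hz
    have h2 : ((sinU (Int.negSucc a) : ℤ) : ℝ) = -((sinLo (a + 1) : ℕ) : ℝ) := by
      show ((Int.negOfNat (sinLo (a + 1)) : ℤ) : ℝ) = _
      rw [Int.negOfNat_eq]
      push_cast
      simp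
    rw [h2, Int.cast_negSucc, neg_div, Real.sin_neg]
    push_cast at h1 ⊢
    linarith

theorem mem_sin {u : ℝ} {X : Iv} (hu : Mem u X) : Mem (Real.sin u) (sin X) := by
  have hπ := Real.pi_gt_d20
  obtain ⟨hlo, hhi⟩ := hu
  cases hb : Nat.ble (Nat.max X.lo.natAbs X.hi.natAbs) 1686629712 with
  | true =>
    have h1 : sin X = ⟨sinL X.lo, sinU X.hi⟩ := by
      unfold sin
      rw [hb]
    rw [h1]
    have h2 : max X.lo.natAbs X.hi.natAbs ≤ 1686629712 := Nat.le_of_ble_eq_true hb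
    have h3 : X.lo.natAbs ≤ 1686629712 := (le_max_left _ _).trans h2
    have h4 : X.hi.natAbs ≤ 1686629712 := (le_max_right _ _).trans h2
    have h5 : (-1686629712 : ℝ) ≤ X.lo := by
      have : (-1686629712 : ℤ) ≤ X.lo := by omega
      exact_mod_cast this
    have h6 : (X.hi : ℝ) ≤ 1686629712 := by
      have : X.hi ≤ (1686629712 : ℤ) := by omega
      exact_mod_cast this
    have h7 : (X.lo : ℝ) / 1073741824 ≤ u := by
      rw [div_le_iff₀ (by norm_num)]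
      exact hlo
    have h8 : u ≤ (X.hi : ℝ) / 1073741824 := by
      rw [le_div_iff₀ (by norm_num)]
      exact hhi
    have h9 : -(Real.pi / 2) ≤ (X.lo : ℝ) / 1073741824 := by
      rw [le_div_iff₀ (by norm_num)]
      linarith
    have h10 : (X.hi : ℝ) / 1073741824 ≤ Real.pi / 2 := by
      rw [div_le_iff₀ (by norm_num)]
      linarith
    constructor
    · refine (sinL_le _ h3).trans (mul_le_mul_of_nonneg_right ?_ (by norm_num))
      exact Real.sin_le_sin_of_le_of_le_pi_div_two h9 (h8.trans h10) h7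
    · refine le_trans (mul_le_mul_of_nonneg_right ?_ (by norm_num)) (le_sinU _ h4)
      exact Real.sin_le_sin_of_le_of_le_pi_div_two (h9.trans h7) h10 h8
  | false =>
    have h1 : sin X = unit := by
      unfold sin
      rw [hb]
    rw [h1]
    have h2 := Real.neg_one_le_sin u
    have h3 := Real.sin_le_one u
    constructor
    · have h4 : ((unit.lo : ℤ) : ℝ) = -1073741824 := by
        show ((Int.negSucc 1073741823 : ℤ) : ℝ) = _
        rw [Int.cast_negSucc]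
        norm_num
      rw [h4]
      linarith
    · have h4 : ((unit.hi : ℤ) : ℝ) = 1073741824 := by
        show ((Int.ofNat 1073741824 : ℤ) : ℝ) = _
        norm_num
      rw [h4]
      linarith

end Pool.Agent.Work.MP_88b7aa_gt.Iv
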