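import Pool.Agent.Work.MP_88b7aa_gt.Iv.Bas

/-!
# Soundness of the square root.  Size: S-M.

`rlo_sq : rlo n * rlo n ≤ n` and `rhi_sq : n ≤ rhi n * rhi n` by cases on the tests (nothing about `newt` is needed;
in the last case of `rlo` the value is `0`, in the last case of `rhi` it is `n + 1`).
`√u 2^30 = √(U 2^30)`, `U = u 2^30 ∈ [a, b]`, `a ≥ 0`: `rlo (a 2^30) ≤ √(a 2^30)`, `√(b 2^30) ≤ rhi (b 2^30)`.
Negative lower end point: `0 ≤ √u`.  Negative upper end point: `u < 0`, `√u = 0` (`Real.sqrt_eq_zero_of_nonpos`).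
`sqrt_lo : 0 ≤ (sqrt X).lo` is immediate from the definition.
-/

namespace Pool.Agent.Work.MP_88b7aa_gt.Iv

theorem rlo_sq (n : Nat) : rlo n * rlo n ≤ n := by
  unfold rlo
  generalize newt 9 n (n / 1073741824 + 32768) = s
  dsimp only
  cases h1 : Nat.ble (s * s) n with
  | true => exact Nat.le_of_ble_eq_true h1
  | false =>
    cases h2 : Nat.ble ((s - 1) * (s - 1)) n with
    | true => exact Nat.le_of_ble_eq_true h2
    | false => simp

theorem rhi_sq (n : Nat) : n ≤ rhi n * rhi n := by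
  unfold rhi
  generalize newt 9 n (n / 1073741824 + 32768) = s
  dsimp only
  cases h1 : Nat.ble n (s * s) with
  | true => exact Nat.le_of_ble_eq_true h1
  | false =>
    cases h2 : Nat.ble n ((s + 1) * (s + 1)) with
    | true => exact Nat.le_of_ble_eq_true h2
    | false =>
      show n ≤ (n + 1) * (n + 1)
      nlinarith

/-- `rlo (a D) ≤ √u D` if `a ≤ u D`. -/
private theorem srt_lo {u : ℝ} (a : Nat) (h : (a : ℝ) ≤ u * 1073741824) :
    ((rlo (a * 1073741824) : Nat) : ℝ) ≤ Real.sqrt u * 1073741824 := by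
  have hu : 0 ≤ u := by
    have : (0 : ℝ) ≤ a := Nat.cast_nonneg a
    linarith
  have h1 : ((rlo (a * 1073741824) : Nat) : ℝ) * ((rlo (a * 1073741824) : Nat) : ℝ) ≤ (a : ℝ) * 1073741824 := by
    have h0 := rlo_sq (a * 1073741824)
    have : ((rlo (a * 1073741824) * rlo (a * 1073741824) : Nat) : ℝ) ≤ ((a * 1073741824 : Nat) : ℝ) := by
      exact_mod_cast h0
    push_cast at this
    exact this
  have h2 : Real.sqrt u * Real.sqrt u = u := Real.mul_self_sqrt hu
  have h3 : 0 ≤ Real.sqrt u := Real.sqrt_nonneg u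
  apply abs_le_of_sq_le_sq' _ (by positivity) |>.2
  nlinarith

/-- `√u D ≤ rhi (b D)` if `0 ≤ u` and `u D ≤ b`. -/
private theorem srt_hi {u : ℝ} (b : Nat) (h : u * 1073741824 ≤ (b : ℝ)) :
    Real.sqrt u * 1073741824 ≤ ((rhi (b * 1073741824) : Nat) : ℝ) := by
  rcases le_total u 0 with hu | hu
  · rw [Real.sqrt_eq_zero_of_nonpos hu]
    simp
  have h1 : (b : ℝ) * 1073741824 ≤ ((rhi (b * 1073741824) : Nat) : ℝ) * ((rhi (b * 1073741824) : Nat) : ℝ) := by
    have h0 := rhi_sq (b * 1073741824)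
    have : ((b * 1073741824 : Nat) : ℝ) ≤ ((rhi (b * 1073741824) * rhi (b * 1073741824) : Nat) : ℝ) := by
      exact_mod_cast h0
    push_cast at this
    exact this
  have h2 : Real.sqrt u * Real.sqrt u = u := Real.mul_self_sqrt hu
  have h3 : 0 ≤ Real.sqrt u := Real.sqrt_nonneg u
  apply abs_le_of_sq_le_sq' _ (by positivity) |>.2
  nlinarith

theorem mem_sqrt {u : ℝ} {X : Iv} (hu : Mem u X) : Mem (Real.sqrt u) (sqrt X) := by
  obtain ⟨lo, hi⟩ := X
  obtain ⟨h1, h2⟩ := hu
  dsimp only at h1 h2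
  have h3 : 0 ≤ Real.sqrt u := Real.sqrt_nonneg u
  cases hi with
  | ofNat b =>
    have h2' : u * 1073741824 ≤ (b : ℝ) := by simpa using h2
    cases lo with
    | ofNat a =>
      have h1' : (a : ℝ) ≤ u * 1073741824 := by simpa using h1
      refine ⟨?_, ?_⟩
      · show (((rlo (a * 1073741824) : Nat) : Int) : ℝ) ≤ _
        rw [Int.cast_natCast]
        exact srt_lo a h1'
      · show _ ≤ (((rhi (b * 1073741824) : Nat) : Int) : ℝ)
        rw [Int.cast_natCast]
        exact srt_hi b h2'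
    | negSucc a =>
      refine ⟨?_, ?_⟩
      · show (((0 : Nat) : Int) : ℝ) ≤ _
        rw [Int.cast_natCast]
        simp
      · show _ ≤ (((rhi (b * 1073741824) : Nat) : Int) : ℝ)
        rw [Int.cast_natCast]
        exact srt_hi b h2'
  | negSucc b =>
    have hu0 : u ≤ 0 := by
      have : ((Int.negSucc b : Int) : ℝ) < 0 := by exact_mod_cast Int.negSucc_lt_zero b
      linarith
    have hs : Real.sqrt u = 0 := Real.sqrt_eq_zero_of_nonpos hu0
    rw [hs]
    cases lo with
    | ofNat a => constructor <;> simp [sqrt]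
    | negSucc a => constructor <;> simp [sqrt]

theorem sqrt_lo (X : Iv) : 0 ≤ (sqrt X).lo := by
  obtain ⟨lo, hi⟩ := X
  cases hi with
  | ofNat b =>
    cases lo with
    | ofNat a => exact Int.natCast_nonneg _
    | negSucc a => exact Int.natCast_nonneg _
  | negSucc b =>
    cases lo with
    | ofNat a => exact Int.natCast_nonneg _
    | negSucc a => exact Int.natCast_nonneg _

end Pool.Agent.Work.MP_88b7aa_gt.Iv
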