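import Pool.Agent.Work.MP_88b7aa_gt.Iv.Mv
import Pool.Agent.Work.MP_88b7aa_gt.Iv.MulI
import Pool.Agent.Work.MP_88b7aa_gt.Iv.SqrI
import Pool.Agent.Work.MP_88b7aa_gt.Iv.SrtI
import Pool.Agent.Work.MP_88b7aa_gt.Iv.CosI
import Pool.Agent.Work.MP_88b7aa_gt.Iv.SinI

/-!
# Soundness of `last`.  Size: S-M.

PROOF.  Follow the definition: `Z1` encloses `P.X - P.Y`, `Z2` encloses `P.X + P.Y`, `D` encloses `P.DD`, `dl` encloses
`2 x - 2/3 k`, `r1, r2, r3, r4` the four square roots.  The real value attached to each interval is obtained by the `mem_` lemmas; at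
the end the expressions agree by `ring` (write the value, `have := mem_.. ..`, `convert this using 1; unfold ..; ring`).
The trigonometric arguments: `2 * kap` with `kap ∋ k - x`: `cos (2 (k - x))`; `2 (x + sg)`; `2x - k + sg`; `2 et`; `k - sg`; `k + sg`;
`2x - (sg + k)`; `2x + sg - k`; `2 (x - et)`; `2 (x + et)`; `2x - 2k`; the same as in `EP.DD`, `EP.X`, `EP.Y`.
`neg_one_le_of_leb`, `le_one_of_leb` give `|2x - 2/3 k| ≤ 1`.
-/

namespace Pool.Agent.Work.MP_88b7aa_gt.Iv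

open Pool.Agent.Work.MP_88b7aa_gt.CH

private theorem cg_lst {u v : ℝ} {X : Iv} (h : Mem u X) (e : v = u) : Mem v X := by
  rw [e]
  exact h

private theorem one_lst : Mem 1 (cst 1) := cg_lst (mem_cst 1) (by simp)

private theorem s2_lst {u : ℝ} {X : Iv} (h : Mem u X) : Mem (2 * u) (smul 2 X) := cg_lst (mem_smul 2 h) (by simp)

private theorem s3_lst {u : ℝ} {X : Iv} (h : Mem u X) : Mem (3 * u) (smul 3 X) := cg_lst (mem_smul 3 h) (by simp)

private theorem s4_lst {u : ℝ} {X : Iv} (h : Mem u X) : Mem (4 * u) (smul 4 X) := cg_lst (mem_smul 4 h) (by simp)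

private theorem r12_lst {u : ℝ} {X : Iv} (h : Mem u X) : Mem (u / 2) (rat 1 2 X) :=
  cg_lst (mem_rat 1 2 (by norm_num) h) (by push_cast; ring)

private theorem r23_lst {u : ℝ} {X : Iv} (h : Mem u X) : Mem (2 / 3 * u) (rat 2 3 X) :=
  cg_lst (mem_rat 2 3 (by norm_num) h) (by push_cast; ring)

theorem last_sound (P : EP) (κA κB : ℝ) {U V : Vd} {A1 A2 : Sd} {Pi h h2 rs2 x k kap sg et : Iv}
    (hU : MemD P.νA P.eA κA U) (hV : MemD P.νB P.eB κB V) (h1 : MemS P 1 A1) (h2' : MemS P (-1) A2)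
    (hP : Mem P.ab Pi) (hh : Mem P.h h) (hh2 : Mem (P.h ^ 2) h2) (hrs : Mem (P.A2 * P.B2) rs2) (hx : Mem P.x x)
    (hk : Mem P.k k) (hkap : Mem (P.k - P.x) kap) (hsg : Mem P.sg sg) (het : Mem P.et et)
    (ok : last U V A1 A2 Pi h h2 rs2 x k kap sg et = true) :
    0 < P.X - P.Y ∧ 0 < P.X + P.Y ∧ |2 * P.x - 2 / 3 * P.k| ≤ 1 ∧
      3 * Real.cos (2 * P.x - 2 / 3 * P.k) < P.DD +
        (Real.sqrt ((P.X - P.Y) * (P.X + P.Y)) +
          Real.sqrt (P.q8 1 * P.q8 (-1) * (P.q9 1 * P.q9 (-1)))) / 2 +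
        (Real.sqrt (P.q2 1 * P.q2 (-1) * (P.q3 1 * P.q3 (-1))) +
          Real.sqrt (P.q4 1 * P.q4 (-1) * (P.q5 1 * P.q5 (-1)))) := by
  have x2 := s2_lst hx
  have s2x := mem_sin x2
  have c2x := mem_cos x2
  have hD := mem_add (mem_add (mem_mul (mem_sqr hP) (mem_cos (s2_lst hkap)))
    (mem_mul hh2 (mem_cos (s2_lst (mem_add hx hsg)))))
    (s2_lst (mem_mul (mem_mul hP hh) (mem_cos (mem_add (mem_sub x2 hk) hsg))))
  have c2e := mem_cos (s2_lst het)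
  have c1 := mem_cos (mem_sub hk hsg)
  have c3 := mem_cos (mem_add hk hsg)
  have s1 := mem_sin (mem_sub x2 (mem_add hsg hk))
  have s3 := mem_sin (mem_sub (mem_add x2 hsg) hk)
  have ww := s4_lst (mem_mul hP (mem_mul hU.w hV.w))
  have q1 := mem_mul (mem_mul hU.ce hV.ce) (mem_sub (mem_mul (mem_sub one_lst (mem_mul hU.y hV.y)) s2x)
    (mem_mul (mem_add hU.y hV.y) c2x))
  have P1 := mem_add one_lst (mem_sqr hP)
  have T := mem_add (mem_add (mem_mul hU.a2 (mem_sin (s2_lst (mem_sub hx het))))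
    (mem_mul hV.a2 (mem_sin (s2_lst (mem_add hx het))))) (mem_mul hrs (mem_sin (mem_sub x2 (s2_lst hk))))
  have Z1 := mem_add (mem_add (mem_sub P1 T) (s2_lst (mem_mul hP (mem_sub c2e s2x))))
    (mem_add (mem_mul hh2 (mem_sub (mem_sub one_lst ww) q1))
      (s2_lst (mem_mul hh (mem_add (mem_sub c1 s1) (mem_mul hP (mem_sub c3 s3))))))
  have Z2 := mem_add (mem_add (mem_add P1 T) (s2_lst (mem_mul hP (mem_add c2e s2x))))
    (mem_add (mem_mul hh2 (mem_add (mem_sub one_lst ww) q1))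
      (s2_lst (mem_mul hh (mem_add (mem_add c1 s1) (mem_mul hP (mem_add c3 s3))))))
  have Z1' := cg_lst Z1 (show P.X - P.Y = _ by unfold EP.X EP.Y EP.a EP.b; ring)
  have Z2' := cg_lst Z2 (show P.X + P.Y = _ by unfold EP.X EP.Y EP.a EP.b; ring)
  have dl := mem_sub x2 (r23_lst hk)
  have r1 := mem_sqrt (mem_mul Z1' Z2')
  have r2 := mem_sqrt (mem_mul (mem_mul h1.c8 h2'.c8) (mem_mul h1.c9 h2'.c9))
  have r3 := mem_sqrt (mem_mul (mem_mul h1.c2 h2'.c2) (mem_mul h1.c3 h2'.c3))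
  have r4 := mem_sqrt (mem_mul (mem_mul h1.c4 h2'.c4) (mem_mul h1.c5 h2'.c5))
  have hD' := cg_lst hD (show P.DD = _ by unfold EP.DD; ring)
  have fin := mem_sub (mem_add (mem_add hD' (r12_lst (mem_add r1 r2))) (mem_add r3 r4)) (s3_lst (mem_cos dl))
  simp only [last, Bool.and_eq_true] at ok
  obtain ⟨⟨⟨⟨hz1, hz2⟩, hd1⟩, hd2⟩, hm⟩ := ok
  refine ⟨pos_of_posb Z1' hz1, pos_of_posb Z2' hz2, abs_le.2 ⟨neg_one_le_of_leb dl hd2, le_one_of_leb dl hd1⟩, ?_⟩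
  have := pos_of_posb fin hm
  linarith

end Pool.Agent.Work.MP_88b7aa_gt.Iv
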