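import Pool.Agent.Work.MP_88b7aa_gt.Iv.SidI
import Pool.Agent.Work.MP_88b7aa_gt.Iv.LstI

/-!
# Soundness of `edge`.  Size: M.

`hh` is the value of `h²` computed by the checker.
PROOF.  Let `P` be the edge data of the statement: `x = (n/100) t`, `sg = (εA' + εB')/2`, `et = (εB' - εA')/2`,
`tk = εu + εv - εw - sg`, `k = t + tk`.  `kap` encloses `k - x = ((100-n)/100) t + tk - ((n-100)/100) t` (natural subtraction: one of the two
is zero; if `n ≤ 100` the first coefficient is `1 - n/100` and the second 0, otherwise the first is 0 and the second `n/100 - 1`).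
The interval `h2` encloses `hh` (`inv` of `16 (cos² αu cos² αv)`, flag `posb (mul u.a2 v.a2).lo`, hence
`posb (smul 16 ..).lo`; `clip (1 - cos² t)`, `1 - cos² t ≥ 0`), `h = sqrt h2` encloses `P.h = √hh`, `hh ≥ 0` so `P.h² = hh`.
`rs2` encloses `sin² νA sin² νB`, `d2` encloses `hh - rs2`, flag: `> 0` (`rs`), `g = sqrt d2` encloses `P.g`.
`side_sound` for `true` and `false`, `last_sound`; `0 < cos ν`, `0 < cos ε'` are in `MemD`.
-/

namespace Pool.Agent.Work.MP_88b7aa_gt.Iv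

open Pool.Agent.Work.MP_88b7aa_gt.CH

/-- the value of `h²` -/
noncomputable def hval (αu αv αw νA νB t : ℝ) : ℝ :=
  ((Real.cos (2 * αu) * Real.cos (2 * αv) + Real.cos (2 * αw)) ^ 2 * Real.cos t ^ 2 +
      (Real.cos (2 * αu) * Real.cos (2 * αv) - Real.cos (2 * αw)) ^ 2 * (1 - Real.cos t ^ 2)) *
    (16 * (Real.cos αu ^ 2 * Real.cos αv ^ 2))⁻¹ *
    (Real.sin νA ^ 2 / Real.sin αu ^ 2 * (Real.sin νB ^ 2 / Real.sin αv ^ 2))

private theorem cg_edg {u v : ℝ} {X : Iv} (h : Mem u X) (e : v = u) : Mem v X := by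
  rw [e]
  exact h

private theorem one_edg : Mem 1 (cst 1) := cg_edg (mem_cst 1) (by simp)

private theorem hval_nonneg (αu αv αw νA νB t : ℝ) : 0 ≤ hval αu αv αw νA νB t := by
  unfold hval
  have h1 : 0 ≤ 1 - Real.cos t ^ 2 := by
    have := Real.cos_sq_le_one t
    linarith
  have h2 := mul_nonneg (sq_nonneg (Real.cos (2 * αu) * Real.cos (2 * αv) - Real.cos (2 * αw))) h1
  positivity

private theorem posb_smul {X : Iv} (h : posb X.lo = true) : posb (smul 16 X).lo = true := by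
  rw [posb_iff] at h ⊢
  have e : (smul 16 X).lo = 16 * X.lo := rfl
  rw [e]
  omega

private theorem kap_edg (n : ℕ) (t z : ℝ) {ti T : Iv} (ht : Mem t ti) (hz : Mem z T) :
    Mem (t + z - (n : ℝ) / 100 * t) (sub (add (rat (100 - n) 100 ti) T) (rat (n - 100) 100 ti)) := by
  have h1 := mem_sub (mem_add (mem_rat (100 - n) 100 (by norm_num) ht) hz)
    (mem_rat (n - 100) 100 (by norm_num) ht)
  refine cg_edg h1 ?_
  rcases Nat.le_total n 100 with h | h
  · have e1 : ((100 - n : ℕ) : ℝ) = 100 - n := by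
      rw [Nat.cast_sub h]; norm_num
    have e2 : ((n - 100 : ℕ) : ℝ) = 0 := by
      rw [Nat.sub_eq_zero_of_le h]; norm_num
    rw [e1, e2]
    push_cast
    ring
  · have e1 : ((100 - n : ℕ) : ℝ) = 0 := by
      rw [Nat.sub_eq_zero_of_le h]; norm_num
    have e2 : ((n - 100 : ℕ) : ℝ) = n - 100 := by
      rw [Nat.cast_sub h]; norm_num
    rw [e1, e2]
    push_cast
    ring

theorem edge_sound (αu αv αw εu εv εw νA νB eA eB t : ℝ) (n : ℕ) {u v w : Vb} {U V : Vd} {ti ct : Iv}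
    (hu : MemV αu εu u) (hv : MemV αv εv v) (hw : MemV αw εw w)
    (hU : MemD νA eA (Real.sin νA ^ 2 / Real.sin αu ^ 2) U) (hV : MemD νB eB (Real.sin νB ^ 2 / Real.sin αv ^ 2) V)
    (ht : Mem t ti) (hct : Mem (Real.cos t) ct) (ok : edge u v w U V ti ct n = true) :
    REdge { νA := νA, νB := νB, eA := eA, eB := eB, h := Real.sqrt (hval αu αv αw νA νB t),
            k := t + (εu + εv - εw - (eA + eB) / 2), x := (n : ℝ) / 100 * t } := by
  obtain ⟨P, hP⟩ : ∃ P : EP, P = EP.mk νA νB eA eB (Real.sqrt (hval αu αv αw νA νB t))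
      (t + (εu + εv - εw - (eA + eB) / 2)) ((n : ℝ) / 100 * t) := ⟨_, rfl⟩
  rw [← hP]
  have pA : P.νA = νA := by rw [hP]
  have pB : P.νB = νB := by rw [hP]
  have peA : P.eA = eA := by rw [hP]
  have peB : P.eB = eB := by rw [hP]
  have ph : P.h = Real.sqrt (hval αu αv αw νA νB t) := by rw [hP]
  have pk : P.k = t + (εu + εv - εw - (eA + eB) / 2) := by rw [hP]
  have px : P.x = (n : ℝ) / 100 * t := by rw [hP]
  rw [← pA, ← peA] at hU
  rw [← pB, ← peB] at hV
  have ph2 : P.h ^ 2 = hval αu αv αw νA νB t := by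
    rw [ph, Real.sq_sqrt (hval_nonneg _ _ _ _ _ _)]
  unfold edge at ok
  simp only [] at ok
  split at ok
  · exact absurd ok (by decide)
  · rename_i hfl
    simp only [Bool.and_eq_true] at hfl
    obtain ⟨⟨⟨⟨⟨f1, f2⟩, f3⟩, f4⟩, f5⟩, f6⟩ := hfl
    have mct2 := mem_sqr hct
    have mAB := mem_mul hu.A hv.A
    have mh2 : Mem (P.h ^ 2) _ := cg_edg (mem_mul (mem_mul (mem_add
      (mem_mul (mem_sqr (mem_add mAB hw.A)) mct2)
      (mem_mul (mem_sqr (mem_sub mAB hw.A)) (mem_clip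
        (by have := Real.cos_sq_le_one t; linarith) (mem_sub one_edg mct2))))
      (mem_inv (mem_smul 16 (mem_mul hu.a2 hv.a2)) (posb_smul f2))) (mem_mul hU.k2 hV.k2))
      (by rw [ph2, pA, pB]; unfold hval; push_cast; ring)
    have mh : Mem P.h _ := cg_edg (mem_sqrt mh2) (by rw [ph2, ph])
    have mrs : Mem (P.A2 * P.B2) _ := mem_mul hU.s2 hV.s2
    have md2 := mem_sub mh2 mrs
    have mg : Mem P.g _ := mem_sqrt md2
    have mx : Mem P.x _ := cg_edg (mem_rat n 100 (by norm_num) ht) (by rw [px]; norm_num)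
    have msg : Mem P.sg _ := cg_edg (mem_rat 1 2 (by norm_num) (mem_add hU.e hV.e))
      (by unfold EP.sg; push_cast; ring)
    have met : Mem P.et _ := cg_edg (mem_rat 1 2 (by norm_num) (mem_sub hV.e hU.e))
      (by unfold EP.et; push_cast; ring)
    have mtk := mem_sub (mem_sub (mem_add hu.e hv.e) hw.e) msg
    have psg : P.sg = (eA + eB) / 2 := by unfold EP.sg; rw [peA, peB]
    have mk : Mem P.k _ := cg_edg (mem_add ht mtk) (by rw [pk, psg])
    have mkap : Mem (P.k - P.x) _ := cg_edg (kap_edg n t _ ht mtk) (by rw [pk, px, psg])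
    have mhc : Mem P.hc _ := mem_mul mh (mem_mul hU.ch hV.ch)
    have s1 := side_sound true P _ _ hU hV mh mh2 mg mhc (mem_cos mkap) (mem_sin mkap)
      (mem_cos (mem_add mx msg)) (mem_sin (mem_add mx msg)) (mem_cos (mem_sub mx msg))
      (mem_sin (mem_sub mx msg)) (mem_cos (mem_add mx met)) (mem_sin (mem_add mx met))
      (mem_cos (mem_sub mx met)) (mem_sin (mem_sub mx met)) (mem_cos mx) (mem_sin mx) f5
    have s2 := side_sound false P _ _ hU hV mh mh2 mg mhc (mem_cos mkap) (mem_sin mkap)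
      (mem_cos (mem_add mx msg)) (mem_sin (mem_add mx msg)) (mem_cos (mem_sub mx msg))
      (mem_sin (mem_sub mx msg)) (mem_cos (mem_add mx met)) (mem_sin (mem_add mx met))
      (mem_cos (mem_sub mx met)) (mem_sin (mem_sub mx met)) (mem_cos mx) (mem_sin mx) f6
    have e1 : sgn true = 1 := rfl
    have e2 : sgn false = -1 := rfl
    rw [e1] at s1
    rw [e2] at s2
    obtain ⟨S1, h0, K1, E1, V1, R1, C1, a2, a3, a4, a5, a8, a9⟩ := s1
    obtain ⟨S2, _, K2, E2, V2, R2, C2, b2, b3, b4, b5, b8, b9⟩ := s2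
    obtain ⟨z1, z2, z3, z4⟩ := last_sound P _ _ hU hV S1 S2 (mem_mul hU.a hV.a) mh mh2 mrs mx mk mkap
      msg met ok
    have hrs : 0 < P.h ^ 2 - P.A2 * P.B2 := pos_of_posb md2 f1
    exact ⟨h0, by linarith, hU.a0, hV.a0, hU.c0, hV.c0, ⟨K1, K2⟩, ⟨E1, E2⟩, ⟨V1, V2⟩, ⟨R1, R2⟩,
      ⟨C1, C2⟩, ⟨a2, b2⟩, ⟨a3, b3⟩, ⟨a4, b4⟩, ⟨a5, b5⟩, ⟨a8, b8⟩, ⟨a9, b9⟩, ⟨z1, z2⟩, z3, z4⟩

end Pool.Agent.Work.MP_88b7aa_gt.Iv
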