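import Pool.Agent.Work.MP_88b7aa_gt.Iv.Mv
import Pool.Agent.Work.MP_88b7aa_gt.Iv.MulI
import Pool.Agent.Work.MP_88b7aa_gt.Iv.SqrI
import Pool.Agent.Work.MP_88b7aa_gt.Iv.CosI
import Pool.Agent.Work.MP_88b7aa_gt.Iv.AcI

/-!
# Soundness of `mkS`.  Size: M.

PROOF.  `fin_sound` first: for `ν`, `ε' ∈ [0, π/2]` and `sin ν > 0`.  `w = (ε'/sin² ν) rsc ε' = sin ε'/sin² ν = wf ν ε'` (also if `ε' = 0`);
`ce = cos ε'`, `wd = w (1 + ce)⁻¹` (`mem_inv`: `posb (add (cst 1) ce).lo` follows from `posb ce.lo`), `y, r, rp` as in the definitions of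
`yf, rf, rpf`; `ch = cos ((1/2) ε')`.
`mkS`, case `l = 100` (`Nat.beq l 100 = true`): `ν = α`, `k2 = 1 = sin² α/sin² α`, `wE = (c/100)(ε / sin² α) = ε'/sin² ν`.
Otherwise: `ν = (l/100) α`, `a = cos ν`, `k2 = sin² ν (sin² α)⁻¹` (tests `posb v.s2.lo`, `posb k2.lo`),
`wE = (c/100)(ε/sin² α) k2⁻¹ = ε'/sin² ν`.
`sin ν > 0` because `0 < ν ≤ α < π`.  The components of `ok` follow from `ok = true` by `Bool.and_eq_true`.
`ε' = (c/100) ε ≤ 2 (π/4) = π/2`.
-/

namespace Pool.Agent.Work.MP_88b7aa_gt.Iv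

open Pool.Agent.Work.MP_88b7aa_gt.CH

private theorem mem_congr {u v : ℝ} {X : Iv} (h : u = v) (hu : Mem u X) : Mem v X := h ▸ hu

private theorem wf_eq (ν ε : ℝ) : ε / Real.sin ν ^ 2 * rsc ε = wf ν ε := by
  unfold rsc wf
  by_cases h : ε = 0
  · simp [h]
  · rw [if_neg h]
    field_simp

theorem fin_sound (ν ε κ : ℝ) (hν : 0 < Real.sin ν) (h0 : 0 ≤ ε) (h1 : ε ≤ Real.pi / 2)
    {a a2 s2 k2 e wE : Iv} {b : Bool} (ha : Mem (Real.cos ν) a) (ha2 : Mem (Real.cos ν ^ 2) a2)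
    (hs2 : Mem (Real.sin ν ^ 2) s2) (hk : Mem κ k2) (he : Mem ε e) (hw : Mem (ε / Real.sin ν ^ 2) wE)
    (ok : (fin a a2 s2 k2 e wE b).ok = true) :
    b = true ∧ MemD ν ε κ (fin a a2 s2 k2 e wE b) := by
  have ok' : (b && posb (cos e).lo && posb a.lo) = true := ok
  rw [Bool.and_eq_true, Bool.and_eq_true] at ok'
  obtain ⟨⟨hb, hce⟩, hal⟩ := ok'
  refine ⟨hb, ?_⟩
  have hpi := Real.pi_pos
  have hce' : Mem (Real.cos ε) (cos e) := mem_cos he
  have hw' : Mem (wf ν ε) (mul wE (sc e)) :=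
    mem_congr (wf_eq ν ε) (mem_mul hw (mem_sc h0 (by linarith) he))
  have h1c : Mem (1 : ℝ) (cst 1) := by
    have := mem_cst 1
    rwa [Nat.cast_one] at this
  have hpos1 : posb (add (cst 1) (cos e)).lo = true := by
    rw [posb_iff] at hce ⊢
    change 0 < (Int.ofNat (1 * 1073741824) : ℤ) + (cos e).lo
    have : (Int.ofNat (1 * 1073741824) : ℤ) = 1073741824 := rfl
    rw [this]
    omega
  have hwd : Mem (wf ν ε * (1 + Real.cos ε)⁻¹) (mul (mul wE (sc e)) (inv (add (cst 1) (cos e)))) :=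
    mem_mul hw' (mem_inv (mem_add h1c hce') hpos1)
  exact
    { a := ha
      a2 := ha2
      s2 := hs2
      e := he
      ce := hce'
      w := hw'
      y := mem_mul (mem_add h1c ha2) (mem_mul hw' (mem_inv hce' hce))
      r := mem_mul (mem_sqr (mem_add h1c ha)) hwd
      rp := mem_mul (mem_sqr (mem_sub h1c ha)) hwd
      ch := by
        have := mem_cos (mem_rat 1 2 (by norm_num) he)
        refine mem_congr ?_ this
        congr 1
        push_cast
        ring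
      k2 := hk
      a0 := pos_of_posb ha hal
      c0 := pos_of_posb hce' hce }

theorem mkS_sound (α ε : ℝ) (V : Vb) (al : Iv) (c l : ℕ) (hV : MemV α ε V) (hal : Mem α al) (hα : 0 < α)
    (hα' : α < Real.pi / 2) (h0 : 0 ≤ ε) (h1 : ε ≤ Real.pi / 4) (hl : 0 < l) (hl' : l ≤ 100) (hc : c ≤ 200)
    (ok : (mkS V al c l).ok = true) :
    V.ok = true ∧ MemD ((l : ℝ) / 100 * α) ((c : ℝ) / 100 * ε)
      (Real.sin ((l : ℝ) / 100 * α) ^ 2 / Real.sin α ^ 2) (mkS V al c l) := by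
  have hpi := Real.pi_pos
  have hsα : 0 < Real.sin α := Real.sin_pos_of_pos_of_lt_pi hα (by linarith)
  have hc0 : (0 : ℝ) ≤ (c : ℝ) := Nat.cast_nonneg c
  have hc2 : (c : ℝ) ≤ 200 := by exact_mod_cast hc
  have hε0 : 0 ≤ (c : ℝ) / 100 * ε := by positivity
  have hε1 : (c : ℝ) / 100 * ε ≤ Real.pi / 2 := by
    have : (c : ℝ) / 100 ≤ 2 := by linarith
    calc (c : ℝ) / 100 * ε ≤ 2 * ε := mul_le_mul_of_nonneg_right this h0
      _ ≤ Real.pi / 2 := by linarith
  have hl0 : (0 : ℝ) < (l : ℝ) := by exact_mod_cast hl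
  have hl1 : (l : ℝ) ≤ 100 := by exact_mod_cast hl'
  have hν0 : 0 < (l : ℝ) / 100 * α := by positivity
  have hν1 : (l : ℝ) / 100 * α ≤ α := by
    have : (l : ℝ) / 100 ≤ 1 := by linarith
    calc (l : ℝ) / 100 * α ≤ 1 * α := mul_le_mul_of_nonneg_right this hα.le
      _ = α := one_mul α
  have hsν : 0 < Real.sin ((l : ℝ) / 100 * α) := Real.sin_pos_of_pos_of_lt_pi hν0 (by linarith)
  have he : Mem ((c : ℝ) / 100 * ε) (clip (rat c 100 V.e)) := by
    have h := mem_rat c 100 (by norm_num) hV.e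
    have h' : Mem ((c : ℝ) / 100 * ε) (rat c 100 V.e) := mem_congr (by push_cast; ring) h
    exact mem_clip hε0 h'
  have hE : Mem ((c : ℝ) / 100 * (ε / Real.sin α ^ 2)) (rat c 100 V.E) := by
    have h := mem_rat c 100 (by norm_num) hV.E
    exact mem_congr (by push_cast; ring) h
  unfold mkS at ok ⊢
  cases hb : Nat.beq l 100 with
  | true =>
    rw [hb] at ok
    have hle : l = 100 := Nat.eq_of_beq_eq_true hb
    have hν : (l : ℝ) / 100 * α = α := by
      rw [hle]; push_cast; ring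
    rw [hν]
    have hk : Mem (Real.sin α ^ 2 / Real.sin α ^ 2) (cst 1) := by
      have := mem_cst 1
      refine mem_congr ?_ this
      rw [div_self (by positivity)]
      push_cast; rfl
    exact fin_sound α _ _ hsα hε0 hε1 hV.a hV.a2 hV.s2 hk he (mem_congr (by ring) hE) ok
  | false =>
    rw [hb] at ok
    simp only at ok ⊢
    have hok := ok
    have hok' : ((V.ok && posb V.s2.lo && posb (mul (clip (sub (cst 1) (sqr (cos (rat l 100 al))))) (inv V.s2)).lo) &&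
      posb (cos (clip (rat c 100 V.e))).lo && posb (cos (rat l 100 al)).lo) = true := ok
    simp only [Bool.and_eq_true] at hok'
    obtain ⟨⟨⟨⟨hVok, hs2p⟩, hk2p⟩, -⟩, -⟩ := hok'
    have ha : Mem (Real.cos ((l : ℝ) / 100 * α)) (cos (rat l 100 al)) := by
      have h := mem_rat l 100 (by norm_num) hal
      exact mem_cos (mem_congr (by push_cast; ring) h)
    have ha2 : Mem (Real.cos ((l : ℝ) / 100 * α) ^ 2) (sqr (cos (rat l 100 al))) := mem_sqr ha
    have h1c : Mem (1 : ℝ) (cst 1) := by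
      have := mem_cst 1
      rwa [Nat.cast_one] at this
    have hs2 : Mem (Real.sin ((l : ℝ) / 100 * α) ^ 2) (clip (sub (cst 1) (sqr (cos (rat l 100 al))))) := by
      refine mem_clip (by positivity) (mem_congr ?_ (mem_sub h1c ha2))
      have := Real.sin_sq_add_cos_sq ((l : ℝ) / 100 * α)
      linarith
    have hk2 : Mem (Real.sin ((l : ℝ) / 100 * α) ^ 2 / Real.sin α ^ 2)
        (mul (clip (sub (cst 1) (sqr (cos (rat l 100 al))))) (inv V.s2)) := by
      exact mem_congr (div_eq_mul_inv _ _).symm (mem_mul hs2 (mem_inv hV.s2 hs2p))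
    have hwE : Mem ((c : ℝ) / 100 * ε / Real.sin ((l : ℝ) / 100 * α) ^ 2)
        (mul (rat c 100 V.E) (inv (mul (clip (sub (cst 1) (sqr (cos (rat l 100 al))))) (inv V.s2)))) := by
      refine mem_congr ?_ (mem_mul hE (mem_inv hk2 hk2p))
      rw [inv_div]
      have e1 : Real.sin α ^ 2 ≠ 0 := by positivity
      have e2 : Real.sin ((l : ℝ) / 100 * α) ^ 2 ≠ 0 := by positivity
      generalize Real.sin α ^ 2 = A at e1 ⊢
      generalize Real.sin ((l : ℝ) / 100 * α) ^ 2 = B at e2 ⊢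
      field_simp
    obtain ⟨-, hD⟩ := fin_sound ((l : ℝ) / 100 * α) _ _ hsν hε0 hε1 ha ha2 hs2 hk2 he hwE ok
    exact ⟨hVok, hD⟩

end Pool.Agent.Work.MP_88b7aa_gt.Iv
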