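import Pool.Agent.Work.MP_88b7aa_gt.Iv.Mv
import Pool.Agent.Work.MP_88b7aa_gt.Iv.MulI
import Pool.Agent.Work.MP_88b7aa_gt.Iv.SqrI
import Pool.Agent.Work.MP_88b7aa_gt.Iv.AcI

/-!
# Soundness of `mkV`.  Size: S-M.

PROOF.  `A = cos 2α`, `D = denr A B C t`, `q = sin 2t * D⁻¹`, `u = (1 - A²) q`, `c = rac u`; `ok` gives `D > 0` (`pos_of_posb`), the positivity of
the lower end of `mul B C` (needed for `mem_inv`) and `0 < cos α`.  `u ≥ 0` (`|A| ≤ 1`, `sin 2t ≥ 0`, `D > 0`).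
`e = (1/2) (u c) = arctan u / 2 = epsr A B C t` (`u c = arctan u`, also for `u = 0`).
`E = 2 (cos² α (q c))`: `1 - A² = sin² 2α = 4 cos² α sin² α`, so `e = 2 cos² α sin² α q c` and `E = e / sin² α`.
`s2 = 1 - cos² α = sin² α ≥ 0` (`mem_clip`).  `mem_rat 1 2`, `mem_smul 2`, `mem_cst 1`, `mem_cst 2` (cast the numerals).
-/

namespace Pool.Agent.Work.MP_88b7aa_gt.Iv

open Pool.Agent.Work.MP_88b7aa_gt.CH

private theorem mul_rac (u : ℝ) : u * rac u = Real.arctan u := by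
  unfold rac
  by_cases h : u = 0
  · subst h
    simp
  · rw [if_neg h]
    field_simp

private theorem one_sub_cos (α : ℝ) : 1 - Real.cos (2 * α) ^ 2 = 4 * (Real.cos α ^ 2 * Real.sin α ^ 2) := by
  have h1 : Real.sin (2 * α) ^ 2 + Real.cos (2 * α) ^ 2 = 1 := Real.sin_sq_add_cos_sq _
  have h2 : Real.sin (2 * α) = 2 * Real.sin α * Real.cos α := Real.sin_two_mul α
  rw [h2] at h1
  linarith [h1, (show (2 * Real.sin α * Real.cos α) ^ 2 = 4 * (Real.cos α ^ 2 * Real.sin α ^ 2) by ring)]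

private theorem u_nonneg (α t rB rC : ℝ) (h0 : 0 ≤ Real.sin (2 * t))
    (hd : 0 < denr (Real.cos (2 * α)) rB rC t) :
    0 ≤ (1 - Real.cos (2 * α) ^ 2) * (Real.sin (2 * t) * (denr (Real.cos (2 * α)) rB rC t)⁻¹) := by
  rw [one_sub_cos]
  positivity

theorem mkV_sound (α t rB rC : ℝ) (hα : 0 < Real.sin α) (h0 : 0 ≤ Real.sin (2 * t)) {a a2 A B C cth sth : Iv}
    (ha : Mem (Real.cos α) a) (ha2 : Mem (Real.cos α ^ 2) a2) (hA : Mem (Real.cos (2 * α)) A) (hB : Mem rB B)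
    (hC : Mem rC C) (hc : Mem (Real.cos (2 * t)) cth) (hs : Mem (Real.sin (2 * t)) sth)
    (ok : (mkV a a2 A B C cth sth).ok = true) :
    0 < Real.cos α ∧ 0 < denr (Real.cos (2 * α)) rB rC t ∧
      MemV α (epsr (Real.cos (2 * α)) rB rC t) (mkV a a2 A B C cth sth) := by
  have ok' : posb (add (mul (add (cst 1) (sqr A)) cth) (mul A (rho B C))).lo = true ∧
      posb (mul B C).lo = true ∧ posb a.lo = true := by
    have h := ok
    simp only [mkV, Bool.and_eq_true] at h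
    exact ⟨h.1.1, h.1.2, h.2⟩
  obtain ⟨ok1, ok2, ok3⟩ := ok'
  have h1 : Mem (1 : ℝ) (cst 1) := by
    have := mem_cst 1
    rwa [Nat.cast_one] at this
  have h2 : Mem (2 : ℝ) (cst 2) := by
    have := mem_cst 2
    rwa [Nat.cast_ofNat] at this
  have hD : Mem (denr (Real.cos (2 * α)) rB rC t)
      (add (mul (add (cst 1) (sqr A)) cth) (mul A (rho B C))) :=
    mem_add (mem_mul (mem_add h1 (mem_sqr hA)) hc)
      (mem_mul hA (mem_add h2 (mem_mul (mem_sqr (mem_sub hB hC)) (mem_inv (mem_mul hB hC) ok2))))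
  have hDpos := pos_of_posb hD ok1
  have hq := mem_mul hs (mem_inv hD ok1)
  have hu0 := u_nonneg α t rB rC h0 hDpos
  have hu := mem_clip hu0 (mem_mul (mem_sub h1 (mem_sqr hA)) hq)
  have hcc := mem_ac hu0 hu
  have hα' : Real.sin α ≠ 0 := hα.ne'
  refine ⟨pos_of_posb ha ok3, hDpos, ?_⟩
  constructor
  · exact ha
  · exact ha2
  · have h3 : Real.sin α ^ 2 = 1 - Real.cos α ^ 2 := by
      have := Real.sin_sq_add_cos_sq α
      linarith
    have h4 : 0 ≤ 1 - Real.cos α ^ 2 := h3 ▸ sq_nonneg _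
    rw [h3]
    exact mem_clip h4 (mem_sub h1 ha2)
  · exact hA
  · have h3 := mem_rat 1 2 (by norm_num) (mem_mul hu hcc)
    rw [mul_rac] at h3
    have h4 : ((1 : ℕ) : ℝ) / ((2 : ℕ) : ℝ) * Real.arctan ((1 - Real.cos (2 * α) ^ 2) *
        (Real.sin (2 * t) * (denr (Real.cos (2 * α)) rB rC t)⁻¹)) =
        epsr (Real.cos (2 * α)) rB rC t := by
      unfold epsr
      push_cast
      ring
    rw [h4] at h3
    exact h3
  · have h3 := mem_smul 2 (mem_mul ha2 (mem_mul hq hcc))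
    have h4 : ((2 : ℕ) : ℝ) * (Real.cos α ^ 2 * (Real.sin (2 * t) * (denr (Real.cos (2 * α)) rB rC t)⁻¹ *
        rac ((1 - Real.cos (2 * α) ^ 2) *
        (Real.sin (2 * t) * (denr (Real.cos (2 * α)) rB rC t)⁻¹)))) =
        epsr (Real.cos (2 * α)) rB rC t / Real.sin α ^ 2 := by
      unfold epsr
      rw [← mul_rac, eq_div_iff (by positivity)]
      set q := Real.sin (2 * t) * (denr (Real.cos (2 * α)) rB rC t)⁻¹ with hqd
      set c := rac ((1 - Real.cos (2 * α) ^ 2) * q) with hcd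
      rw [one_sub_cos]
      push_cast
      ring
    rw [h4] at h3
    exact h3

theorem eps_nonneg (α t rB rC : ℝ) (h0 : 0 ≤ Real.sin (2 * t)) (hd : 0 < denr (Real.cos (2 * α)) rB rC t) :
    0 ≤ epsr (Real.cos (2 * α)) rB rC t ∧ epsr (Real.cos (2 * α)) rB rC t ≤ Real.pi / 4 := by
  have hu0 := u_nonneg α t rB rC h0 hd
  unfold epsr
  constructor
  · have := Real.arctan_nonneg.2 hu0
    linarith
  · have := Real.arctan_lt_pi_div_two ((1 - Real.cos (2 * α) ^ 2) *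
        (Real.sin (2 * t) * (denr (Real.cos (2 * α)) rB rC t)⁻¹))
    linarith

end Pool.Agent.Work.MP_88b7aa_gt.Iv
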