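import Pool.Agent.Work.MP_88b7aa_gt.Iv.HvM
import Pool.Agent.Work.MP_88b7aa_gt.Iv.VrtI
import Pool.Agent.Work.MP_88b7aa_gt.Iv.MkSI
import Pool.Agent.Work.MP_88b7aa_gt.CH.Tau

/-!
# Soundness of `good`.  Size: M.

The triangle is `α = ![q, p, r]` (vertex 0 has half angle `q`, vertex 1 `p`, vertex 2 `r`).
PROOF.  `ct, st` enclose `cos t, sin t`; `cth = 2 ct² - 1`, `sth = 2 (st ct)` enclose `cos 2t, sin 2t`; `Ap = 2 cos² p - 1` encloses `cos 2p`.
From `good .. = true`: each `edge`, hence `mkS(..).ok` (inside `edge`: the flags `U.ok`, `V.ok`) and so `vp.ok, vq.ok, vr.ok`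
(`mkS_sound` returns `V.ok = true`; but it needs `MemV`, which needs `ok`: get `V.ok = true` from `(mkS V ..).ok = true` directly:
`fin .. ok` contains the flag `v.ok`).  `mkV_sound` (with `rB, rC` = the cosines of the other two vertices) gives `denr > 0` and `MemV`;
`denv α t e = denr ..` up to `denr_symm`, `epsv` up to `epsr_symm`: e.g. `e = 1`: `denv α t 1 = denr (cos 2p) (cos 2r) (cos 2q) t`, the checker
uses `(Ap, Aq, Ar)`.  `eps_nonneg` gives `0 ≤ ε ≤ π/4`.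
Take `c = ![c2/100, c1/100, c3/100]`, `l = ![l2/100, l1/100, l3/100]`, and `x = ![n1/100 t, n2/100 t, n3/100 t]`
(edge 1 of the checker is `i = 0`: end points `0` (`q`), `2` (`r`), opposite `1` (`p`); edge 2 is `i = 1`: end points `1` (`p`), `0` (`q`), opposite
`2` (`r`); edge 3 is `i = 2`: end points `2` (`r`), `1` (`p`), opposite `0` (`q`)).  `(200 - c)/100 = 2 - c/100` (`c ≤ 200`).
`edge_sound`, then `HvM`; `tauv α t i = ε_i + ε_{i+2} - ε_{i+1}` and `k = t + tauv - (eA + eB)/2`.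
-/

namespace Pool.Agent.Work.MP_88b7aa_gt.Iv

open Pool.Agent.Work.MP_88b7aa_gt.CH

private theorem god_edge_ok {u v w : Vb} {U V : Vd} {t ct : Iv} {n : ℕ} (h : edge u v w U V t ct n = true) :
    U.ok = true ∧ V.ok = true := by
  unfold edge at h
  simp only at h
  split at h
  · exact absurd h (by simp)
  · rename_i hc
    simp only [Bool.and_eq_true] at hc
    exact ⟨hc.1.1.1.2, hc.1.1.2⟩

private theorem god_mkS_ok {v : Vb} {al : Iv} {c l : ℕ} (h : (mkS v al c l).ok = true) : v.ok = true := by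
  unfold mkS at h
  split at h
  · simp only [fin, Bool.and_eq_true] at h
    exact h.1.1
  · simp only [fin, Bool.and_eq_true] at h
    exact h.1.1.1.1

private theorem god_edge (α : Fin 3 → ℝ) (t : ℝ) (i : Fin 3) (hα : ∀ e, 0 < α e ∧ α e ≤ Real.pi / 6)
    (he : ∀ e, 0 ≤ epsv α t e ∧ epsv α t e ≤ Real.pi / 4) {u v w : Vb} {alu alv ti ct : Iv}
    (cu cv lu lv n : ℕ) (hu : MemV (α i) (epsv α t i) u) (hv : MemV (α (i + 2)) (epsv α t (i + 2)) v)
    (hw : MemV (α (i + 1)) (epsv α t (i + 1)) w) (hau : Mem (α i) alu) (hav : Mem (α (i + 2)) alv)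
    (ht : Mem t ti) (hct : Mem (Real.cos t) ct) (hlu : 0 < lu) (hlu' : lu ≤ 100) (hlv : 0 < lv) (hlv' : lv ≤ 100)
    (hcu : cu ≤ 200) (hcv : cv ≤ 200)
    (ok : edge u v w (mkS u alu cu lu) (mkS v alv (200 - cv) lv) ti ct n = true) :
    EdgeGood ((lu : ℝ) / 100 * α i) ((lv : ℝ) / 100 * α (i + 2))
      (t + tauv α t i - ((cu : ℝ) / 100 * epsv α t i + (2 - (cv : ℝ) / 100) * epsv α t (i + 2)) / 2)
      (((cu : ℝ) / 100 * epsv α t i + (2 - (cv : ℝ) / 100) * epsv α t (i + 2)) / 2)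
      (((2 - (cv : ℝ) / 100) * epsv α t (i + 2) - (cu : ℝ) / 100 * epsv α t i) / 2)
      (Hv α t i) ((n : ℝ) / 100 * t) := by
  have hpi := Real.pi_pos
  have hlt : ∀ e, α e < Real.pi / 2 := fun e => by have := (hα e).2; linarith
  obtain ⟨okU, okV⟩ := god_edge_ok ok
  obtain ⟨-, hU⟩ := mkS_sound (α i) (epsv α t i) u alu cu lu hu hau (hα i).1 (hlt i) (he i).1 (he i).2 hlu hlu' hcu okU
  obtain ⟨-, hV⟩ := mkS_sound (α (i + 2)) (epsv α t (i + 2)) v alv (200 - cv) lv hv hav (hα (i + 2)).1 (hlt (i + 2))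
    (he (i + 2)).1 (he (i + 2)).2 hlv hlv' (Nat.sub_le _ _) okV
  have hcast : ((200 - cv : ℕ) : ℝ) / 100 = 2 - (cv : ℝ) / 100 := by
    rw [Nat.cast_sub hcv]
    push_cast
    ring
  rw [hcast] at hV
  have h := edge_sound (α i) (α (i + 2)) (α (i + 1)) (epsv α t i) (epsv α t (i + 2)) (epsv α t (i + 1))
    ((lu : ℝ) / 100 * α i) ((lv : ℝ) / 100 * α (i + 2)) ((cu : ℝ) / 100 * epsv α t i)
    ((2 - (cv : ℝ) / 100) * epsv α t (i + 2)) t n hu hv hw hU hV ht hct ok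
  have hsin : ∀ (l : ℕ) (e : Fin 3), 0 < l → l ≤ 100 → 0 < Real.sin ((l : ℝ) / 100 * α e) := by
    intro l e hl hl'
    have h1 : (0 : ℝ) < l := by exact_mod_cast hl
    have h2 : (l : ℝ) ≤ 100 := by exact_mod_cast hl'
    have h3 := (hα e).1
    have h4 : (l : ℝ) / 100 * α e ≤ 1 * α e := by
      apply mul_le_mul_of_nonneg_right _ h3.le
      rw [div_le_one (by norm_num)]
      exact h2
    apply Real.sin_pos_of_pos_of_lt_pi (by positivity)
    have := hlt e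
    linarith
  have g := HvM α t i hα ((lu : ℝ) / 100 * α i) ((lv : ℝ) / 100 * α (i + 2)) ((cu : ℝ) / 100 * epsv α t i)
    ((2 - (cv : ℝ) / 100) * epsv α t (i + 2))
    (t + (epsv α t i + epsv α t (i + 2) - epsv α t (i + 1) -
      ((cu : ℝ) / 100 * epsv α t i + (2 - (cv : ℝ) / 100) * epsv α t (i + 2)) / 2))
    ((n : ℝ) / 100 * t) (hsin lu i hlu hlu') (hsin lv (i + 2) hlv hlv') h
  have hk : t + tauv α t i - ((cu : ℝ) / 100 * epsv α t i + (2 - (cv : ℝ) / 100) * epsv α t (i + 2)) / 2 =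
      t + (epsv α t i + epsv α t (i + 2) - epsv α t (i + 1) -
      ((cu : ℝ) / 100 * epsv α t i + (2 - (cv : ℝ) / 100) * epsv α t (i + 2)) / 2) := by
    unfold tauv
    ring
  rw [hk]
  exact g

private theorem god_cos2 {x : ℝ} {X : Iv} (h : Mem (Real.cos x ^ 2) X) :
    Mem (Real.cos (2 * x)) (sub (smul 2 X) (cst 1)) := by
  have h1 := mem_sub (mem_smul 2 h) (mem_cst 1)
  rw [Real.cos_two_mul]
  simpa using h1

theorem good_sound (n1 n2 n3 c1 c2 c3 l1 l2 l3 : ℕ) (B : Box) (p q r t : ℝ) (hB : InBox p q r t B)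
    (hp : 0 < p ∧ p ≤ Real.pi / 6) (hq : 0 < q ∧ q ≤ Real.pi / 6) (hr : 0 < r ∧ r ≤ Real.pi / 6)
    (ht : 0 ≤ t) (ht' : t < Real.pi / 2) (ok : good n1 n2 n3 c1 c2 c3 l1 l2 l3 B = true) :
    TriGood ![q, p, r] t := by
  have hpi := Real.pi_pos
  have hct : Mem (Real.cos t) (cos B.t) := mem_cos hB.t
  have hst : Mem (Real.sin t) (sin B.t) := mem_sin hB.t
  have hcth : Mem (Real.cos (2 * t)) (sub (smul 2 (sqr (cos B.t))) (cst 1)) := god_cos2 (mem_sqr hct)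
  have hsth : Mem (Real.sin (2 * t)) (smul 2 (mul (sin B.t) (cos B.t))) := by
    have h1 := mem_smul 2 (mem_mul hst hct)
    have h2 : Real.sin (2 * t) = ((2 : ℕ) : ℝ) * (Real.sin t * Real.cos t) := by
      rw [Real.sin_two_mul]
      push_cast
      ring
    rw [h2]
    exact h1
  have h0 : 0 ≤ Real.sin (2 * t) := Real.sin_nonneg_of_nonneg_of_le_pi (by linarith) (by linarith)
  have hap : Mem (Real.cos p) (cos B.p) := mem_cos hB.p
  have haq : Mem (Real.cos q) (cos B.q) := mem_cos hB.q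
  have har : Mem (Real.cos r) (cos B.r) := mem_cos hB.r
  have hap2 := mem_sqr hap
  have haq2 := mem_sqr haq
  have har2 := mem_sqr har
  have hAp := god_cos2 hap2
  have hAq := god_cos2 haq2
  have hAr := god_cos2 har2
  have hsp : 0 < Real.sin p := Real.sin_pos_of_pos_of_lt_pi hp.1 (by linarith [hp.2])
  have hsq : 0 < Real.sin q := Real.sin_pos_of_pos_of_lt_pi hq.1 (by linarith [hq.2])
  have hsr : 0 < Real.sin r := Real.sin_pos_of_pos_of_lt_pi hr.1 (by linarith [hr.2])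
  unfold good at ok
  simp only [Bool.and_eq_true] at ok
  obtain ⟨⟨⟨⟨⟨⟨⟨⟨⟨⟨⟨hc1, hc2⟩, hc3⟩, hl1⟩, hl2⟩, hl3⟩, kl1⟩, kl2⟩, kl3⟩, ok1⟩, ok2⟩, ok3⟩ := ok
  have hc1 := Nat.le_of_ble_eq_true hc1
  have hc2 := Nat.le_of_ble_eq_true hc2
  have hc3 := Nat.le_of_ble_eq_true hc3
  have hl1 := Nat.le_of_ble_eq_true hl1
  have hl2 := Nat.le_of_ble_eq_true hl2
  have hl3 := Nat.le_of_ble_eq_true hl3
  have kl1 : 0 < l1 := Nat.le_of_ble_eq_true kl1
  have kl2 : 0 < l2 := Nat.le_of_ble_eq_true kl2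
  have kl3 : 0 < l3 := Nat.le_of_ble_eq_true kl3
  have okq := god_mkS_ok (god_edge_ok ok1).1
  have okr := god_mkS_ok (god_edge_ok ok1).2
  have okp := god_mkS_ok (god_edge_ok ok2).1
  obtain ⟨-, dp, Vp⟩ := mkV_sound p t (Real.cos (2 * q)) (Real.cos (2 * r)) hsp h0 hap hap2 hAp hAq hAr hcth hsth okp
  obtain ⟨-, dq, Vq⟩ := mkV_sound q t (Real.cos (2 * p)) (Real.cos (2 * r)) hsq h0 haq haq2 hAq hAp hAr hcth hsth okq
  obtain ⟨-, dr, Vr⟩ := mkV_sound r t (Real.cos (2 * p)) (Real.cos (2 * q)) hsr h0 har har2 hAr hAp hAq hcth hsth okr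
  have ep := eps_nonneg p t (Real.cos (2 * q)) (Real.cos (2 * r)) h0 dp
  have eq := eps_nonneg q t (Real.cos (2 * p)) (Real.cos (2 * r)) h0 dq
  have er := eps_nonneg r t (Real.cos (2 * p)) (Real.cos (2 * q)) h0 dr
  have e0 : epsv ![q, p, r] t 0 = epsr (Real.cos (2 * q)) (Real.cos (2 * p)) (Real.cos (2 * r)) t := rfl
  have e1 : epsv ![q, p, r] t 1 = epsr (Real.cos (2 * p)) (Real.cos (2 * q)) (Real.cos (2 * r)) t :=
    epsr_symm _ _ _ _
  have e2 : epsv ![q, p, r] t 2 = epsr (Real.cos (2 * r)) (Real.cos (2 * p)) (Real.cos (2 * q)) t :=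
    epsr_symm _ _ _ _
  have d1 : denv ![q, p, r] t 1 = denr (Real.cos (2 * p)) (Real.cos (2 * q)) (Real.cos (2 * r)) t :=
    denr_symm _ _ _ _
  have d2 : denv ![q, p, r] t 2 = denr (Real.cos (2 * r)) (Real.cos (2 * p)) (Real.cos (2 * q)) t :=
    denr_symm _ _ _ _
  rw [← e0] at Vq eq
  rw [← e1] at Vp ep
  rw [← e2] at Vr er
  rw [← d1] at dp
  rw [← d2] at dr
  have hα : ∀ e : Fin 3, 0 < ![q, p, r] e ∧ ![q, p, r] e ≤ Real.pi / 6 := by
    intro e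
    fin_cases e
    · exact hq
    · exact hp
    · exact hr
  have he : ∀ e : Fin 3, 0 ≤ epsv ![q, p, r] t e ∧ epsv ![q, p, r] t e ≤ Real.pi / 4 := by
    intro e
    fin_cases e
    · exact eq
    · exact ep
    · exact er
  have g0 := god_edge ![q, p, r] t 0 hα he c2 c3 l2 l3 n1 Vq Vr Vp hB.q hB.r hB.t hct kl2 hl2 kl3 hl3 hc2 hc3 ok1
  have g1 := god_edge ![q, p, r] t 1 hα he c1 c2 l1 l2 n2 Vp Vq Vr hB.p hB.q hB.t hct kl1 hl1 kl2 hl2 hc1 hc2 ok2
  have g2 := god_edge ![q, p, r] t 2 hα he c3 c1 l3 l1 n3 Vr Vp Vq hB.r hB.p hB.t hct kl3 hl3 kl1 hl1 hc3 hc1 ok3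
  refine ⟨?_, ![(c2 : ℝ) / 100, (c1 : ℝ) / 100, (c3 : ℝ) / 100], ![(l2 : ℝ) / 100, (l1 : ℝ) / 100, (l3 : ℝ) / 100],
    ![(n1 : ℝ) / 100 * t, (n2 : ℝ) / 100 * t, (n3 : ℝ) / 100 * t], ?_, ?_⟩
  · intro e
    fin_cases e
    · exact dq
    · exact dp
    · exact dr
  · have hl : ∀ l : ℕ, 0 < l → l ≤ 100 → 0 < (l : ℝ) / 100 ∧ (l : ℝ) / 100 ≤ 1 := by
      intro l h h'
      have h1 : (0 : ℝ) < l := by exact_mod_cast h
      have h2 : (l : ℝ) ≤ 100 := by exact_mod_cast h'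
      exact ⟨by positivity, by rw [div_le_one (by norm_num)]; exact h2⟩
    intro e
    fin_cases e
    · exact hl l2 kl2 hl2
    · exact hl l1 kl1 hl1
    · exact hl l3 kl3 hl3
  · intro i
    fin_cases i
    · exact g0
    · exact g1
    · exact g2

end Pool.Agent.Work.MP_88b7aa_gt.Iv
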