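import Pool.Agent.Work.MP_88b7aa_gt.Iv.EdgI
import Pool.Agent.Work.MP_88b7aa_gt.CH.IdG

/-!
# The checked edge is the edge of the triangle.  Size: S-M.

PROOF.  `Hv α t i = ‖Y‖/(sin 2α_i sin 2α_{i+2})`, `‖Y‖² = (AB + C)² cos² t + (AB - C)² sin² t` (`Y = AB e^{-it} + C e^{it}`), and
`sin 2α = 2 sin α cos α`, so `(Hv α t i sin νA sin νB)² = hval ..` and, both being `≥ 0`, `√(hval ..) = Hv α t i sin νA sin νB`; thus
`P.H = Hv α t i` (`P.H = P.h/(sin νA sin νB)`).
`EGP P` (`IdG`) then is the statement of `EdgeGood` with `P.sg = (eA+eB)/2`, `P.et = (eB-eA)/2`.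
-/

namespace Pool.Agent.Work.MP_88b7aa_gt.Iv

open Pool.Agent.Work.MP_88b7aa_gt.CH

private theorem hvm_nsq (a c t : ℝ) :
    ‖(a : ℂ) * Complex.exp ((-t : ℝ) * Complex.I) + (c : ℂ) * Complex.exp ((t : ℝ) * Complex.I)‖ ^ 2 =
      (a + c) ^ 2 * Real.cos t ^ 2 + (a - c) ^ 2 * (1 - Real.cos t ^ 2) := by
  rw [← Complex.normSq_eq_norm_sq, Complex.normSq_apply]
  have hre : ((a : ℂ) * Complex.exp ((-t : ℝ) * Complex.I) + (c : ℂ) * Complex.exp ((t : ℝ) * Complex.I)).re =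
      a * Real.cos t + c * Real.cos t := by
    rw [Complex.add_re, Complex.re_ofReal_mul, Complex.re_ofReal_mul, Complex.exp_ofReal_mul_I_re,
      Complex.exp_ofReal_mul_I_re, Real.cos_neg]
  have him : ((a : ℂ) * Complex.exp ((-t : ℝ) * Complex.I) + (c : ℂ) * Complex.exp ((t : ℝ) * Complex.I)).im =
      -(a * Real.sin t) + c * Real.sin t := by
    rw [Complex.add_im, Complex.im_ofReal_mul, Complex.im_ofReal_mul, Complex.exp_ofReal_mul_I_im,
      Complex.exp_ofReal_mul_I_im, Real.sin_neg]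
    ring
  rw [hre, him]
  have hs : Real.sin t ^ 2 = 1 - Real.cos t ^ 2 := by
    have := Real.sin_sq_add_cos_sq t
    linarith
  rw [← hs]
  ring

private theorem hvm_key (α : Fin 3 → ℝ) (t : ℝ) (i : Fin 3) (hα : ∀ e, 0 < α e ∧ α e ≤ Real.pi / 6) (νA νB : ℝ)
    (hA : 0 < Real.sin νA) (hB : 0 < Real.sin νB) :
    Real.sqrt (hval (α i) (α (i + 2)) (α (i + 1)) νA νB t) / (Real.sin νA * Real.sin νB) = Hv α t i := by
  have hpi := Real.pi_pos
  have hs : ∀ e, 0 < Real.sin (α e) := fun e =>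
    Real.sin_pos_of_pos_of_lt_pi (hα e).1 (by have := (hα e).2; linarith)
  have hc : ∀ e, 0 < Real.cos (α e) := fun e =>
    Real.cos_pos_of_mem_Ioo ⟨by have := (hα e).1; linarith, by have := (hα e).2; linarith⟩
  have hs2 : ∀ e, Real.sin (2 * α e) = 2 * Real.sin (α e) * Real.cos (α e) := fun e => Real.sin_two_mul _
  have hden : 0 < Real.sin (2 * α i) * Real.sin (2 * α (i + 2)) := by
    rw [hs2, hs2]
    have h1 := hs i
    have h2 := hs (i + 2)
    have h3 := hc i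
    have h4 := hc (i + 2)
    positivity
  have hH : 0 ≤ Hv α t i := by
    unfold Hv
    positivity
  have hq : hval (α i) (α (i + 2)) (α (i + 1)) νA νB t = (Hv α t i * (Real.sin νA * Real.sin νB)) ^ 2 := by
    have hn := hvm_nsq (Real.cos (2 * α i) * Real.cos (2 * α (i + 2))) (Real.cos (2 * α (i + 1))) t
    unfold Hv Yv hval
    rw [mul_pow, div_pow, hn, hs2, hs2]
    have h1 := (hs i).ne'
    have h2 := (hs (i + 2)).ne'
    have h3 := (hc i).ne'
    have h4 := (hc (i + 2)).ne'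
    field_simp
    ring
  rw [hq, Real.sqrt_sq (by positivity)]
  field_simp

theorem HvM (α : Fin 3 → ℝ) (t : ℝ) (i : Fin 3) (hα : ∀ e, 0 < α e ∧ α e ≤ Real.pi / 6) (νA νB eA eB k x : ℝ)
    (hA : 0 < Real.sin νA) (hB : 0 < Real.sin νB)
    (h : REdge { νA := νA, νB := νB, eA := eA, eB := eB,
                 h := Real.sqrt (hval (α i) (α (i + 2)) (α (i + 1)) νA νB t), k := k, x := x }) :
    EdgeGood νA νB k ((eA + eB) / 2) ((eB - eA) / 2) (Hv α t i) x := by
  have h1 := IdG (EP.mk νA νB eA eB (Real.sqrt (hval (α i) (α (i + 2)) (α (i + 1)) νA νB t)) k x) hA hB h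
  unfold EGP at h1
  rw [← hvm_key α t i hα νA νB hA hB]
  exact h1

end Pool.Agent.Work.MP_88b7aa_gt.Iv
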