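import Pool.Agent.Work.MP_88b7aa_gt.Iv.Check
import Pool.Agent.Work.MP_88b7aa_gt.CH.Real

/-!
# What it means that interval data contain the real data (definitions).

`MemV α ε V`: data `V : Vb` of a vertex with half angle `α` and `ε`.
`MemD ν ε κ V`: data `V : Vd` of a vertex on an edge, threshold `ν`, share `ε` of the phase, `κ = sin² ν / sin² α`.
-/

namespace Pool.Agent.Work.MP_88b7aa_gt.Iv

open Pool.Agent.Work.MP_88b7aa_gt.CH

structure MemV (α ε : ℝ) (V : Vb) : Prop where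
  a : Mem (Real.cos α) V.a
  a2 : Mem (Real.cos α ^ 2) V.a2
  s2 : Mem (Real.sin α ^ 2) V.s2
  A : Mem (Real.cos (2 * α)) V.A
  e : Mem ε V.e
  E : Mem (ε / Real.sin α ^ 2) V.E

structure MemD (ν ε κ : ℝ) (V : Vd) : Prop where
  a : Mem (Real.cos ν) V.a
  a2 : Mem (Real.cos ν ^ 2) V.a2
  s2 : Mem (Real.sin ν ^ 2) V.s2
  e : Mem ε V.e
  ce : Mem (Real.cos ε) V.ce
  w : Mem (wf ν ε) V.w
  y : Mem (yf ν ε) V.y
  r : Mem (rf ν ε) V.r
  rp : Mem (rpf ν ε) V.rp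
  ch : Mem (Real.cos (ε / 2)) V.ch
  k2 : Mem κ V.k2
  a0 : 0 < Real.cos ν
  c0 : 0 < Real.cos ε

/-- The six quantities of the side `s` of the edge `P`. -/
structure MemS (P : EP) (s : ℝ) (S : Sd) : Prop where
  c2 : Mem (P.q2 s) S.c2
  c3 : Mem (P.q3 s) S.c3
  c4 : Mem (P.q4 s) S.c4
  c5 : Mem (P.q5 s) S.c5
  c8 : Mem (P.q8 s) S.c8
  c9 : Mem (P.q9 s) S.c9

/-- The point of a box. -/
structure InBox (p q r t : ℝ) (B : Box) : Prop where
  p : Mem p B.p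
  q : Mem q B.q
  r : Mem r B.r
  t : Mem t B.t

/-- The exclusion criterion at `κ θ = 2 κ t`, `κ = m / 2`. -/
def Exc (m : ℕ) (p q r t : ℝ) : Prop :=
  fA (Real.cos (2 * p)) (Real.cos (2 * q)) (Real.cos (2 * r)) (Real.cos (m * t)) < 1 ∨
  fB (Real.cos (2 * p)) (Real.cos (2 * q)) (Real.cos (2 * r)) (Real.cos (m * t)) < 0

end Pool.Agent.Work.MP_88b7aa_gt.Iv
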