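import Pool.Agent.Work.MP_88b7aa_gt.Iv.Check

/-!
# Assembling a run from runs on sub-boxes
-/

namespace Pool.Agent.Work.MP_88b7aa_gt.Iv

theorem run_sp (m : ℕ) (x y : Tr) (p q r t p1 p2 : Iv) (h1 : p1 = ⟨p.lo, mid p⟩) (h2 : p2 = ⟨mid p, p.hi⟩)
    (a : run m x ⟨p1, q, r, t⟩ = true) (b : run m y ⟨p2, q, r, t⟩ = true) :
    run m (.sp x y) ⟨p, q, r, t⟩ = true := by
  subst h1; subst h2; simp only [run, a, b, Bool.and_self]

theorem run_sq (m : ℕ) (x y : Tr) (p q r t q1 q2 : Iv) (h1 : q1 = ⟨q.lo, mid q⟩) (h2 : q2 = ⟨mid q, q.hi⟩)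
    (a : run m x ⟨p, q1, r, t⟩ = true) (b : run m y ⟨p, q2, r, t⟩ = true) :
    run m (.sq x y) ⟨p, q, r, t⟩ = true := by
  subst h1; subst h2; simp only [run, a, b, Bool.and_self]

theorem run_sr (m : ℕ) (x y : Tr) (p q r t r1 r2 : Iv) (h1 : r1 = ⟨r.lo, mid r⟩) (h2 : r2 = ⟨mid r, r.hi⟩)
    (a : run m x ⟨p, q, r1, t⟩ = true) (b : run m y ⟨p, q, r2, t⟩ = true) :
    run m (.sr x y) ⟨p, q, r, t⟩ = true := by
  subst h1; subst h2; simp only [run, a, b, Bool.and_self]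

theorem run_st (m : ℕ) (x y : Tr) (p q r t t1 t2 : Iv) (h1 : t1 = ⟨t.lo, mid t⟩) (h2 : t2 = ⟨mid t, t.hi⟩)
    (a : run m x ⟨p, q, r, t1⟩ = true) (b : run m y ⟨p, q, r, t2⟩ = true) :
    run m (.st x y) ⟨p, q, r, t⟩ = true := by
  subst h1; subst h2; simp only [run, a, b, Bool.and_self]

end Pool.Agent.Work.MP_88b7aa_gt.Iv
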