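import Pool.Agent.Work.MP_88b7aa_gt.Iv.Mv
import Pool.Agent.Work.MP_88b7aa_gt.Iv.MulI
import Pool.Agent.Work.MP_88b7aa_gt.Iv.SqrI

/-!
# Soundness of `side`.  Size: S-M.

PROOF.  `s = 1` for `true`, `s = -1` for `false`.  `ls s c d` encloses `c + s d`; `pm s z` encloses `- s z`.
`K = fs s (x - k)` with `cK ∋ cos (k - x)`, `sK ∋ sin (k - x)`: `fs s (x-k) = cos (k-x) - s sin (k-x)`, `ls s cK (neg sK)`.
The flags `posb (add h g).lo`, `posb (add g bh).lo`, `posb (add g ah).lo` give the hypotheses of `mem_inv`.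
Then follow the definitions of `q2, ..., q9` (same expressions up to associativity: `P.b * P.h` is `mul V.a h` etc.; for `c5`
`(b A2) K` etc.).
-/

namespace Pool.Agent.Work.MP_88b7aa_gt.Iv

open Pool.Agent.Work.MP_88b7aa_gt.CH

/-- the sign of a Boolean -/
def sgn (s : Bool) : ℝ := match s with
  | true => 1
  | false => -1

private theorem m_ls (s : Bool) {c d : ℝ} {X Y : Iv} (hc : Mem c X) (hd : Mem d Y) :
    Mem (c + sgn s * d) (ls s X Y) := by
  cases s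
  · have h := mem_sub hc hd
    have e : c + sgn false * d = c - d := by
      unfold sgn
      ring
    rw [e]
    exact h
  · have h := mem_add hc hd
    have e : c + sgn true * d = c + d := by
      unfold sgn
      ring
    rw [e]
    exact h

private theorem m_pm (s : Bool) {z : ℝ} {Z : Iv} (hz : Mem z Z) : Mem (-(sgn s * z)) (pm s Z) := by
  cases s
  · have e : -(sgn false * z) = z := by
      unfold sgn
      ring
    rw [e]
    exact hz
  · have e : -(sgn true * z) = -z := by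
      unfold sgn
      ring
    rw [e]
    exact mem_neg hz

private theorem m_one : Mem (1 : ℝ) (cst 1) := by
  have h := mem_cst 1
  rwa [Nat.cast_one] at h

private theorem sgn_not (s : Bool) : sgn (!s) = -sgn s := by
  cases s
  · unfold sgn
    norm_num
  · unfold sgn
    norm_num

theorem side_sound (s : Bool) (P : EP) (κA κB : ℝ) {U V : Vd}
    {h h2 g hc cK sK cE sE cV sV cR sR cC sC cX sX : Iv}
    (hU : MemD P.νA P.eA κA U) (hV : MemD P.νB P.eB κB V) (hh : Mem P.h h) (hh2 : Mem (P.h ^ 2) h2)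
    (hg : Mem P.g g) (hhc : Mem P.hc hc)
    (hcK : Mem (Real.cos (P.k - P.x)) cK) (hsK : Mem (Real.sin (P.k - P.x)) sK)
    (hcE : Mem (Real.cos (P.x + P.sg)) cE) (hsE : Mem (Real.sin (P.x + P.sg)) sE)
    (hcV : Mem (Real.cos (P.x - P.sg)) cV) (hsV : Mem (Real.sin (P.x - P.sg)) sV)
    (hcR : Mem (Real.cos (P.x + P.et)) cR) (hsR : Mem (Real.sin (P.x + P.et)) sR)
    (hcC : Mem (Real.cos (P.x - P.et)) cC) (hsC : Mem (Real.sin (P.x - P.et)) sC)
    (hcX : Mem (Real.cos P.x) cX) (hsX : Mem (Real.sin P.x) sX)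
    (ok : allpos (side s U V h h2 g hc cK sK cE sE cV sV cR sR cC sC cX sX) = true) :
    MemS P (sgn s) (side s U V h h2 g hc cK sK cE sE cV sV cR sR cC sC cX sX) ∧
      0 < P.h ∧ 0 < P.K (sgn s) ∧ 0 < P.E (sgn s) ∧ 0 < P.V (sgn s) ∧ 0 < P.R (sgn s) ∧ 0 < P.C (sgn s) ∧
      0 < P.q2 (sgn s) ∧ 0 < P.q3 (sgn s) ∧ 0 < P.q4 (sgn s) ∧ 0 < P.q5 (sgn s) ∧ 0 < P.q8 (sgn s) ∧
      0 < P.q9 (sgn s) := by
  have hA : Mem P.a U.a := hU.a
  have hB : Mem P.b V.a := hV.a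
  have hA2 : Mem P.A2 U.s2 := hU.s2
  have hB2 : Mem P.B2 V.s2 := hV.s2
  have mK : Mem (P.K (sgn s)) (ls s cK (neg sK)) := by
    have h1 := m_ls s hcK (mem_neg hsK)
    have e : P.K (sgn s) = Real.cos (P.k - P.x) + sgn s * -Real.sin (P.k - P.x) := by
      unfold EP.K fs
      rw [← neg_sub P.k P.x, Real.cos_neg, Real.sin_neg]
    rw [e]
    exact h1
  have mE : Mem (P.E (sgn s)) (ls s cE sE) := m_ls s hcE hsE
  have mV : Mem (P.V (sgn s)) (ls s cV sV) := m_ls s hcV hsV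
  have mR : Mem (P.R (sgn s)) (ls s cR sR) := m_ls s hcR hsR
  have mC : Mem (P.C (sgn s)) (ls s cC sC) := m_ls s hcC hsC
  have mRm : Mem (P.R (-sgn s)) (ls (!s) cR sR) := by
    have h1 := m_ls (!s) hcR hsR
    rw [sgn_not] at h1
    exact h1
  have mCm : Mem (P.C (-sgn s)) (ls (!s) cC sC) := by
    have h1 := m_ls (!s) hcC hsC
    rw [sgn_not] at h1
    exact h1
  have me : Mem (fs (sgn s) P.x) (ls s cX sX) := m_ls s hcX hsX
  have mem' : Mem (fs (-sgn s) P.x) (ls (!s) cX sX) := by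
    have h1 := m_ls (!s) hcX hsX
    rw [sgn_not] at h1
    exact h1
  have mbh : Mem (P.b * P.h) (mul V.a h) := mem_mul hB hh
  have mah : Mem (P.a * P.h) (mul U.a h) := mem_mul hA hh
  unfold allpos at ok
  simp only [Bool.and_eq_true] at ok
  obtain ⟨⟨⟨⟨⟨⟨hok, p2⟩, p3⟩, p4⟩, p5⟩, p8⟩, p9⟩ := ok
  have hok' := hok
  simp only [side, Bool.and_eq_true] at hok'
  obtain ⟨⟨⟨⟨⟨⟨⟨⟨o1, o2⟩, o3⟩, o4⟩, o5⟩, o6⟩, o7⟩, o8⟩, o9⟩ := hok'
  have mhg : Mem (P.h + P.g)⁻¹ (inv (add h g)) := mem_inv (mem_add hh hg) o7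
  have mgb : Mem (P.g + P.b * P.h)⁻¹ (inv (add g (mul V.a h))) := mem_inv (mem_add hg mbh) o8
  have mga : Mem (P.g + P.a * P.h)⁻¹ (inv (add g (mul U.a h))) := mem_inv (mem_add hg mah) o9
  have m2 : Mem (P.q2 (sgn s)) (side s U V h h2 g hc cK sK cE sE cV sV cR sR cC sC cX sX).c2 := by
    have h1 := mem_add (mem_add (mem_mul hA mK) (mem_mul (mem_sub hh2 hA2) (mem_mul mC mgb)))
      (m_pm s (mem_mul mbh (mem_mul hV.w mCm)))
    have e : P.q2 (sgn s) = P.a * P.K (sgn s) + (P.h ^ 2 - P.A2) * (P.C (sgn s) *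
        (P.g + P.b * P.h)⁻¹) + -(sgn s * (P.b * P.h * (wf P.νB P.eB * P.C (-sgn s)))) := by
      unfold EP.q2
      ring
    rw [e]
    exact h1
  have m3 : Mem (P.q3 (sgn s)) (side s U V h h2 g hc cK sK cE sE cV sV cR sR cC sC cX sX).c3 :=
    mem_sub (mem_add (mem_mul hg mC) (mem_mul mbh mE)) (mem_mul (mem_mul hA hB2) mK)
  have m4 : Mem (P.q4 (sgn s)) (side s U V h h2 g hc cK sK cE sE cV sV cR sR cC sC cX sX).c4 := by
    have h1 := mem_add (mem_add (mem_mul hB mK) (mem_mul (mem_sub hh2 hB2) (mem_mul mR mga)))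
      (m_pm s (mem_mul mah (mem_mul hU.w mRm)))
    have e : P.q4 (sgn s) = P.b * P.K (sgn s) + (P.h ^ 2 - P.B2) * (P.R (sgn s) *
        (P.g + P.a * P.h)⁻¹) + -(sgn s * (P.a * P.h * (wf P.νA P.eA * P.R (-sgn s)))) := by
      unfold EP.q4
      ring
    rw [e]
    exact h1
  have m5 : Mem (P.q5 (sgn s)) (side s U V h h2 g hc cK sK cE sE cV sV cR sR cC sC cX sX).c5 :=
    mem_sub (mem_add (mem_mul hg mR) (mem_mul mah mE)) (mem_mul (mem_mul hB hA2) mK)
  have m8 : Mem (P.q8 (sgn s)) (side s U V h h2 g hc cK sK cE sE cV sV cR sR cC sC cX sX).c8 := by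
    have hbr := mem_add (mem_mul me (mem_sub m_one (mem_mul hU.r hV.rp)))
      (m_pm s (mem_mul (mem_add hU.r hV.rp) mem'))
    have hdf := mem_sub (mem_mul (mem_sub (mem_mul hA mC) (mem_mul hB mR)) mhg) mK
    have h1 := mem_add (mem_mul hhc hbr)
      (mem_mul (mem_mul (mem_sub m_one hB) (mem_add m_one hA)) hdf)
    have e : P.q8 (sgn s) = P.hc * (fs (sgn s) P.x * (1 - rf P.νA P.eA * rpf P.νB P.eB) +
        -(sgn s * ((rf P.νA P.eA + rpf P.νB P.eB) * fs (-sgn s) P.x))) +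
        (1 - P.b) * (1 + P.a) * ((P.a * P.C (sgn s) - P.b * P.R (sgn s)) * (P.h + P.g)⁻¹ -
          P.K (sgn s)) := by
      unfold EP.q8
      ring
    rw [e]
    exact h1
  have m9 : Mem (P.q9 (sgn s)) (side s U V h h2 g hc cK sK cE sE cV sV cR sR cC sC cX sX).c9 := by
    have hbr := mem_add (mem_mul me (mem_sub m_one (mem_mul hV.r hU.rp)))
      (m_pm s (mem_mul (mem_add hV.r hU.rp) mem'))
    have hdf := mem_sub (mem_mul (mem_sub (mem_mul hB mR) (mem_mul hA mC)) mhg) mK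
    have h1 := mem_add (mem_mul hhc hbr)
      (mem_mul (mem_mul (mem_sub m_one hA) (mem_add m_one hB)) hdf)
    have e : P.q9 (sgn s) = P.hc * (fs (sgn s) P.x * (1 - rf P.νB P.eB * rpf P.νA P.eA) +
        -(sgn s * ((rf P.νB P.eB + rpf P.νA P.eA) * fs (-sgn s) P.x))) +
        (1 - P.a) * (1 + P.b) * ((P.b * P.R (sgn s) - P.a * P.C (sgn s)) * (P.h + P.g)⁻¹ -
          P.K (sgn s)) := by
      unfold EP.q9
      ring
    rw [e]
    exact h1
  exact ⟨⟨m2, m3, m4, m5, m8, m9⟩, pos_of_posb hh o6, pos_of_posb mK o1, pos_of_posb mE o2,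
    pos_of_posb mV o3, pos_of_posb mR o4, pos_of_posb mC o5, pos_of_posb m2 p2, pos_of_posb m3 p3,
    pos_of_posb m4 p4, pos_of_posb m5 p5, pos_of_posb m8 p8, pos_of_posb m9 p9⟩

end Pool.Agent.Work.MP_88b7aa_gt.Iv
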